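import Pool.Agent.Helper769.FAF.Basic

open Finset Filter Topology

noncomputable section

namespace FAF

theorem Dep_mono {n m : ℕ} (h : n ≤ m) {G : Env → ℝ} (hG : Dep n G) : Dep m G := by
  intro z w hzw
  exact hG z w (fun i hi => hzw i (lt_of_lt_of_le hi h))

theorem E_mono (μ : Fam) (n : ℕ) (G H : Env → ℝ) (h : ∀ z ∈ W n, G z ≤ H z) : μ.E n G ≤ μ.E n H := by
  unfold Fam.E
  exact Finset.sum_le_sum (fun z hz => mul_le_mul_of_nonneg_left (h z hz) (μ.nn n z))

theorem E_add (μ : Fam) (n : ℕ) (G H : Env → ℝ) : μ.E n (fun z => G z + H z) = μ.E n G + μ.E n H := by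
  unfold Fam.E
  rw [← Finset.sum_add_distrib]
  exact Finset.sum_congr rfl (fun z _ => by ring)

theorem E_smul (μ : Fam) (n : ℕ) (c : ℝ) (G : Env → ℝ) : μ.E n (fun z => c * G z) = c * μ.E n G := by
  unfold Fam.E
  rw [Finset.mul_sum]
  exact Finset.sum_congr rfl (fun z _ => by ring)

theorem E_sub (μ : Fam) (n : ℕ) (G H : Env → ℝ) : μ.E n (fun z => G z - H z) = μ.E n G - μ.E n H := by
  unfold Fam.E
  rw [← Finset.sum_sub_distrib]
  exact Finset.sum_congr rfl (fun z _ => by ring)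

theorem ultra_E (μs : ℕ → Fam) (U : Ultrafilter ℕ) (μ : Fam)
    (h : ∀ n z, Tendsto (fun m => (μs m).p n z) U (𝓝 (μ.p n z))) (n : ℕ) (G : Env → ℝ) :
    Tendsto (fun m => (μs m).E n G) U (𝓝 (μ.E n G)) := by
  unfold Fam.E
  exact tendsto_finset_sum _ (fun z _ => (h n z).mul_const _)

end FAF
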