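import Pool.Agent.Helper769.FAF.Defs

open Finset

noncomputable section

namespace FAF

--@ mem_W
theorem mem_W (n : ℕ) (z : Env) : z ∈ W n ↔ ∀ k, n ≤ k → z k = false := by
  classical
  unfold W
  simp only [Finset.mem_image, Finset.mem_univ, true_and]
  constructor
  · rintro ⟨s, rfl⟩ k hk
    simp [Nat.not_lt.2 hk]
  · intro h
    refine ⟨fun i => z i, ?_⟩
    funext k
    by_cases hk : k < n
    · simp [hk]
    · simp [hk, h k (Nat.not_lt.1 hk)]

--@ W_zero
theorem W_zero : W 0 = {fun _ => false} := by
  ext z
  rw [mem_W, Finset.mem_singleton]
  constructor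
  · intro h; funext k; exact h k (Nat.zero_le k)
  · rintro rfl k _; rfl

--@ sum_succ
theorem sum_succ (n : ℕ) (H : Env → ℝ) :
    ∑ z ∈ W (n + 1), H z = ∑ z ∈ W n, (H (up z n false) + H (up z n true)) := by
  classical
  rw [Finset.sum_add_distrib]
  have h0 : W (n+1) = (W n).image (fun z => up z n false) ∪ (W n).image (fun z => up z n true) := by
    ext z
    rw [Finset.mem_union, Finset.mem_image, Finset.mem_image]
    constructor
    · intro h
      rw [mem_W] at h
      have key : up z n false ∈ W n := by
        rw [mem_W]; intro k hk
        unfold up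
        by_cases e : k = n
        · simp [e]
        · simp [e]; exact h k (by omega)
      cases hz : z n
      · left
        refine ⟨up z n false, key, ?_⟩
        funext j; unfold up; by_cases e : j = n <;> simp [e, hz]
      · right
        refine ⟨up z n false, key, ?_⟩
        funext j; unfold up; by_cases e : j = n <;> simp [e, hz]
    · rintro (⟨w, hw, rfl⟩ | ⟨w, hw, rfl⟩) <;>
      · rw [mem_W] at hw ⊢
        intro k hk
        unfold up
        rw [if_neg (by omega)]
        exact hw k (by omega)
  have hd : Disjoint ((W n).image (fun z => up z n false)) ((W n).image (fun z => up z n true)) := by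
    rw [Finset.disjoint_left]
    intro z h1 h2
    rw [Finset.mem_image] at h1 h2
    obtain ⟨a, _, ha⟩ := h1
    obtain ⟨b, _, hb⟩ := h2
    have : z n = false := by rw [← ha]; simp [up]
    have h' : z n = true := by rw [← hb]; simp [up]
    rw [this] at h'; cases h'
  have inj : ∀ b : Bool, Set.InjOn (fun z => up z n b) (W n : Set Env) := by
    intro b x hx y hy hxy
    rw [Finset.mem_coe, mem_W] at hx hy
    funext k
    by_cases e : k = n
    · rw [e, hx n le_rfl, hy n le_rfl]
    · have := congrFun hxy k
      simpa [up, e] using this
  rw [h0, Finset.sum_union hd, Finset.sum_image (inj false), Finset.sum_image (inj true)]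

--@ sum_cons
theorem sum_cons (n : ℕ) (H : Env → ℝ) :
    ∑ z ∈ W (n + 1), H z = ∑ z ∈ W n, (H (cons false z) + H (cons true z)) := by
  classical
  rw [Finset.sum_add_distrib]
  have h0 : W (n+1) = (W n).image (fun z => cons false z) ∪ (W n).image (fun z => cons true z) := by
    ext z
    rw [Finset.mem_union, Finset.mem_image, Finset.mem_image]
    constructor
    · intro h
      rw [mem_W] at h
      have key : tl z ∈ W n := by
        rw [mem_W]; intro k hk
        exact h (k+1) (by omega)
      cases hz : z 0
      · left
        refine ⟨tl z, key, ?_⟩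
        funext j; unfold cons tl
        by_cases e : j = 0
        · simp [e, hz]
        · simp only [e, if_false]; congr 1; omega
      · right
        refine ⟨tl z, key, ?_⟩
        funext j; unfold cons tl
        by_cases e : j = 0
        · simp [e, hz]
        · simp only [e, if_false]; congr 1; omega
    · rintro (⟨w, hw, rfl⟩ | ⟨w, hw, rfl⟩) <;>
      · rw [mem_W] at hw ⊢
        intro k hk
        unfold cons
        rw [if_neg (by omega)]
        exact hw (k-1) (by omega)
  have hd : Disjoint ((W n).image (fun z => cons false z)) ((W n).image (fun z => cons true z)) := by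
    rw [Finset.disjoint_left]
    intro z h1 h2
    rw [Finset.mem_image] at h1 h2
    obtain ⟨a, _, ha⟩ := h1
    obtain ⟨b, _, hb⟩ := h2
    have : z 0 = false := by rw [← ha]; simp [cons]
    have h' : z 0 = true := by rw [← hb]; simp [cons]
    rw [this] at h'; cases h'
  have inj : ∀ b : Bool, Set.InjOn (fun z => cons b z) (W n : Set Env) := by
    intro b x hx y hy hxy
    funext k
    have := congrFun hxy (k+1)
    simpa [cons] using this
  rw [h0, Finset.sum_union hd, Finset.sum_image (inj false), Finset.sum_image (inj true)]

--@ sum_split
/-- splitting the sum over words at site `k` -/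
theorem sum_split (n k : ℕ) (hk : k < n) (H : Env → ℝ) :
    ∑ z ∈ W n, H z = ∑ z ∈ (W n).filter (fun z => z k = false), (H z + H (up z k true)) := by
  classical
  rw [Finset.sum_add_distrib]
  rw [← Finset.sum_filter_add_sum_filter_not (W n) (fun z => z k = false) H]
  congr 1
  refine Finset.sum_bij' (fun z _ => up z k false) (fun z _ => up z k true) ?_ ?_ ?_ ?_ ?_
  · intro z hz
    rw [Finset.mem_filter] at hz ⊢
    rw [mem_W] at *
    refine ⟨?_, by simp [up]⟩
    intro j hj
    unfold up
    rw [if_neg (by omega)]
    exact hz.1 j hj
  · intro z hz
    rw [Finset.mem_filter] at hz ⊢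
    rw [mem_W] at *
    refine ⟨?_, by simp [up]⟩
    intro j hj
    unfold up
    rw [if_neg (by omega)]
    exact hz.1 j hj
  · intro z hz
    rw [Finset.mem_filter] at hz
    funext j; unfold up
    by_cases e : j = k
    · simp only [e, if_true]
      cases hh : z k
      · exact absurd hh hz.2
      · rfl
    · simp [e]
  · intro z hz
    rw [Finset.mem_filter] at hz
    funext j; unfold up
    by_cases e : j = k
    · simp only [e, if_true]; exact hz.2.symm
    · simp [e]
  · intro z hz
    rw [Finset.mem_filter] at hz
    congr 1
    funext j; unfold up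
    by_cases e : j = k
    · simp only [e, if_true]
      cases hh : z k
      · exact absurd hh hz.2
      · rfl
    · simp [e]

end FAF
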