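import Mathlib

set_option autoImplicit false
set_option linter.unusedSectionVars false

open Finset

noncomputable section

namespace FAF

/-! ## The environment seen from the front
`z k` is the state (`true` = infected) of the site at distance `k+1` behind the front. -/

abbrev Env := ℕ → Bool

/-- the front moves one step forward: the old front becomes the first site of the environment -/
def cons (b : Bool) (z : Env) : Env := fun k => if k = 0 then b else z (k - 1)

/-- the front moves one step backward -/
def tl (z : Env) : Env := fun k => z (k + 1)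

/-- change the state of site `k` -/
def up (z : Env) (k : ℕ) (b : Bool) : Env := fun j => if j = k then b else z j

/-- constraint at site `k`: site `0` is next to the (infected) front -/
def cr (z : Env) (k : ℕ) : ℝ := if k = 0 ∨ z (k - 1) = true ∨ z (k + 1) = true then 1 else 0

/-- `G` depends on the first `n` coordinates only -/
def Dep (n : ℕ) (G : Env → ℝ) : Prop := ∀ z w : Env, (∀ i < n, z i = w i) → G z = G w

/-- generator of the environment seen from the front, on functions of the first `n` coordinates -/
def A (q : ℝ) (n : ℕ) (G : Env → ℝ) (z : Env) : ℝ :=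
  q * (G (cons true z) - G z)
  + (if z 0 = true then (1 - q) * (G (tl z) - G z) else 0)
  + ∑ k ∈ range n, cr z k * (q * G (up z k true) + (1 - q) * G (up z k false) - G z)

/-- drift of the front -/
def phi (q : ℝ) (z : Env) : ℝ := q - (if z 0 = true then 1 - q else 0)

/-- all words of length `n` (padded with `false`) -/
def W (n : ℕ) : Finset Env := by
  classical
  exact (Finset.univ : Finset (Fin n → Bool)).image
    (fun s => fun k => if h : k < n then s ⟨k, h⟩ else false)

/-- consistent families of finite dimensional distributions on `Env` -/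
structure Fam where
  p : ℕ → Env → ℝ
  dep : ∀ n, Dep n (p n)
  nn : ∀ n z, 0 ≤ p n z
  one : ∀ z, p 0 z = 1
  con : ∀ n z, p n z = p (n + 1) (up z n false) + p (n + 1) (up z n true)

/-- expectation of a function of the first `n` coordinates -/
def Fam.E (μ : Fam) (n : ℕ) (G : Env → ℝ) : ℝ := ∑ z ∈ W n, μ.p n z * G z

/-- invariance of the family for the process seen from the front -/
def Inv (q : ℝ) (μ : Fam) : Prop := ∀ (n : ℕ) (G : Env → ℝ), Dep n G → μ.E (n + 1) (A q n G) = 0

/-- certificate at level `a` -/
def Cert (q a : ℝ) : Prop :=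
  ∃ (m : ℕ) (g : Env → ℝ) (c : ℝ), 0 < c ∧ Dep m g ∧ ∀ z, c ≤ phi q z - a - A q m g z

/-- Bernoulli weight of one site -/
def rb (q : ℝ) (b : Bool) : ℝ := if b = true then q else 1 - q

/-- Bernoulli weight of the first `n` sites -/
def rho (q : ℝ) (n : ℕ) (z : Env) : ℝ := ∏ k ∈ range n, rb q (z k)

/-- log density of the first `n` sites -/
def lf (q : ℝ) (μ : Fam) (n : ℕ) (z : Env) : ℝ := Real.log (μ.p n z) - Real.log (rho q n z)

/-- log conditional density of site `n` given the sites `< n` -/
def al (q : ℝ) (μ : Fam) (n : ℕ) (z : Env) : ℝ :=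
  Real.log (μ.p (n + 1) z) - Real.log (μ.p n z) - Real.log (rb q (z n))

/-- entropy production of one edge -/
def Ph (a b : ℝ) : ℝ := (a - b) * (Real.log a - Real.log b)

/-- front production, window `n+1` -/
def Pf (q : ℝ) (μ : Fam) (n : ℕ) : ℝ :=
  ∑ z ∈ W n, Ph (q * μ.p n z) ((1 - q) * μ.p (n + 1) (cons true z))

/-- bulk production at site `k`, window `N` -/
def Pb (q : ℝ) (μ : Fam) (N k : ℕ) : ℝ :=
  ∑ z ∈ (W N).filter (fun z => z k = false),
    cr z k * Ph (q * μ.p N z) ((1 - q) * μ.p N (up z k true))

/-- total violation of detailed balance at site `k`, window `N` -/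
def Db (q : ℝ) (μ : Fam) (N k : ℕ) : ℝ :=
  ∑ z ∈ (W N).filter (fun z => z k = false),
    cr z k * |q * μ.p N z - (1 - q) * μ.p N (up z k true)|

/-- boundary term of the entropy identity, window `n+1` -/
def Tb (q : ℝ) (μ : Fam) (n : ℕ) : ℝ :=
  μ.E (n + 2) (fun z => cr z n * (q * lf q μ (n + 1) (up z n true)
    + (1 - q) * lf q μ (n + 1) (up z n false) - lf q μ (n + 1) z))

/-- indicator -/
def ind (P : Env → Prop) (z : Env) : ℝ := by
  classical exact if P z then 1 else 0

/-- the sites `s, ..., s+L-1` are healthy -/
def zr (s L : ℕ) (z : Env) : Prop := ∀ j, s ≤ j → j < s + L → z j = false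

end FAF
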