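import Pool.Agent.Helper769.FAF.Base

set_option autoImplicit false
set_option linter.unusedSectionVars false

open Finset Filter Topology

noncomputable section

namespace FAF

theorem A_dep (q : ℝ) (n : ℕ) (G : Env → ℝ) (hG : Dep n G) : Dep (n + 1) (A q n G) := by
  intro z w h
  have h0 : z 0 = w 0 := h 0 (by omega)
  have h1 : G z = G w := hG z w fun i hi => h i (by omega)
  have h2 : G (cons true z) = G (cons true w) := by
    apply hG
    intro i hi
    show (if i = 0 then true else z (i - 1)) = (if i = 0 then true else w (i - 1))
    rw [h (i - 1) (by omega)]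
  have h3 : G (tl z) = G (tl w) := hG _ _ fun i hi => h (i + 1) (by omega)
  have h4 : ∀ k b, G (up z k b) = G (up w k b) := by
    intro k b
    apply hG
    intro i hi
    show (if i = k then b else z i) = (if i = k then b else w i)
    rw [h i (by omega)]
  have h5 : ∀ k < n, cr z k = cr w k := by
    intro k hk
    unfold cr
    rw [h (k - 1) (by omega), h (k + 1) (by omega)]
  unfold A
  rw [h0, h1, h2, h3]
  congr 1
  refine Finset.sum_congr rfl fun k hk => ?_
  rw [h4, h4, h5 k (Finset.mem_range.mp hk)]

end FAF
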