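import Pool.Agent.Helper769.FAF.Base

set_option autoImplicit false
set_option linter.unusedSectionVars false

open Finset Filter Topology

noncomputable section

namespace FAF

/-- for functions of the first `n` coordinates the flips at sites `≥ n` do not matter -/
theorem A_level (q : ℝ) (n m : ℕ) (h : n ≤ m) (G : Env → ℝ) (hG : Dep n G) (z : Env) :
    A q m G z = A q n G z := by
  unfold A
  congr 1
  symm
  apply Finset.sum_subset
  · intro k hk
    rw [Finset.mem_range] at hk ⊢
    omega
  · intro k _ hk2
    rw [Finset.mem_range] at hk2
    have hup : ∀ b, G (up z k b) = G z := by
      intro b
      apply hG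
      intro i hi
      unfold up
      rw [if_neg (by omega)]
    rw [hup true, hup false]
    ring

end FAF
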