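import Pool.Agent.Helper769.FAF.Base

set_option autoImplicit false
set_option linter.unusedSectionVars false

open Finset Filter Topology

noncomputable section

namespace FAF

theorem E_one (μ : Fam) (n : ℕ) : μ.E n (fun _ => 1) = 1 := by
  induction n with
  | zero =>
    unfold Fam.E
    rw [W_zero, Finset.sum_singleton, μ.one, mul_one]
  | succ n ih =>
    unfold Fam.E at ih ⊢
    rw [sum_succ]
    refine Eq.trans ?_ ih
    apply Finset.sum_congr rfl
    intro z _
    show μ.p (n + 1) (up z n false) * 1 + μ.p (n + 1) (up z n true) * 1 = μ.p n z * 1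
    rw [mul_one, mul_one, mul_one, ← μ.con n z]

end FAF
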