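import Pool.Agent.Helper769.FAF.Base
import Pool.Agent.Helper769.FAF.P_E_one

set_option autoImplicit false
set_option linter.unusedSectionVars false

open Finset Filter Topology

noncomputable section

namespace FAF

theorem Db_le_one (q : ℝ) (h0 : 0 < q) (h1 : q < 1) (μ : Fam) (N k : ℕ) (h : k < N) :
    Db q μ N k ≤ 1 := by
  have hE := E_one μ N
  unfold Fam.E at hE
  simp only [mul_one] at hE
  rw [sum_split N k h] at hE
  rw [← hE]
  unfold Db
  apply Finset.sum_le_sum
  intro z _
  have hcr0 : 0 ≤ cr z k := by unfold cr; split_ifs <;> norm_num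
  have hcr1 : cr z k ≤ 1 := by unfold cr; split_ifs <;> norm_num
  have ha := μ.nn N z
  have hb := μ.nn N (up z k true)
  have habs : |q * μ.p N z - (1 - q) * μ.p N (up z k true)| ≤ μ.p N z + μ.p N (up z k true) := by
    rw [abs_le]
    constructor
    · nlinarith [mul_nonneg h0.le ha, mul_nonneg h0.le hb,
        mul_nonneg (sub_nonneg.mpr h1.le) ha, mul_nonneg (sub_nonneg.mpr h1.le) hb]
    · nlinarith [mul_nonneg h0.le ha, mul_nonneg h0.le hb,
        mul_nonneg (sub_nonneg.mpr h1.le) ha, mul_nonneg (sub_nonneg.mpr h1.le) hb]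
  calc cr z k * |q * μ.p N z - (1 - q) * μ.p N (up z k true)|
      ≤ 1 * |q * μ.p N z - (1 - q) * μ.p N (up z k true)| :=
        mul_le_mul_of_nonneg_right hcr1 (abs_nonneg _)
    _ ≤ μ.p N z + μ.p N (up z k true) := by rw [one_mul]; exact habs

end FAF
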