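import Pool.Agent.Helper769.FAF.Base

set_option autoImplicit false
set_option linter.unusedSectionVars false

open Finset Filter Topology

noncomputable section

namespace FAF

theorem Ph_nonneg (a b : ℝ) (ha : 0 < a) (hb : 0 < b) : 0 ≤ Ph a b := by
  unfold Ph
  rcases le_total a b with h | h
  · have h1 := Real.log_le_log ha h
    exact mul_nonneg_of_nonpos_of_nonpos (by linarith) (by linarith)
  · have h1 := Real.log_le_log hb h
    exact mul_nonneg (by linarith) (by linarith)

end FAF
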