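import Pool.Agent.Helper769.FAF.Base

set_option autoImplicit false
set_option linter.unusedSectionVars false

open Finset Filter Topology

noncomputable section

namespace FAF

theorem Ph_sq_aux (a b : ℝ) (ha : 0 < a) (hb : 0 < b) (hab : b ≤ a) :
    (a - b) ^ 2 ≤ (a + b) * ((a - b) * (Real.log a - Real.log b)) := by
  have h1 : 1 - (a / b)⁻¹ ≤ Real.log (a / b) := Real.one_sub_inv_le_log_of_pos (by positivity)
  rw [Real.log_div ha.ne' hb.ne', inv_div] at h1
  have h2 : 0 ≤ a - b := sub_nonneg.mpr hab
  have h3 : 1 - b / a = (a - b) / a := by field_simp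
  rw [h3, div_le_iff₀ ha] at h1
  have hL : 0 ≤ Real.log a - Real.log b := by
    have := Real.log_le_log hb hab
    linarith
  have h4 : a - b ≤ (Real.log a - Real.log b) * (a + b) := by nlinarith
  have h5 := mul_le_mul_of_nonneg_left h4 h2
  nlinarith

theorem Ph_sq (a b : ℝ) (ha : 0 < a) (hb : 0 < b) : (a - b) ^ 2 ≤ (a + b) * Ph a b := by
  unfold Ph
  rcases le_total b a with h | h
  · exact Ph_sq_aux a b ha hb h
  · have := Ph_sq_aux b a hb ha h
    nlinarith

end FAF
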