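import Pool.Agent.Helper769.FAF.Base
import Pool.Agent.Helper769.FAF.P_Ph_sq
import Pool.Agent.Helper769.FAF.P_Ph_nonneg
import Pool.Agent.Helper769.FAF.P_E_one

set_option autoImplicit false
set_option linter.unusedSectionVars false

open Finset Filter Topology

noncomputable section

namespace FAF

theorem Db_le_sqrt_cr (z : Env) (k : ℕ) : cr z k = 0 ∨ cr z k = 1 := by
  unfold cr
  split_ifs
  · exact Or.inr rfl
  · exact Or.inl rfl

theorem Db_le_sqrt_cr0 (z : Env) (k : ℕ) : 0 ≤ cr z k := by
  rcases Db_le_sqrt_cr z k with h | h <;> rw [h] <;> norm_num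

theorem Db_le_sqrt_cr1 (z : Env) (k : ℕ) : cr z k ≤ 1 := by
  rcases Db_le_sqrt_cr z k with h | h <;> rw [h] <;> norm_num

theorem Db_le_sqrt_term (z : Env) (k : ℕ) (a b : ℝ) (ha : 0 < a) (hb : 0 < b) :
    cr z k * |a - b| ≤ √(cr z k * (a + b)) * √(cr z k * Ph a b) := by
  have h1 := Ph_sq a b ha hb
  have h2 := Ph_nonneg a b ha hb
  rcases Db_le_sqrt_cr z k with h | h <;> rw [h]
  · simp
  · rw [one_mul, one_mul, one_mul, ← Real.sqrt_mul (by positivity), ← Real.sqrt_sq_eq_abs]
    exact Real.sqrt_le_sqrt h1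

theorem Db_le_sqrt (q : ℝ) (h0 : 0 < q) (h1 : q < 1) (μ : Fam) (hp : ∀ n z, 0 < μ.p n z)
    (N k : ℕ) (h : k < N) : Db q μ N k ≤ Real.sqrt (Pb q μ N k) := by
  have h1' : 0 < 1 - q := by linarith
  have ha : ∀ z, 0 < q * μ.p N z := fun z => mul_pos h0 (hp N z)
  have hb : ∀ z, 0 < (1 - q) * μ.p N (up z k true) := fun z => mul_pos h1' (hp N _)
  unfold Db
  refine (Finset.sum_le_sum fun z _ => Db_le_sqrt_term z k _ _ (ha z) (hb z)).trans ?_
  refine (Real.sum_sqrt_mul_sqrt_le _
    (fun z => mul_nonneg (Db_le_sqrt_cr0 z k) (by linarith [ha z, hb z]))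
    (fun z => mul_nonneg (Db_le_sqrt_cr0 z k) (Ph_nonneg _ _ (ha z) (hb z)))).trans ?_
  have hsum : ∑ z ∈ (W N).filter (fun z => z k = false),
      cr z k * (q * μ.p N z + (1 - q) * μ.p N (up z k true)) ≤ 1 := by
    calc ∑ z ∈ (W N).filter (fun z => z k = false),
          cr z k * (q * μ.p N z + (1 - q) * μ.p N (up z k true))
        ≤ ∑ z ∈ (W N).filter (fun z => z k = false), (μ.p N z + μ.p N (up z k true)) := by
          refine Finset.sum_le_sum fun z _ => ?_
          have e1 : q * μ.p N z ≤ μ.p N z := by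
            have := mul_le_mul_of_nonneg_right h1.le (hp N z).le
            linarith
          have e2 : (1 - q) * μ.p N (up z k true) ≤ μ.p N (up z k true) := by
            have := mul_le_mul_of_nonneg_right (by linarith : 1 - q ≤ 1) (hp N (up z k true)).le
            linarith
          calc cr z k * (q * μ.p N z + (1 - q) * μ.p N (up z k true))
              ≤ 1 * (q * μ.p N z + (1 - q) * μ.p N (up z k true)) :=
                mul_le_mul_of_nonneg_right (Db_le_sqrt_cr1 z k) (by linarith [ha z, hb z])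
            _ ≤ _ := by linarith
      _ = ∑ z ∈ W N, μ.p N z := (sum_split N k h (μ.p N)).symm
      _ = 1 := by
          have := E_one μ N
          unfold Fam.E at this
          simpa using this
  have h3 : √(∑ z ∈ (W N).filter (fun z => z k = false),
      cr z k * (q * μ.p N z + (1 - q) * μ.p N (up z k true))) ≤ 1 := by
    calc √_ ≤ √1 := Real.sqrt_le_sqrt hsum
      _ = 1 := Real.sqrt_one
  calc _ ≤ 1 * √(∑ z ∈ (W N).filter (fun z => z k = false),
        cr z k * Ph (q * μ.p N z) ((1 - q) * μ.p N (up z k true))) :=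
        mul_le_mul_of_nonneg_right h3 (Real.sqrt_nonneg _)
    _ = _ := by rw [one_mul]; rfl

end FAF
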