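import Pool.Agent.Helper769.FAF.Base

set_option autoImplicit false
set_option linter.unusedSectionVars false

open Finset Filter Topology

noncomputable section

namespace FAF

theorem Db_nonneg (q : ℝ) (μ : Fam) (N k : ℕ) : 0 ≤ Db q μ N k := by
  unfold Db
  apply Finset.sum_nonneg
  intro z _
  apply mul_nonneg
  · unfold cr
    split_ifs <;> norm_num
  · exact abs_nonneg _

end FAF
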