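import Pool.Agent.Helper769.FAF.Base

set_option autoImplicit false
set_option linter.unusedSectionVars false

open Finset Filter Topology

noncomputable section

namespace FAF

theorem Ph_add_aux (a b c d : ℝ) (ha : 0 < a) (hb : 0 < b) (hc : 0 < c) (hd : 0 < d) :
    (a + c) * (Real.log (a + c) - Real.log (b + d)) ≤
      a * (Real.log a - Real.log b) + c * (Real.log c - Real.log d) := by
  have hR : 0 < (a + c) / (b + d) := by positivity
  have hlR : Real.log ((a + c) / (b + d)) = Real.log (a + c) - Real.log (b + d) :=
    Real.log_div (by positivity) (by positivity)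
  obtain ⟨R, hRd⟩ : ∃ R, R = (a + c) / (b + d) := ⟨_, rfl⟩
  rw [← hRd] at hR hlR
  have h1 : Real.log (b * R / a) = Real.log b + Real.log R - Real.log a := by
    rw [Real.log_div (by positivity) ha.ne', Real.log_mul hb.ne' hR.ne']
  have h2 : Real.log (d * R / c) = Real.log d + Real.log R - Real.log c := by
    rw [Real.log_div (by positivity) hc.ne', Real.log_mul hd.ne' hR.ne']
  have h3 : Real.log (b * R / a) ≤ b * R / a - 1 := Real.log_le_sub_one_of_pos (by positivity)
  have h4 : Real.log (d * R / c) ≤ d * R / c - 1 := Real.log_le_sub_one_of_pos (by positivity)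
  have h5 : a * Real.log (b * R / a) ≤ b * R - a := by
    have := mul_le_mul_of_nonneg_left h3 ha.le
    have e : a * (b * R / a - 1) = b * R - a := by field_simp
    linarith
  have h6 : c * Real.log (d * R / c) ≤ d * R - c := by
    have := mul_le_mul_of_nonneg_left h4 hc.le
    have e : c * (d * R / c - 1) = d * R - c := by field_simp
    linarith
  have h7 : (b + d) * R = a + c := by
    rw [hRd]
    field_simp
  rw [h1] at h5
  rw [h2] at h6
  rw [← hlR]
  nlinarith

/-- joint convexity and homogeneity (log-sum inequality) -/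
theorem Ph_add (a b c d : ℝ) (ha : 0 < a) (hb : 0 < b) (hc : 0 < c) (hd : 0 < d) :
    Ph (a + c) (b + d) ≤ Ph a b + Ph c d := by
  have h1 := Ph_add_aux a b c d ha hb hc hd
  have h2 := Ph_add_aux b a d c hb ha hd hc
  unfold Ph
  nlinarith

end FAF
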