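import Pool.Agent.Helper769.FAF.Base
import Pool.Agent.Helper769.FAF.P_Ph_add
import Pool.Agent.Helper769.FAF.P_Ph_nonneg

set_option autoImplicit false
set_option linter.unusedSectionVars false

open Finset Filter Topology

noncomputable section

namespace FAF

theorem Pb_mono_comm (w : Env) (N k : ℕ) (b c : Bool) (h : k ≠ N) :
    up (up w N b) k c = up (up w k c) N b := by
  funext j
  unfold up
  by_cases h1 : j = k
  · subst h1
    simp [h]
  · simp [h1]

theorem Pb_mono_cr (w : Env) (N k : ℕ) (b : Bool) (h : k + 2 ≤ N) :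
    cr (up w N b) k = cr w k := by
  unfold cr up
  have h1 : k - 1 ≠ N := by omega
  have h2 : k + 1 ≠ N := by omega
  simp [h1, h2]

theorem Pb_mono (q : ℝ) (h0 : 0 < q) (h1 : q < 1) (μ : Fam) (hp : ∀ n z, 0 < μ.p n z)
    (N k : ℕ) (h : k + 2 ≤ N) : Pb q μ N k ≤ Pb q μ (N + 1) k := by
  unfold Pb
  rw [Finset.sum_filter, Finset.sum_filter, sum_succ]
  apply Finset.sum_le_sum
  intro w _
  have hkN : k ≠ N := by omega
  have e : ∀ b, (up w N b) k = w k := by
    intro b
    simp [up, hkN]
  rw [e, e]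
  by_cases hw : w k = false
  · rw [if_pos hw, if_pos hw, if_pos hw]
    rw [Pb_mono_cr w N k false h, Pb_mono_cr w N k true h, ← mul_add]
    have hcr : 0 ≤ cr w k := by
      unfold cr
      split_ifs <;> norm_num
    apply mul_le_mul_of_nonneg_left _ hcr
    rw [Pb_mono_comm w N k false true hkN, Pb_mono_comm w N k true true hkN,
      μ.con N w, μ.con N (up w k true), mul_add, mul_add]
    have hq : 0 < 1 - q := by linarith
    exact Ph_add _ _ _ _ (mul_pos h0 (hp _ _)) (mul_pos hq (hp _ _)) (mul_pos h0 (hp _ _))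
      (mul_pos hq (hp _ _))
  · rw [if_neg hw, if_neg hw, if_neg hw, add_zero]

end FAF
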