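import Pool.Agent.Helper769.FAF.Base
import Pool.Agent.Helper769.FAF.P_Ph_nonneg

set_option autoImplicit false
set_option linter.unusedSectionVars false

open Finset Filter Topology

noncomputable section

namespace FAF

theorem Pb_nonneg (q : ℝ) (h0 : 0 < q) (h1 : q < 1) (μ : Fam) (hp : ∀ n z, 0 < μ.p n z)
    (N k : ℕ) : 0 ≤ Pb q μ N k := by
  unfold Pb
  refine Finset.sum_nonneg fun z _ => mul_nonneg ?_ ?_
  · unfold cr
    split_ifs
    · exact zero_le_one
    · exact le_rfl
  · exact Ph_nonneg _ _ (mul_pos h0 (hp _ _)) (mul_pos (by linarith) (hp _ _))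

end FAF
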