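import Pool.Agent.Helper769.FAF.Base
import Pool.Agent.Helper769.FAF.P_Ph_nonneg

set_option autoImplicit false
set_option linter.unusedSectionVars false

open Finset Filter Topology

noncomputable section

namespace FAF

theorem Pf_nonneg (q : ℝ) (h0 : 0 < q) (h1 : q < 1) (μ : Fam) (hp : ∀ n z, 0 < μ.p n z)
    (n : ℕ) : 0 ≤ Pf q μ n := by
  unfold Pf
  refine Finset.sum_nonneg fun z _ => Ph_nonneg _ _ (mul_pos h0 (hp _ _))
    (mul_pos (by linarith) (hp _ _))

end FAF
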