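import Pool.Agent.Helper769.FAF.Base
import Pool.Agent.Helper769.FAF.P_E_one

set_option autoImplicit false
set_option linter.unusedSectionVars false

open Finset Filter Topology

noncomputable section

namespace FAF

theorem E_al_nonneg_log (x y : ℝ) (hx : 0 < x) (hy : 0 < y) :
    x - y ≤ x * (Real.log x - Real.log y) := by
  have h1 := Real.log_le_sub_one_of_pos (div_pos hy hx)
  rw [Real.log_div hy.ne' hx.ne'] at h1
  have h2 := mul_le_mul_of_nonneg_left h1 hx.le
  have h3 : x * (y / x - 1) = y - x := by field_simp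
  rw [h3] at h2
  linarith

theorem E_al_nonneg_term (q : ℝ) (μ : Fam) (hp : ∀ n z, 0 < μ.p n z) (n : ℕ) (z : Env) (b : Bool)
    (hb : 0 < rb q b) :
    μ.p (n + 1) (up z n b) - μ.p n z * rb q b ≤ μ.p (n + 1) (up z n b) * al q μ n (up z n b) := by
  have h1 : μ.p n (up z n b) = μ.p n z := by
    apply μ.dep n
    intro i hi
    unfold up
    rw [if_neg (by omega)]
  have h2 : (up z n b) n = b := by
    unfold up
    rw [if_pos rfl]
  unfold al
  rw [h1, h2]
  have h3 := E_al_nonneg_log (μ.p (n + 1) (up z n b)) (μ.p n z * rb q b) (hp _ _)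
    (mul_pos (hp _ _) hb)
  rw [Real.log_mul (hp n z).ne' hb.ne'] at h3
  have h4 : Real.log (μ.p (n + 1) (up z n b)) - Real.log (μ.p n z) - Real.log (rb q b) =
      Real.log (μ.p (n + 1) (up z n b)) - (Real.log (μ.p n z) + Real.log (rb q b)) := by ring
  rw [h4]
  exact h3

theorem E_al_nonneg (q : ℝ) (h0 : 0 < q) (h1 : q < 1) (μ : Fam) (hp : ∀ n z, 0 < μ.p n z)
    (n : ℕ) : 0 ≤ μ.E (n + 1) (al q μ n) := by
  unfold Fam.E
  rw [sum_succ]
  apply Finset.sum_nonneg
  intro z _
  have hf : 0 < rb q false := by unfold rb; simp; linarith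
  have ht : 0 < rb q true := by unfold rb; simp; exact h0
  have e1 := E_al_nonneg_term q μ hp n z false hf
  have e2 := E_al_nonneg_term q μ hp n z true ht
  have e3 := μ.con n z
  have e4 : rb q false + rb q true = 1 := by unfold rb; simp
  have e5 : μ.p n z * rb q false + μ.p n z * rb q true = μ.p n z := by
    rw [← mul_add, e4, mul_one]
  linarith

end FAF
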