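import Pool.Agent.Helper769.FAF.Base

set_option autoImplicit false
set_option linter.unusedSectionVars false

open Finset Filter Topology

noncomputable section

namespace FAF

/-- consistency: the expectation of a function of the first `n` coordinates does not depend on the level -/
theorem E_lift (μ : Fam) (n m : ℕ) (h : n ≤ m) (G : Env → ℝ) (hG : Dep n G) : μ.E m G = μ.E n G := by
  induction m, h using Nat.le_induction with
  | base => rfl
  | succ m hm ih =>
    rw [← ih]
    unfold Fam.E
    rw [sum_succ]
    refine Finset.sum_congr rfl fun z _ => ?_
    have h1 : ∀ b, G (up z m b) = G z := by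
      intro b
      refine hG _ _ (fun i hi => ?_)
      have h2 : i ≠ m := by omega
      exact if_neg h2
    rw [h1, h1, μ.con m z]
    ring

end FAF
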