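import Pool.Agent.Helper769.FAF.Base
import Pool.Agent.Helper769.FAF.P_E_one
import Pool.Agent.Helper769.FAF.P_Ph_nonneg
import Pool.Agent.Helper769.FAF.P_E_lift

set_option autoImplicit false
set_option linter.unusedSectionVars false

open Finset Filter Topology

noncomputable section

namespace FAF

theorem Tb_le_sum (n : ℕ) (H : Env → ℝ) : ∑ z ∈ W (n + 2), H z = ∑ z ∈ W n,
    ((H (up (up z n false) (n + 1) false) + H (up (up z n false) (n + 1) true)) +
     (H (up (up z n true) (n + 1) false) + H (up (up z n true) (n + 1) true))) := by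
  rw [sum_succ (n + 1), sum_succ n]

theorem Tb_le_cr (n : ℕ) (z : Env) (b c : Bool) : cr (up (up z n b) (n + 1) c) n =
    if n = 0 ∨ z (n - 1) = true ∨ c = true then 1 else 0 := by
  unfold cr
  by_cases hn : n = 0
  · rw [if_pos (Or.inl hn), if_pos (Or.inl hn)]
  · have h1 : up (up z n b) (n + 1) c (n - 1) = z (n - 1) := by
      unfold up
      rw [if_neg (by omega), if_neg (by omega)]
    have h2 : up (up z n b) (n + 1) c (n + 1) = c := by
      unfold up
      rw [if_pos rfl]
    rw [h1, h2]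

theorem Tb_le_up (n : ℕ) (z : Env) (b c b' : Bool) :
    up (up (up z n b) (n + 1) c) n b' = up (up z n b') (n + 1) c := by
  funext j
  unfold up
  by_cases h1 : j = n
  · subst h1
    rw [if_pos rfl, if_neg (by omega), if_pos rfl]
  · rw [if_neg h1]
    by_cases h2 : j = n + 1
    · rw [if_pos h2, if_pos h2]
    · rw [if_neg h2, if_neg h2, if_neg h1, if_neg h1]

theorem Tb_le_rho_dep (q : ℝ) (n : ℕ) (z w : Env) (h : ∀ i < n, z i = w i) :
    rho q n z = rho q n w := by
  unfold rho
  refine Finset.prod_congr rfl fun k hk => ?_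
  rw [h k (Finset.mem_range.1 hk)]

theorem Tb_le_lf (q : ℝ) (μ : Fam) (n : ℕ) (z : Env) (b c : Bool) :
    lf q μ (n + 1) (up (up z n b) (n + 1) c) = lf q μ (n + 1) (up z n b) := by
  have h : ∀ i < n + 1, up (up z n b) (n + 1) c i = up z n b i := by
    intro i hi
    show (if i = n + 1 then c else up z n b i) = up z n b i
    rw [if_neg (by omega)]
  unfold lf
  rw [μ.dep (n + 1) _ _ h, Tb_le_rho_dep q (n + 1) _ _ h]

theorem Tb_le_rho_pos (q : ℝ) (h0 : 0 < q) (h1 : q < 1) (n : ℕ) (z : Env) : 0 < rho q n z := by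
  unfold rho
  refine Finset.prod_pos fun k _ => ?_
  unfold rb
  split_ifs
  · exact h0
  · linarith

theorem Tb_le_rho_up (q : ℝ) (n : ℕ) (z : Env) (b : Bool) :
    rho q (n + 1) (up z n b) = rho q n z * rb q b := by
  unfold rho
  rw [Finset.prod_range_succ]
  congr 1
  · refine Finset.prod_congr rfl fun k hk => ?_
    have hk' := Finset.mem_range.1 hk
    unfold up
    rw [if_neg (by omega)]
  · unfold up
    rw [if_pos rfl]

theorem Tb_le_diff (q : ℝ) (h0 : 0 < q) (h1 : q < 1) (μ : Fam) (hp : ∀ n z, 0 < μ.p n z) (n : ℕ)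
    (z : Env) : lf q μ (n + 1) (up z n true) - lf q μ (n + 1) (up z n false) =
      Real.log ((1 - q) * μ.p (n + 1) (up z n true)) - Real.log (q * μ.p (n + 1) (up z n false)) := by
  unfold lf
  rw [Tb_le_rho_up, Tb_le_rho_up]
  have hr := Tb_le_rho_pos q h0 h1 n z
  have e1 : rb q true = q := rfl
  have e2 : rb q false = 1 - q := rfl
  rw [e1, e2, Real.log_mul hr.ne' h0.ne', Real.log_mul hr.ne' (sub_pos.2 h1).ne',
    Real.log_mul (sub_pos.2 h1).ne' (hp _ _).ne', Real.log_mul h0.ne' (hp _ _).ne']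
  ring

theorem Tb_le_scal (P d : ℝ) (hP : 0 < P) (hd : 0 < d) :
    d * (Real.log P - Real.log d) ≤ Real.sqrt P * Real.sqrt d := by
  have hsP : 0 < Real.sqrt P := Real.sqrt_pos.2 hP
  have hsd : 0 < Real.sqrt d := Real.sqrt_pos.2 hd
  have hy : 0 < Real.sqrt P / Real.sqrt d := div_pos hsP hsd
  have h1 : Real.log P - Real.log d = 2 * Real.log (Real.sqrt P / Real.sqrt d) := by
    rw [Real.log_div hsP.ne' hsd.ne', Real.log_sqrt hP.le, Real.log_sqrt hd.le]
    ring
  have h2 : Real.log (Real.sqrt P / Real.sqrt d) ≤ (Real.sqrt P / Real.sqrt d) / 2 := by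
    have h3 := Real.log_le_sub_one_of_pos (half_pos hy)
    rw [Real.log_div hy.ne' two_ne_zero] at h3
    have h4 : Real.log 2 < 1 := by
      have := Real.log_two_lt_d9
      linarith
    linarith
  rw [h1]
  have h5 : Real.sqrt d * Real.sqrt d = d := Real.mul_self_sqrt hd.le
  calc d * (2 * Real.log (Real.sqrt P / Real.sqrt d))
      ≤ d * (2 * ((Real.sqrt P / Real.sqrt d) / 2)) :=
        mul_le_mul_of_nonneg_left (by linarith) hd.le
    _ = Real.sqrt P * Real.sqrt d := by
        have h6 : d * (2 * ((Real.sqrt P / Real.sqrt d) / 2)) =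
          (d / Real.sqrt d) * Real.sqrt P := by ring
        rw [h6]
        have h7 : d / Real.sqrt d = Real.sqrt d := by
          rw [div_eq_iff hsd.ne', h5]
        rw [h7]
        ring

theorem Tb_le_term (q p00 p01 p10 p11 : ℝ) (h0 : 0 < q) (h1 : q < 1) (h00 : 0 < p00)
    (h01 : 0 < p01) (h10 : 0 < p10) (h11 : 0 < p11) (K δ : ℝ) (hK : K = 0 ∨ K = 1)
    (hδ : δ = K * (q * p00 - (1 - q) * p10) + (q * p01 - (1 - q) * p11)) :
    (Real.log ((1 - q) * (p10 + p11)) - Real.log (q * (p00 + p01))) * δ ≤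
      Real.sqrt ((p00 + p01) + (p10 + p11)) * Real.sqrt |δ| := by
  have hq : 0 < 1 - q := sub_pos.2 h1
  have ha : 0 < q * (p00 + p01) := by positivity
  have hb : 0 < (1 - q) * (p10 + p11) := by positivity
  have hP : 0 < (p00 + p01) + (p10 + p11) := by positivity
  have haP : q * (p00 + p01) ≤ (p00 + p01) + (p10 + p11) := by nlinarith
  have hbP : (1 - q) * (p10 + p11) ≤ (p00 + p01) + (p10 + p11) := by nlinarith
  rcases hK with hK | hK
  · rw [hK, zero_mul, zero_add] at hδ
    rcases lt_trichotomy δ 0 with hd | hd | hd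
    · have hle : -δ ≤ (1 - q) * (p10 + p11) := by nlinarith
      have h2 := Tb_le_scal _ (-δ) hP (neg_pos.2 hd)
      rw [abs_of_neg hd]
      refine le_trans ?_ h2
      have h3 : Real.log (q * (p00 + p01)) ≤ Real.log ((p00 + p01) + (p10 + p11)) :=
        Real.log_le_log ha haP
      have h4 : Real.log (-δ) ≤ Real.log ((1 - q) * (p10 + p11)) :=
        Real.log_le_log (neg_pos.2 hd) hle
      have h5 : 0 < -δ := neg_pos.2 hd
      nlinarith
    · rw [hd]
      simp
    · have hle : δ ≤ q * (p00 + p01) := by nlinarith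
      have h2 := Tb_le_scal _ δ hP hd
      rw [abs_of_pos hd]
      refine le_trans ?_ h2
      have h3 : Real.log ((1 - q) * (p10 + p11)) ≤ Real.log ((p00 + p01) + (p10 + p11)) :=
        Real.log_le_log hb hbP
      have h4 : Real.log δ ≤ Real.log (q * (p00 + p01)) :=
        Real.log_le_log hd hle
      nlinarith
  · have h2 : δ = q * (p00 + p01) - (1 - q) * (p10 + p11) := by
      rw [hδ, hK]
      ring
    have h3 := Ph_nonneg _ _ ha hb
    unfold Ph at h3
    have h4 : (Real.log ((1 - q) * (p10 + p11)) - Real.log (q * (p00 + p01))) * δ ≤ 0 := by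
      rw [h2]
      linarith
    exact h4.trans (by positivity)

theorem Tb_le_abs (q p00 p01 p10 p11 K : ℝ) (hK : K = 0 ∨ K = 1) :
    |K * (q * p00 - (1 - q) * p10) + (q * p01 - (1 - q) * p11)| ≤
      K * |q * p00 - (1 - q) * p10| + |q * p01 - (1 - q) * p11| := by
  refine (abs_add_le _ _).trans ?_
  rw [abs_mul]
  rcases hK with hK | hK
  · rw [hK, abs_zero]
  · rw [hK, abs_one]

theorem Tb_le (q : ℝ) (h0 : 0 < q) (h1 : q < 1) (μ : Fam) (hp : ∀ n z, 0 < μ.p n z) (n : ℕ) :
    Tb q μ n ≤ (1 + Real.log (1 / q) + Real.log (1 / (1 - q))) * Real.sqrt (Db q μ (n + 2) n) := by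
  set K : Env → ℝ := fun z => if n = 0 ∨ z (n - 1) = true ∨ (false : Bool) = true then 1 else 0
    with hKdef
  have hK01 : ∀ z, K z = 0 ∨ K z = 1 := by
    intro z
    by_cases h : n = 0 ∨ z (n - 1) = true ∨ (false : Bool) = true
    · right
      exact if_pos h
    · left
      exact if_neg h
  have hcr0 : ∀ (z : Env) (b : Bool), cr (up (up z n b) (n + 1) false) n = K z :=
    fun z b => Tb_le_cr n z b false
  have hcr1 : ∀ (z : Env) (b : Bool), cr (up (up z n b) (n + 1) true) n = 1 := by
    intro z b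
    rw [Tb_le_cr, if_pos (Or.inr (Or.inr rfl))]
  set r : Env → Bool → Bool → ℝ := fun z b c => μ.p (n + 2) (up (up z n b) (n + 1) c) with hr
  set δ : Env → ℝ := fun z => K z * (q * r z false false - (1 - q) * r z true false) +
    (q * r z false true - (1 - q) * r z true true) with hδ
  have hcon : ∀ z b, μ.p (n + 1) (up z n b) = r z b false + r z b true :=
    fun z b => μ.con (n + 1) (up z n b)
  have hcon2 : ∀ z, μ.p n z = (r z false false + r z false true) +
      (r z true false + r z true true) := by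
    intro z
    rw [μ.con n z, hcon, hcon]
  have hTb : Tb q μ n = ∑ z ∈ W n, (Real.log ((1 - q) * (r z true false + r z true true)) -
      Real.log (q * (r z false false + r z false true))) * δ z := by
    unfold Tb Fam.E
    rw [Tb_le_sum]
    refine Finset.sum_congr rfl fun z _ => ?_
    simp only [hcr0, hcr1, Tb_le_up, Tb_le_lf]
    have h2 := Tb_le_diff q h0 h1 μ hp n z
    rw [hcon, hcon] at h2
    rw [← h2]
    simp only [hδ, hr]
    ring
  have hDb : Db q μ (n + 2) n = ∑ z ∈ W n, (K z * |q * r z false false - (1 - q) * r z true false|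
      + |q * r z false true - (1 - q) * r z true true|) := by
    unfold Db
    rw [Finset.sum_filter, Tb_le_sum]
    refine Finset.sum_congr rfl fun z _ => ?_
    have e : ∀ b c, up (up z n b) (n + 1) c n = b := by
      intro b c
      unfold up
      rw [if_neg (by omega), if_pos rfl]
    simp only [e, hcr0, hcr1, Tb_le_up, hr, if_true, one_mul]
    simp
  have hδle : ∑ z ∈ W n, |δ z| ≤ Db q μ (n + 2) n := by
    rw [hDb]
    exact Finset.sum_le_sum fun z _ => Tb_le_abs q _ _ _ _ (K z) (hK01 z)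
  have hone : ∑ z ∈ W n, μ.p n z = 1 := by
    have h := E_one μ n
    unfold Fam.E at h
    simpa using h
  have hmain : Tb q μ n ≤ Real.sqrt (Db q μ (n + 2) n) := by
    rw [hTb]
    calc _ ≤ ∑ z ∈ W n, Real.sqrt (μ.p n z) * Real.sqrt |δ z| := by
          refine Finset.sum_le_sum fun z _ => ?_
          rw [hcon2 z]
          exact Tb_le_term q _ _ _ _ h0 h1 (hp _ _) (hp _ _) (hp _ _) (hp _ _) (K z) (δ z)
            (hK01 z) rfl
      _ ≤ Real.sqrt (∑ z ∈ W n, μ.p n z) * Real.sqrt (∑ z ∈ W n, |δ z|) :=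
          Real.sum_sqrt_mul_sqrt_le _ (fun z => μ.nn n z) (fun z => abs_nonneg _)
      _ ≤ Real.sqrt (Db q μ (n + 2) n) := by
          rw [hone, Real.sqrt_one, one_mul]
          exact Real.sqrt_le_sqrt hδle
  have hl1 : 0 ≤ Real.log (1 / q) := Real.log_nonneg (by rw [le_div_iff₀ h0]; linarith)
  have hl2 : 0 ≤ Real.log (1 / (1 - q)) :=
    Real.log_nonneg (by rw [le_div_iff₀ (sub_pos.2 h1)]; linarith)
  have hs := Real.sqrt_nonneg (Db q μ (n + 2) n)
  nlinarith

end FAF
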