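import Pool.Agent.Helper769.FAF.Base

set_option autoImplicit false
set_option linter.unusedSectionVars false

open Finset Filter Topology

noncomputable section

namespace FAF

theorem al_le_mono (μ : Fam) (n : ℕ) (z : Env) : μ.p (n + 1) z ≤ μ.p n z := by
  have h1 : μ.p (n + 1) z = μ.p (n + 1) (up z n (z n)) := by
    apply μ.dep (n + 1)
    intro i _
    unfold up
    split_ifs with h
    · rw [h]
    · rfl
  rw [μ.con n z, h1]
  have h2 := μ.nn (n + 1) (up z n false)
  have h3 := μ.nn (n + 1) (up z n true)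
  cases z n <;> linarith

theorem al_le (q : ℝ) (h0 : 0 < q) (h1 : q < 1) (μ : Fam) (hp : ∀ n z, 0 < μ.p n z)
    (n : ℕ) (z : Env) : al q μ n z ≤ Real.log (1 / q) + Real.log (1 / (1 - q)) := by
  have a1 : Real.log (μ.p (n + 1) z) ≤ Real.log (μ.p n z) :=
    Real.log_le_log (hp _ _) (al_le_mono μ n z)
  have a2 : Real.log (1 / q) = - Real.log q := by rw [one_div, Real.log_inv]
  have a3 : Real.log (1 / (1 - q)) = - Real.log (1 - q) := by rw [one_div, Real.log_inv]
  have a4 : Real.log q ≤ 0 := Real.log_nonpos h0.le h1.le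
  have a5 : Real.log (1 - q) ≤ 0 := Real.log_nonpos (by linarith) (by linarith)
  unfold al rb
  rw [a2, a3]
  split_ifs <;> linarith

end FAF
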