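import Pool.Agent.Helper769.FAF.Base

set_option autoImplicit false
set_option linter.unusedSectionVars false

open Finset Filter Topology

noncomputable section

namespace FAF

theorem lf_dep (q : ℝ) (μ : Fam) (n : ℕ) : Dep n (lf q μ n) := by
  intro z w h
  unfold lf rho
  rw [μ.dep n z w h]
  have : ∏ k ∈ range n, rb q (z k) = ∏ k ∈ range n, rb q (w k) := by
    apply Finset.prod_congr rfl
    intro k hk
    rw [h k (Finset.mem_range.1 hk)]
  rw [this]

end FAF
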