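import Pool.Agent.Helper769.FAF.Base
import Pool.Agent.Helper769.FAF.P_E_lift
import Pool.Agent.Helper769.FAF.P_lf_dep

set_option autoImplicit false
set_option linter.unusedSectionVars false

open Finset Filter Topology

noncomputable section

namespace FAF

theorem bulk_rho_pos (q : ℝ) (h0 : 0 < q) (h1 : q < 1) (n : ℕ) (z : Env) : 0 < rho q n z := by
  unfold rho
  refine Finset.prod_pos fun k _ => ?_
  unfold rb
  split_ifs
  · exact h0
  · linarith

theorem bulk_rho (q : ℝ) (n k : ℕ) (hk : k < n) (z : Env) (hz : z k = false) :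
    rho q n (up z k true) * (1 - q) = rho q n z * q := by
  unfold rho
  have hmem : k ∈ range n := Finset.mem_range.2 hk
  rw [← Finset.mul_prod_erase _ _ hmem, ← Finset.mul_prod_erase (range n) (fun j => rb q (z j)) hmem]
  have e1 : rb q (up z k true k) = q := by simp [rb, up]
  have e2 : rb q (z k) = 1 - q := by simp [rb, hz]
  have e3 : ∏ x ∈ (range n).erase k, rb q (up z k true x) = ∏ x ∈ (range n).erase k, rb q (z x) := by
    refine Finset.prod_congr rfl fun j hj => ?_
    have hjk : j ≠ k := Finset.ne_of_mem_erase hj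
    simp [up, hjk]
  rw [e1, e2, e3]
  ring

theorem bulk_lf (q : ℝ) (h0 : 0 < q) (h1 : q < 1) (μ : Fam) (hp : ∀ n z, 0 < μ.p n z) (n k : ℕ)
    (hk : k < n) (z : Env) (hz : z k = false) :
    lf q μ n (up z k true) - lf q μ n z =
      Real.log ((1 - q) * μ.p n (up z k true)) - Real.log (q * μ.p n z) := by
  have h2 := congrArg Real.log (bulk_rho q n k hk z hz)
  have hq : (0:ℝ) < 1 - q := by linarith
  rw [Real.log_mul (bulk_rho_pos q h0 h1 n _).ne' hq.ne',
    Real.log_mul (bulk_rho_pos q h0 h1 n _).ne' h0.ne'] at h2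
  rw [Real.log_mul hq.ne' (hp n _).ne', Real.log_mul h0.ne' (hp n _).ne']
  unfold lf
  linarith

theorem bulk_up_self (z : Env) (k : ℕ) (hz : z k = false) : up z k false = z := by
  funext j
  unfold up
  split_ifs with h
  · rw [h, hz]
  · rfl

theorem bulk_up_up (z : Env) (k : ℕ) (b c : Bool) : up (up z k b) k c = up z k c := by
  funext j
  unfold up
  split_ifs <;> rfl

theorem bulk_cr (z : Env) (k : ℕ) (b : Bool) : cr (up z k b) k = cr z k := by
  unfold cr
  by_cases hk : k = 0
  · simp [hk]
  · have e1 : up z k b (k - 1) = z (k - 1) := by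
      unfold up
      rw [if_neg (by omega)]
    have e2 : up z k b (k + 1) = z (k + 1) := by
      unfold up
      rw [if_neg (by omega)]
    rw [e1, e2]

theorem bulk (q : ℝ) (h0 : 0 < q) (h1 : q < 1) (μ : Fam) (hp : ∀ n z, 0 < μ.p n z) (n k : ℕ)
    (hk : k < n) :
    μ.E (n + 2) (fun z => cr z k * (q * lf q μ (n + 1) (up z k true)
      + (1 - q) * lf q μ (n + 1) (up z k false) - lf q μ (n + 1) z)) = - Pb q μ (n + 1) k := by
  have hdep : Dep (n + 1) (fun z => cr z k * (q * lf q μ (n + 1) (up z k true)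
      + (1 - q) * lf q μ (n + 1) (up z k false) - lf q μ (n + 1) z)) := by
    intro z w hzw
    have e1 : cr z k = cr w k := by
      unfold cr
      rw [hzw (k - 1) (by omega), hzw (k + 1) (by omega)]
    have e2 : ∀ b, lf q μ (n + 1) (up z k b) = lf q μ (n + 1) (up w k b) := by
      intro b
      refine lf_dep q μ (n + 1) _ _ fun i hi => ?_
      unfold up
      split_ifs
      · rfl
      · exact hzw i hi
    have e3 : lf q μ (n + 1) z = lf q μ (n + 1) w := lf_dep q μ (n + 1) _ _ hzw
    simp only [e1, e2, e3]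
  rw [E_lift μ (n + 1) (n + 2) (by omega) _ hdep]
  unfold Fam.E Pb
  rw [sum_split (n + 1) k (by omega), ← Finset.sum_neg_distrib]
  refine Finset.sum_congr rfl fun z hz => ?_
  have hzk : z k = false := (Finset.mem_filter.1 hz).2
  have h2 := bulk_lf q h0 h1 μ hp (n + 1) k (by omega) z hzk
  simp only [bulk_up_up, bulk_cr, bulk_up_self z k hzk]
  unfold Ph
  have h3 : Real.log (q * μ.p (n + 1) z) - Real.log ((1 - q) * μ.p (n + 1) (up z k true)) =
      -(lf q μ (n + 1) (up z k true) - lf q μ (n + 1) z) := by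
    rw [h2]
    ring
  rw [h3]
  ring

end FAF
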