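import Pool.Agent.Helper769.FAF.Base
import Pool.Agent.Helper769.FAF.P_E_one
import Pool.Agent.Helper769.FAF.P_E_lift
import Pool.Agent.Helper769.FAF.P_lf_dep

set_option autoImplicit false
set_option linter.unusedSectionVars false

open Finset Filter Topology

noncomputable section

namespace FAF

theorem front_rb (q : ℝ) (h0 : 0 < q) (h1 : q < 1) (b : Bool) : 0 < rb q b := by
  unfold rb
  split_ifs <;> linarith

theorem front_rho (q : ℝ) (h0 : 0 < q) (h1 : q < 1) (n : ℕ) (z : Env) : 0 < rho q n z :=
  Finset.prod_pos (fun k _ => front_rb q h0 h1 (z k))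

theorem front_lf (q : ℝ) (h0 : 0 < q) (h1 : q < 1) (μ : Fam) (n : ℕ) (z : Env) :
    lf q μ (n + 1) z = lf q μ n z + al q μ n z := by
  unfold lf al
  have h2 : rho q (n + 1) z = rho q n z * rb q (z n) := by
    unfold rho
    rw [Finset.prod_range_succ]
  rw [h2, Real.log_mul (front_rho q h0 h1 n z).ne' (front_rb q h0 h1 (z n)).ne']
  ring

/-- auxiliary increment -/
def front_D (q : ℝ) (μ : Fam) (n : ℕ) (z : Env) : ℝ :=
  Real.log (μ.p (n + 1) (cons true z)) - Real.log (μ.p n z) - Real.log q

theorem front_lf_cons (q : ℝ) (h0 : 0 < q) (h1 : q < 1) (μ : Fam) (n : ℕ) (z : Env) :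
    lf q μ (n + 1) (cons true z) = lf q μ n z + front_D q μ n z := by
  unfold lf front_D
  have h2 : rho q (n + 1) (cons true z) = rho q n z * q := by
    unfold rho
    rw [Finset.prod_range_succ']
    congr 1
  rw [h2, Real.log_mul (front_rho q h0 h1 n z).ne' h0.ne']
  ring

theorem front_tl_cons (b : Bool) (z : Env) : tl (cons b z) = z := by
  funext k
  simp [tl, cons]

theorem front_cons_tl (z : Env) (h : z 0 = true) : cons true (tl z) = z := by
  funext k
  rcases k with _ | k
  · simp [cons, h]
  · simp [tl, cons]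

theorem front_D_dep (q : ℝ) (μ : Fam) (n : ℕ) : Dep n (front_D q μ n) := by
  intro z w hzw
  unfold front_D
  have h2 : μ.p (n + 1) (cons true z) = μ.p (n + 1) (cons true w) := by
    apply μ.dep
    intro i hi
    unfold cons
    split_ifs with h
    · rfl
    · exact hzw _ (by omega)
  rw [h2, μ.dep n z w hzw]

theorem front_al_dep (q : ℝ) (μ : Fam) (n : ℕ) : Dep (n + 1) (al q μ n) := by
  intro z w hzw
  unfold al
  rw [μ.dep (n + 1) z w hzw, μ.dep n z w (fun i hi => hzw i (by omega)), hzw n (by omega)]

theorem front (q : ℝ) (h0 : 0 < q) (h1 : q < 1) (μ : Fam) (hp : ∀ n z, 0 < μ.p n z) (n : ℕ) :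
    q * μ.E (n + 2) (fun z => lf q μ (n + 1) (cons true z) - lf q μ (n + 1) z)
      + μ.E (n + 2) (fun z => if z 0 = true then
          (1 - q) * (lf q μ (n + 1) (tl z) - lf q μ (n + 1) z) else 0)
    = - Real.log (1 - q) * μ.E 1 (phi q) - Pf q μ n - q * μ.E (n + 1) (al q μ n)
      + (1 - q) * μ.E (n + 2) (fun z => if z 0 = true then al q μ n (tl z) else 0) := by
  have hq1 : 0 < 1 - q := by linarith
  -- first term
  have e1 : μ.E (n + 2) (fun z => lf q μ (n + 1) (cons true z) - lf q μ (n + 1) z) =
      μ.E n (front_D q μ n) - μ.E (n + 1) (al q μ n) := by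
    have h2 : (fun z => lf q μ (n + 1) (cons true z) - lf q μ (n + 1) z) =
        fun z => front_D q μ n z - al q μ n z := by
      funext z
      rw [front_lf_cons q h0 h1, front_lf q h0 h1]
      ring
    rw [h2, E_sub, E_lift μ n (n + 2) (by omega) (front_D q μ n) (front_D_dep q μ n),
      E_lift μ (n + 1) (n + 2) (by omega) (al q μ n) (front_al_dep q μ n)]
  -- second term
  have e2 : μ.E (n + 2) (fun z => if z 0 = true then
      (1 - q) * (lf q μ (n + 1) (tl z) - lf q μ (n + 1) z) else 0) =
      (1 - q) * μ.E (n + 2) (fun z => if z 0 = true then al q μ n (tl z) else 0) -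
      (1 - q) * μ.E (n + 2) (fun z => if z 0 = true then front_D q μ n (tl z) else 0) := by
    have h2 : (fun z : Env => if z 0 = true then
        (1 - q) * (lf q μ (n + 1) (tl z) - lf q μ (n + 1) z) else 0) =
        fun z : Env => (1 - q) * (if z 0 = true then al q μ n (tl z) else 0) -
          (1 - q) * (if z 0 = true then front_D q μ n (tl z) else 0) := by
      funext z
      by_cases hz : z 0 = true
      · simp only [hz, if_true]
        have h3 : lf q μ (n + 1) z = lf q μ n (tl z) + front_D q μ n (tl z) := by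
          rw [← front_lf_cons q h0 h1, front_cons_tl z hz]
        rw [h3, front_lf q h0 h1]
        ring
      · simp only [hz]
        simp
    rw [h2, E_sub, E_smul, E_smul]
  have e3 : μ.E (n + 2) (fun z => if z 0 = true then front_D q μ n (tl z) else 0) =
      ∑ τ ∈ W n, μ.p (n + 1) (cons true τ) * front_D q μ n τ := by
    rw [E_lift μ (n + 1) (n + 2) (by omega)]
    · unfold Fam.E
      rw [sum_cons]
      refine Finset.sum_congr rfl (fun τ _ => ?_)
      beta_reduce
      rw [front_tl_cons, front_tl_cons]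
      simp [cons]
    · intro z w hzw
      have h3 : front_D q μ n (tl z) = front_D q μ n (tl w) :=
        front_D_dep q μ n _ _ (fun i hi => hzw (i + 1) (by omega))
      simp only [hzw 0 (by omega), h3]
  have e4 : μ.E 1 (phi q) = q - (1 - q) * ∑ τ ∈ W n, μ.p (n + 1) (cons true τ) := by
    rw [← E_lift μ 1 (n + 1) (by omega) (phi q)]
    · have h2 : μ.E (n + 1) (phi q) = q * μ.E (n + 1) (fun _ => 1) -
          (1 - q) * μ.E (n + 1) (fun z => if z 0 = true then 1 else 0) := by
        rw [← E_smul, ← E_smul, ← E_sub]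
        congr 1
        funext z
        unfold phi
        split_ifs <;> ring
      rw [h2, E_one]
      have h3 : μ.E (n + 1) (fun z => if z 0 = true then (1 : ℝ) else 0) =
          ∑ τ ∈ W n, μ.p (n + 1) (cons true τ) := by
        unfold Fam.E
        rw [sum_cons]
        refine Finset.sum_congr rfl (fun τ _ => ?_)
        simp [cons]
      rw [h3]
      ring
    · intro z w hzw
      unfold phi
      rw [hzw 0 (by omega)]
  have e5 : μ.E n (fun _ => 1) = 1 := E_one μ n
  -- the main identity
  have e6 : q * μ.E n (front_D q μ n) -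
      (1 - q) * ∑ τ ∈ W n, μ.p (n + 1) (cons true τ) * front_D q μ n τ =
      - Pf q μ n - Real.log (1 - q) *
        (q * μ.E n (fun _ => 1) - (1 - q) * ∑ τ ∈ W n, μ.p (n + 1) (cons true τ)) := by
    unfold Fam.E Pf
    rw [Finset.mul_sum, Finset.mul_sum, Finset.mul_sum, Finset.mul_sum, ← Finset.sum_sub_distrib,
      ← Finset.sum_sub_distrib, Finset.mul_sum, ← Finset.sum_neg_distrib, ← Finset.sum_sub_distrib]
    refine Finset.sum_congr rfl (fun τ _ => ?_)
    have ha : Real.log (q * μ.p n τ) = Real.log q + Real.log (μ.p n τ) :=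
      Real.log_mul h0.ne' (hp n τ).ne'
    have hb : Real.log ((1 - q) * μ.p (n + 1) (cons true τ)) =
        Real.log (1 - q) + Real.log (μ.p (n + 1) (cons true τ)) :=
      Real.log_mul hq1.ne' (hp (n + 1) _).ne'
    unfold Ph front_D
    rw [ha, hb]
    ring
  rw [e1, e2, e3, e4]
  rw [e5, mul_one] at e6
  linarith

end FAF
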