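import Pool.Agent.Helper769.FAF.Base
import Pool.Agent.Helper769.FAF.P_front
import Pool.Agent.Helper769.FAF.P_bulk
import Pool.Agent.Helper769.FAF.P_lf_dep
import Pool.Agent.Helper769.FAF.P_E_lift

set_option autoImplicit false
set_option linter.unusedSectionVars false

open Finset Filter Topology

noncomputable section

namespace FAF

theorem ident_E_sum (μ : Fam) (N : ℕ) (s : Finset ℕ) (F : ℕ → Env → ℝ) :
    μ.E N (fun z => ∑ k ∈ s, F k z) = ∑ k ∈ s, μ.E N (F k) := by
  unfold Fam.E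
  simp only [Finset.mul_sum]
  exact Finset.sum_comm

theorem ident (q : ℝ) (h0 : 0 < q) (h1 : q < 1) (μ : Fam) (hI : Inv q μ)
    (hp : ∀ n z, 0 < μ.p n z) (n : ℕ) :
    Pf q μ n + ∑ k ∈ range n, Pb q μ (n + 1) k
      = - Real.log (1 - q) * μ.E 1 (phi q) + Tb q μ n - q * μ.E (n + 1) (al q μ n)
        + (1 - q) * μ.E (n + 2) (fun z => if z 0 = true then al q μ n (tl z) else 0) := by
  have h := hI (n+1) (lf q μ (n+1)) (lf_dep q μ (n+1))
  have hA : μ.E (n+2) (A q (n+1) (lf q μ (n+1)))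
      = q * μ.E (n + 2) (fun z => lf q μ (n + 1) (cons true z) - lf q μ (n + 1) z)
      + μ.E (n + 2) (fun z => if z 0 = true then
          (1 - q) * (lf q μ (n + 1) (tl z) - lf q μ (n + 1) z) else 0)
      + ∑ k ∈ range (n+1), μ.E (n + 2) (fun z => cr z k * (q * lf q μ (n + 1) (up z k true)
        + (1 - q) * lf q μ (n + 1) (up z k false) - lf q μ (n + 1) z)) := by
    rw [← ident_E_sum, ← E_smul, ← E_add, ← E_add]
    rfl
  have hf := front q h0 h1 μ hp n
  have hs : ∑ k ∈ range (n+1), μ.E (n + 2) (fun z => cr z k * (q * lf q μ (n + 1) (up z k true)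
        + (1 - q) * lf q μ (n + 1) (up z k false) - lf q μ (n + 1) z))
      = - ∑ k ∈ range n, Pb q μ (n + 1) k + Tb q μ n := by
    rw [Finset.sum_range_succ, ← Finset.sum_neg_distrib]
    congr 1
    apply Finset.sum_congr rfl
    intro k hk
    exact bulk q h0 h1 μ hp n k (Finset.mem_range.mp hk)
  have h' : μ.E (n+2) (A q (n+1) (lf q μ (n+1))) = 0 := h
  rw [hA, hs, hf] at h'
  linarith

end FAF
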