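import Pool.Agent.Helper769.FAF.Base
import Pool.Agent.Helper769.FAF.P_ident
import Pool.Agent.Helper769.FAF.P_Tb_le
import Pool.Agent.Helper769.FAF.P_Db_le_one
import Pool.Agent.Helper769.FAF.P_al_le
import Pool.Agent.Helper769.FAF.P_E_al_nonneg
import Pool.Agent.Helper769.FAF.P_E_one

set_option autoImplicit false
set_option linter.unusedSectionVars false

open Finset Filter Topology

noncomputable section

namespace FAF

theorem prod_bound (q : ℝ) (h0 : 0 < q) (h1 : q < 1) (μ : Fam) (hI : Inv q μ)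
    (hp : ∀ n z, 0 < μ.p n z) :
    ∃ C : ℝ, ∀ n, Pf q μ n + ∑ k ∈ range n, Pb q μ (n + 1) k ≤ C := by
  have l1 : 0 ≤ Real.log (1 / q) := Real.log_nonneg (by rw [le_div_iff₀ h0]; linarith)
  have l2 : 0 ≤ Real.log (1 / (1 - q)) :=
    Real.log_nonneg (by rw [le_div_iff₀ (by linarith)]; linarith)
  refine ⟨- Real.log (1 - q) * μ.E 1 (phi q) + (1 + Real.log (1 / q) + Real.log (1 / (1 - q)))
    + (1 - q) * (Real.log (1 / q) + Real.log (1 / (1 - q))), fun n => ?_⟩
  rw [ident q h0 h1 μ hI hp n]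
  have e1 := Tb_le q h0 h1 μ hp n
  have e2 : Real.sqrt (Db q μ (n + 2) n) ≤ 1 := by
    rw [Real.sqrt_le_one]
    exact Db_le_one q h0 h1 μ (n + 2) n (by omega)
  have e3 : (1 + Real.log (1 / q) + Real.log (1 / (1 - q))) * Real.sqrt (Db q μ (n + 2) n) ≤
      (1 + Real.log (1 / q) + Real.log (1 / (1 - q))) * 1 :=
    mul_le_mul_of_nonneg_left e2 (by linarith)
  have e4 := mul_nonneg h0.le (E_al_nonneg q h0 h1 μ hp n)
  have e5 : μ.E (n + 2) (fun z => if z 0 = true then al q μ n (tl z) else 0) ≤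
      Real.log (1 / q) + Real.log (1 / (1 - q)) := by
    have h2 := E_mono μ (n + 2) (fun z => if z 0 = true then al q μ n (tl z) else 0)
      (fun z => (Real.log (1 / q) + Real.log (1 / (1 - q))) * 1) (by
        intro z _
        show (if z 0 = true then al q μ n (tl z) else 0) ≤ _
        split_ifs
        · rw [mul_one]
          exact al_le q h0 h1 μ hp n (tl z)
        · linarith)
    rw [E_smul μ (n + 2) _ (fun _ => 1), E_one, mul_one] at h2
    exact h2
  have e6 := mul_le_mul_of_nonneg_left e5 (by linarith : (0 : ℝ) ≤ 1 - q)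
  linarith

end FAF
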