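import Pool.Agent.Helper769.FAF.Base
import Pool.Agent.Helper769.FAF.P_prod_bound
import Pool.Agent.Helper769.FAF.P_Pb_mono
import Pool.Agent.Helper769.FAF.P_Pb_nonneg
import Pool.Agent.Helper769.FAF.P_Pf_nonneg
import Pool.Agent.Helper769.FAF.P_Db_le_sqrt

set_option autoImplicit false
set_option linter.unusedSectionVars false

open Finset Filter Topology

noncomputable section

namespace FAF

theorem Db_unif (q : ℝ) (h0 : 0 < q) (h1 : q < 1) (μ : Fam) (hI : Inv q μ)
    (hp : ∀ n z, 0 < μ.p n z) :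
    ∃ d : ℕ → ℝ, Tendsto d atTop (𝓝 0) ∧ ∀ k N, k + 2 ≤ N → Db q μ N k ≤ d k := by
  obtain ⟨C, hC⟩ := prod_bound q h0 h1 μ hI hp
  have hsum : ∀ n, ∑ k ∈ range n, Pb q μ (n + 1) k ≤ C := fun n => by
    have h2 := hC n
    have h3 := Pf_nonneg q h0 h1 μ hp n
    linarith
  set a : ℕ → ℕ → ℝ := fun k j => Pb q μ (k + 2 + j) k with ha
  have hmono : ∀ k, Monotone (a k) := fun k =>
    monotone_nat_of_le_succ fun j => Pb_mono q h0 h1 μ hp (k + 2 + j) k (by omega)
  have hb : ∀ k j, a k j ≤ C := by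
    intro k j
    have h2 := hsum (k + 1 + j)
    have h3 : Pb q μ (k + 1 + j + 1) k ≤ ∑ i ∈ range (k + 1 + j), Pb q μ (k + 1 + j + 1) i :=
      Finset.single_le_sum (f := fun i => Pb q μ (k + 1 + j + 1) i)
        (fun i _ => Pb_nonneg q h0 h1 μ hp _ i) (Finset.mem_range.2 (by omega))
    have h4 : a k j = Pb q μ (k + 1 + j + 1) k := by
      show Pb q μ (k + 2 + j) k = _
      congr 1
      omega
    rw [h4]
    linarith
  have hbdd : ∀ k, BddAbove (Set.range (a k)) := fun k => ⟨C, by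
    rintro _ ⟨j, rfl⟩
    exact hb k j⟩
  have hnn : ∀ k, 0 ≤ ⨆ j, a k j := fun k =>
    (Pb_nonneg q h0 h1 μ hp (k + 2 + 0) k).trans (le_ciSup (hbdd k) 0)
  have hlim : ∀ k, Tendsto (fun n => Pb q μ (n + 1) k) atTop (𝓝 (⨆ j, a k j)) := by
    intro k
    have h2 := tendsto_atTop_ciSup (hmono k) (hbdd k)
    refine (tendsto_add_atTop_iff_nat (k + 1)).1 (h2.congr fun j => ?_)
    show Pb q μ (k + 2 + j) k = Pb q μ (j + (k + 1) + 1) k
    congr 1
    omega
  have hS : Summable (fun k => ⨆ j, a k j) := by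
    refine summable_of_sum_range_le hnn (c := C) fun K => ?_
    have h2 : Tendsto (fun n => ∑ k ∈ range K, Pb q μ (n + 1) k) atTop
        (𝓝 (∑ k ∈ range K, ⨆ j, a k j)) := tendsto_finsetSum _ fun k _ => hlim k
    refine le_of_tendsto h2 ?_
    filter_upwards [eventually_ge_atTop K] with n hn
    refine (Finset.sum_le_sum_of_subset_of_nonneg (Finset.range_subset_range.2 hn) ?_).trans (hsum n)
    intro i _ _
    exact Pb_nonneg q h0 h1 μ hp _ i
  refine ⟨fun k => Real.sqrt (⨆ j, a k j), ?_, ?_⟩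
  · have h2 := hS.tendsto_atTop_zero.sqrt
    simpa using h2
  · intro k N hN
    refine (Db_le_sqrt q h0 h1 μ hp N k (by omega)).trans (Real.sqrt_le_sqrt ?_)
    have h2 := le_ciSup (hbdd k) (N - (k + 2))
    have h3 : a k (N - (k + 2)) = Pb q μ N k := by
      show Pb q μ (k + 2 + (N - (k + 2))) k = _
      congr 1
      omega
    rw [h3] at h2
    exact h2

end FAF
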