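import Pool.Agent.Helper769.FAF.Base
import Pool.Agent.Helper769.FAF.P_Db_nonneg

set_option autoImplicit false
set_option linter.unusedSectionVars false

open Finset Filter Topology

noncomputable section

namespace FAF

/-- the shape condition -/
def LE_left_T (t i : ℕ) (z : Env) : Prop :=
  z t = false ∧ z (t - i) = true ∧ ∀ j, t - i < j → j < t → z j = false

open Classical in
theorem LE_left_ind (P : Env → Prop) (s : Finset Env) (f : Env → ℝ) :
    ∑ z ∈ s, ind P z * f z = ∑ z ∈ s.filter P, f z := by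
  rw [Finset.sum_filter]
  refine Finset.sum_congr rfl fun z _ => ?_
  by_cases h : P z
  · rw [if_pos h]
    have : ind P z = 1 := by
      unfold ind
      exact if_pos h
    rw [this, one_mul]
  · rw [if_neg h]
    have : ind P z = 0 := by
      unfold ind
      exact if_neg h
    rw [this, zero_mul]

theorem LE_left_inj (s t : Finset Env) (φ : Env → Env) (hinj : Set.InjOn φ s) (hmem : ∀ z ∈ s, φ z ∈ t)
    (g : Env → ℝ) (hg : ∀ z, 0 ≤ g z) : ∑ z ∈ s, g (φ z) ≤ ∑ z ∈ t, g z := by
  classical
  rw [← Finset.sum_image (f := g) hinj]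
  refine Finset.sum_le_sum_of_subset_of_nonneg ?_ fun z _ _ => hg z
  intro y hy
  obtain ⟨z, hz, rfl⟩ := Finset.mem_image.mp hy
  exact hmem z hz

theorem LE_left_upW {N k : ℕ} (hk : k < N) (b : Bool) {z : Env} (hz : z ∈ W N) : up z k b ∈ W N := by
  rw [mem_W] at hz ⊢
  intro j hj
  unfold up
  rw [if_neg (by omega)]
  exact hz j hj

theorem LE_left_up_same (z : Env) (k : ℕ) (b : Bool) : up z k b k = b := by
  unfold up; rw [if_pos rfl]

theorem LE_left_up_ne (z : Env) {k j : ℕ} (h : j ≠ k) (b : Bool) : up z k b j = z j := by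
  unfold up; rw [if_neg h]

theorem LE_left_up_comm (z : Env) {k l : ℕ} (h : k ≠ l) (b c : Bool) :
    up (up z k b) l c = up (up z l c) k b := by
  funext j
  unfold up
  by_cases h1 : j = k
  · by_cases h2 : j = l
    · omega
    · simp [h1, h]
  · by_cases h2 : j = l
    · simp [h2, h, Ne.symm h]
    · simp [h1, h2]

theorem LE_left_up_inj {z w : Env} {k : ℕ} {b c : Bool} (hz : z k = b) (hw : w k = b)
    (h : up z k c = up w k c) : z = w := by
  funext j
  by_cases hj : j = k
  · rw [hj, hz, hw]
  · have := congrFun h j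
    rwa [LE_left_up_ne z hj, LE_left_up_ne w hj] at this

theorem LE_left_alg (q : ℝ) (h0 : 0 < q) (h1 : q < 1) (a b c d : ℝ) :
    |q * a - (1 - q) * b| ≤ (1 / q) * |q * c - (1 - q) * d|
      + (1 / q) * (|q * a - (1 - q) * c| + |q * b - (1 - q) * d|) := by
  have h2 : q * a - (1 - q) * b = ((1 - q) / q) * (q * c - (1 - q) * d)
      + ((q * a - (1 - q) * c) - ((1 - q) / q) * (q * b - (1 - q) * d)) := by
    field_simp
    ring
  have hq1 : (1 - q) / q ≤ 1 / q := by
    apply div_le_div_of_nonneg_right _ h0.le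
    linarith
  have hq0 : 0 ≤ (1 - q) / q := div_nonneg (by linarith) h0.le
  have hq2 : 1 ≤ 1 / q := by
    rw [le_div_iff₀ h0]; linarith
  calc |q * a - (1 - q) * b| = |((1 - q) / q) * (q * c - (1 - q) * d)
      + ((q * a - (1 - q) * c) - ((1 - q) / q) * (q * b - (1 - q) * d))| := by rw [← h2]
    _ ≤ |((1 - q) / q) * (q * c - (1 - q) * d)|
      + |((q * a - (1 - q) * c) - ((1 - q) / q) * (q * b - (1 - q) * d))| := abs_add_le _ _
    _ ≤ |((1 - q) / q) * (q * c - (1 - q) * d)|
      + (|(q * a - (1 - q) * c)| + |((1 - q) / q) * (q * b - (1 - q) * d)|) := by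
        gcongr
        exact abs_sub _ _
    _ = ((1 - q) / q) * |q * c - (1 - q) * d| + (1 * |q * a - (1 - q) * c|
        + ((1 - q) / q) * |q * b - (1 - q) * d|) := by
        rw [abs_mul, abs_mul, abs_of_nonneg hq0, one_mul]
    _ ≤ (1 / q) * |q * c - (1 - q) * d| + ((1 / q) * |q * a - (1 - q) * c|
        + (1 / q) * |q * b - (1 - q) * d|) := by
        gcongr
    _ = _ := by ring

open Classical in
theorem LE_left_base (q : ℝ) (μ : Fam) (N t : ℕ) (ht : 1 ≤ t) :
    ∑ z ∈ (W N).filter (LE_left_T t 1), |q * μ.p N z - (1 - q) * μ.p N (up z t true)| ≤ Db q μ N t := by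
  unfold Db
  have h1 : ∀ z ∈ (W N).filter (LE_left_T t 1), |q * μ.p N z - (1 - q) * μ.p N (up z t true)|
      = cr z t * |q * μ.p N z - (1 - q) * μ.p N (up z t true)| := by
    intro z hz
    have hz2 := (Finset.mem_filter.mp hz).2
    have : cr z t = 1 := by
      unfold cr
      rw [if_pos (Or.inr (Or.inl hz2.2.1))]
    rw [this, one_mul]
  rw [Finset.sum_congr rfl h1]
  refine Finset.sum_le_sum_of_subset_of_nonneg ?_ fun z _ _ => ?_
  · intro z hz
    rw [Finset.mem_filter] at hz ⊢
    exact ⟨hz.1, hz.2.1⟩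
  · unfold cr
    split_ifs <;> positivity

open Classical in
theorem LE_left_step (q : ℝ) (h0 : 0 < q) (h1 : q < 1) (μ : Fam) (N t i : ℕ) (hi : 1 ≤ i) (hit : i + 1 ≤ t)
    (hN : t + 2 ≤ N) :
    ∑ z ∈ (W N).filter (LE_left_T t (i + 1)), |q * μ.p N z - (1 - q) * μ.p N (up z t true)| ≤
      (1 / q) * ∑ z ∈ (W N).filter (LE_left_T t i), |q * μ.p N z - (1 - q) * μ.p N (up z t true)|
      + (1 / q) * Db q μ N (t - i) := by
  have hs1 : 1 ≤ t - i := by omega
  have hst : t - i ≠ t := by omega
  have hsN : t - i < N := by omega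
  have htN : t < N := by omega
  have hsm : t - (i + 1) = t - i - 1 := by omega
  obtain ⟨s, hs⟩ : ∃ s, s = t - i := ⟨_, rfl⟩
  rw [← hs] at hs1 hst hsN hsm ⊢
  -- pointwise
  have hpt : ∀ z ∈ (W N).filter (LE_left_T t (i + 1)),
      |q * μ.p N z - (1 - q) * μ.p N (up z t true)| ≤
      (1 / q) * |q * μ.p N (up z s true) - (1 - q) * μ.p N (up (up z s true) t true)|
      + (1 / q) * (|q * μ.p N z - (1 - q) * μ.p N (up z s true)|
        + |q * μ.p N (up z t true) - (1 - q) * μ.p N (up (up z t true) s true)|) := by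
    intro z hz
    rw [LE_left_up_comm z hst true true]
    exact LE_left_alg q h0 h1 _ _ _ _
  refine le_trans (Finset.sum_le_sum hpt) ?_
  rw [Finset.sum_add_distrib, ← Finset.mul_sum, ← Finset.mul_sum, Finset.sum_add_distrib]
  have hq : 0 ≤ 1 / q := by positivity
  refine add_le_add (mul_le_mul_of_nonneg_left ?_ hq) (mul_le_mul_of_nonneg_left ?_ hq)
  · refine LE_left_inj _ ((W N).filter (LE_left_T t i)) (fun z => up z s true) ?_ ?_
      (fun z => |q * μ.p N z - (1 - q) * μ.p N (up z t true)|) (fun z => abs_nonneg _)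
    · intro z hz w hw h
      have hz2 := (Finset.mem_filter.mp (Finset.mem_coe.mp hz)).2
      have hw2 := (Finset.mem_filter.mp (Finset.mem_coe.mp hw)).2
      exact LE_left_up_inj (b := false) (hz2.2.2 s (by omega) (by omega)) (hw2.2.2 s (by omega) (by omega)) h
    · intro z hz
      rw [Finset.mem_filter] at hz ⊢
      refine ⟨LE_left_upW hsN true hz.1, ?_, ?_, ?_⟩
      · rw [LE_left_up_ne z hst.symm]; exact hz.2.1
      · rw [← hs, LE_left_up_same]
      · intro j hj1 hj2
        rw [LE_left_up_ne z (by omega)]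
        exact hz.2.2.2 j (by omega) hj2
  · have hDb : Db q μ N s = ∑ z ∈ ((W N).filter (fun z => z s = false)).filter (fun z => z t = false),
        cr z s * |q * μ.p N z - (1 - q) * μ.p N (up z s true)|
        + ∑ z ∈ ((W N).filter (fun z => z s = false)).filter (fun z => ¬ z t = false),
        cr z s * |q * μ.p N z - (1 - q) * μ.p N (up z s true)| := by
      unfold Db
      rw [Finset.sum_filter_add_sum_filter_not]
    have hnn : ∀ z : Env, 0 ≤ cr z s * |q * μ.p N z - (1 - q) * μ.p N (up z s true)| := by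
      intro z
      unfold cr
      split_ifs <;> positivity
    rw [hDb]
    refine add_le_add ?_ ?_
    · have hA : ∀ z ∈ (W N).filter (LE_left_T t (i + 1)), |q * μ.p N z - (1 - q) * μ.p N (up z s true)|
          = cr z s * |q * μ.p N z - (1 - q) * μ.p N (up z s true)| := by
        intro z hz
        have hz2 := (Finset.mem_filter.mp hz).2
        have h3 := hz2.2.1
        rw [hsm] at h3
        have : cr z s = 1 := by
          unfold cr
          rw [if_pos (Or.inr (Or.inl h3))]
        rw [this, one_mul]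
      rw [Finset.sum_congr rfl hA]
      refine Finset.sum_le_sum_of_subset_of_nonneg ?_ fun z _ _ => hnn z
      intro z hz
      rw [Finset.mem_filter] at hz
      rw [Finset.mem_filter, Finset.mem_filter]
      exact ⟨⟨hz.1, hz.2.2.2 s (by omega) (by omega)⟩, hz.2.1⟩
    · have hA : ∀ z ∈ (W N).filter (LE_left_T t (i + 1)),
          |q * μ.p N (up z t true) - (1 - q) * μ.p N (up (up z t true) s true)|
          = cr (up z t true) s * |q * μ.p N (up z t true) - (1 - q) * μ.p N (up (up z t true) s true)| := by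
        intro z hz
        have hz2 := (Finset.mem_filter.mp hz).2
        have h3 := hz2.2.1
        rw [hsm] at h3
        have : cr (up z t true) s = 1 := by
          unfold cr
          rw [if_pos (Or.inr (Or.inl (by rw [LE_left_up_ne z (by omega)]; exact h3)))]
        rw [this, one_mul]
      rw [Finset.sum_congr rfl hA]
      refine LE_left_inj _ _ (fun z => up z t true) ?_ ?_
        (fun z => cr z s * |q * μ.p N z - (1 - q) * μ.p N (up z s true)|) hnn
      · intro z hz w hw h
        have hz2 := (Finset.mem_filter.mp (Finset.mem_coe.mp hz)).2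
        have hw2 := (Finset.mem_filter.mp (Finset.mem_coe.mp hw)).2
        exact LE_left_up_inj (b := false) hz2.1 hw2.1 h
      · intro z hz
        rw [Finset.mem_filter] at hz
        rw [Finset.mem_filter, Finset.mem_filter]
        refine ⟨⟨LE_left_upW htN true hz.1, ?_⟩, ?_⟩
        · rw [LE_left_up_ne z hst]
          exact hz.2.2.2 s (by omega) (by omega)
        · rw [LE_left_up_same]; simp

theorem LE_left (q : ℝ) (h0 : 0 < q) (h1 : q < 1) (μ : Fam) (N t i : ℕ) (hi : 1 ≤ i) (hit : i ≤ t)
    (hN : t + 2 ≤ N) :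
    ∑ z ∈ W N, ind (fun z => z t = false ∧ z (t - i) = true ∧
        ∀ j, t - i < j → j < t → z j = false) z * |q * μ.p N z - (1 - q) * μ.p N (up z t true)|
      ≤ (1 / q) ^ i * ∑ j ∈ Finset.Icc (t - i + 1) t, Db q μ N j := by
  classical
  rw [LE_left_ind]
  show ∑ z ∈ (W N).filter (LE_left_T t i), |q * μ.p N z - (1 - q) * μ.p N (up z t true)| ≤ _
  have hq2 : 1 ≤ 1 / q := by
    rw [le_div_iff₀ h0]; linarith
  induction i, hi using Nat.le_induction with
  | base =>
    refine le_trans (LE_left_base q μ N t hit) ?_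
    have h3 : t - 1 + 1 = t := by omega
    rw [h3, Finset.Icc_self, Finset.sum_singleton, pow_one]
    exact le_mul_of_one_le_left (Db_nonneg q μ N t) hq2
  | succ i hi ih =>
    refine le_trans (LE_left_step q h0 h1 μ N t i hi hit hN) ?_
    have ih' := ih (by omega)
    have h3 : t - (i + 1) + 1 = t - i := by omega
    have h4 : ∑ j ∈ Finset.Icc (t - i) t, Db q μ N j = Db q μ N (t - i) + ∑ j ∈ Finset.Icc (t - i + 1) t, Db q μ N j := by
      rw [← Finset.sum_Ioc_add_eq_sum_Icc (by omega : t - i ≤ t), add_comm]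
      have h5 : Finset.Ioc (t - i) t = Finset.Icc (t - i + 1) t := by
        ext j
        rw [Finset.mem_Ioc, Finset.mem_Icc]
        omega
      rw [h5]
    rw [h3, h4, mul_add, add_comm]
    refine add_le_add (mul_le_mul_of_nonneg_right ?_ (Db_nonneg q μ N _)) ?_
    · calc 1 / q = (1 / q) ^ 1 := (pow_one _).symm
        _ ≤ (1 / q) ^ (i + 1) := pow_le_pow_right₀ hq2 (by omega)
    · rw [pow_succ', mul_assoc]
      exact mul_le_mul_of_nonneg_left ih' (by positivity)

end FAF
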