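import Pool.Agent.Helper769.FAF.Base
import Pool.Agent.Helper769.FAF.P_LE_left
import Pool.Agent.Helper769.FAF.P_Db_nonneg

set_option autoImplicit false
set_option linter.unusedSectionVars false

open Finset Filter Topology

noncomputable section

namespace FAF

theorem LE_leftL_ind (P : Env → Prop) (z : Env) (h : P z) : ind P z = 1 := by
  unfold ind
  rw [if_pos h]

theorem LE_leftL_ind0 (P : Env → Prop) (z : Env) (h : ¬ P z) : ind P z = 0 := by
  unfold ind
  rw [if_neg h]

theorem LE_leftL_nn (P : Env → Prop) (z : Env) : 0 ≤ ind P z := by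
  by_cases h : P z
  · rw [LE_leftL_ind P z h]; norm_num
  · rw [LE_leftL_ind0 P z h]

theorem LE_leftL_last (z : Env) (t : ℕ) : ∀ d : ℕ, d ≤ t → (∃ j, t - d ≤ j ∧ j < t ∧ z j = true) →
    ∃ i, 1 ≤ i ∧ i ≤ d ∧ z (t - i) = true ∧ ∀ j, t - i < j → j < t → z j = false := by
  intro d
  induction d with
  | zero =>
    rintro - ⟨j, h1, h2, h3⟩
    omega
  | succ d ih =>
    rintro hd ⟨j, h1, h2, h3⟩
    by_cases h : ∃ j, t - d ≤ j ∧ j < t ∧ z j = true
    · obtain ⟨i, a, b, c⟩ := ih (by omega) h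
      exact ⟨i, a, by omega, c⟩
    · push Not at h
      have hj : j = t - (d + 1) := by
        by_contra hne
        exact absurd h3 (by simpa using h j (by omega) h2)
      refine ⟨d + 1, by omega, le_rfl, by rw [← hj]; exact h3, ?_⟩
      intro j' e1 e2
      simpa using h j' (by omega) e2

theorem LE_leftL (q : ℝ) (h0 : 0 < q) (h1 : q < 1) (μ : Fam) (N t L : ℕ) (hL : L ≤ t)
    (hN : t + 2 ≤ N) :
    ∑ z ∈ W N, ind (fun z => z t = false ∧ ∃ j, t - L ≤ j ∧ j < t ∧ z j = true) z *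
        |q * μ.p N z - (1 - q) * μ.p N (up z t true)|
      ≤ L * (1 / q) ^ L * ∑ j ∈ Finset.Icc (t - L) t, Db q μ N j := by
  have hq1 : 1 ≤ 1 / q := by
    rw [le_div_iff₀ h0]; linarith
  have hind : ∀ z : Env, ind (fun z => z t = false ∧ ∃ j, t - L ≤ j ∧ j < t ∧ z j = true) z ≤
      ∑ i ∈ Finset.Icc 1 L, ind (fun z => z t = false ∧ z (t - i) = true ∧
        ∀ j, t - i < j → j < t → z j = false) z := by
    intro z
    by_cases h : z t = false ∧ ∃ j, t - L ≤ j ∧ j < t ∧ z j = true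
    · rw [LE_leftL_ind _ z h]
      obtain ⟨i, a, b, c, e⟩ := LE_leftL_last z t L hL h.2
      have := Finset.single_le_sum (f := fun i => ind (fun z => z t = false ∧ z (t - i) = true ∧
        ∀ j, t - i < j → j < t → z j = false) z) (fun i _ => LE_leftL_nn _ z)
        (Finset.mem_Icc.mpr ⟨a, b⟩)
      rw [LE_leftL_ind _ z ⟨h.1, c, e⟩] at this
      exact this
    · rw [LE_leftL_ind0 _ z h]
      exact Finset.sum_nonneg fun i _ => LE_leftL_nn _ z
  have hDnn : 0 ≤ ∑ j ∈ Finset.Icc (t - L) t, Db q μ N j :=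
    Finset.sum_nonneg fun j _ => Db_nonneg q μ N j
  calc ∑ z ∈ W N, ind (fun z => z t = false ∧ ∃ j, t - L ≤ j ∧ j < t ∧ z j = true) z *
        |q * μ.p N z - (1 - q) * μ.p N (up z t true)|
      ≤ ∑ z ∈ W N, (∑ i ∈ Finset.Icc 1 L, ind (fun z => z t = false ∧ z (t - i) = true ∧
        ∀ j, t - i < j → j < t → z j = false) z) * |q * μ.p N z - (1 - q) * μ.p N (up z t true)| :=
        Finset.sum_le_sum fun z _ => mul_le_mul_of_nonneg_right (hind z) (abs_nonneg _)
    _ = ∑ i ∈ Finset.Icc 1 L, ∑ z ∈ W N, ind (fun z => z t = false ∧ z (t - i) = true ∧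
        ∀ j, t - i < j → j < t → z j = false) z * |q * μ.p N z - (1 - q) * μ.p N (up z t true)| := by
        rw [Finset.sum_comm]
        apply Finset.sum_congr rfl
        intro z _
        rw [Finset.sum_mul]
    _ ≤ ∑ i ∈ Finset.Icc 1 L, (1 / q) ^ L * ∑ j ∈ Finset.Icc (t - L) t, Db q μ N j := by
        apply Finset.sum_le_sum
        intro i hi
        rw [Finset.mem_Icc] at hi
        refine (LE_left q h0 h1 μ N t i hi.1 (by omega) hN).trans ?_
        have e1 : (1 / q) ^ i ≤ (1 / q) ^ L := pow_le_pow_right₀ hq1 hi.2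
        have e2 : ∑ j ∈ Finset.Icc (t - i + 1) t, Db q μ N j ≤ ∑ j ∈ Finset.Icc (t - L) t, Db q μ N j := by
          apply Finset.sum_le_sum_of_subset_of_nonneg
          · apply Finset.Icc_subset_Icc_left; omega
          · intro j _ _; exact Db_nonneg q μ N j
        exact mul_le_mul e1 e2 (Finset.sum_nonneg fun j _ => Db_nonneg q μ N j) (by positivity)
    _ = L * (1 / q) ^ L * ∑ j ∈ Finset.Icc (t - L) t, Db q μ N j := by
        rw [Finset.sum_const, Nat.card_Icc, nsmul_eq_mul]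
        simp [mul_assoc]

end FAF
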