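import Pool.Agent.Helper769.FAF.Base
import Pool.Agent.Helper769.FAF.P_LE_leftL
import Pool.Agent.Helper769.FAF.P_Db_nonneg
import Pool.Agent.Helper769.FAF.P_E_lift

set_option autoImplicit false
set_option linter.unusedSectionVars false

open Finset Filter Topology

noncomputable section

namespace FAF

theorem F2_ind_true (P : Env → Prop) (z : Env) (h : P z) : ind P z = 1 := by
  unfold ind; simp [h]

theorem F2_ind_false (P : Env → Prop) (z : Env) (h : ¬ P z) : ind P z = 0 := by
  unfold ind; simp [h]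

theorem F2_ind_nonneg (P : Env → Prop) (z : Env) : 0 ≤ ind P z := by
  by_cases h : P z
  · rw [F2_ind_true P z h]; norm_num
  · rw [F2_ind_false P z h]

theorem F2_up_comm (z : Env) (n : ℕ) (c : Bool) :
    up (up (up z n false) (n + 1) c) n true = up (up z n true) (n + 1) c := by
  funext j
  unfold up
  by_cases h1 : j = n
  · subst h1; simp
  · simp [h1]

theorem F2_abs (q A0 A1 B0 B1 : ℝ) :
    |(A1 + B1) - q * ((A0 + B0) + (A1 + B1))| ≤ |q * A0 - (1 - q) * A1| + |q * B0 - (1 - q) * B1| := by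
  have h : (A1 + B1) - q * ((A0 + B0) + (A1 + B1)) =
      -((q * A0 - (1 - q) * A1) + (q * B0 - (1 - q) * B1)) := by ring
  rw [h, abs_neg]
  exact abs_add_le _ _

theorem F2_main (q : ℝ) (μ : Fam) (n L : ℕ) (hL : L ≤ n) :
    ∑ z ∈ W n, ind (fun z => ¬ zr (n - L) L z) z * |μ.p (n + 1) (up z n true) - q * μ.p n z| ≤
    ∑ z ∈ W (n + 2), ind (fun z => z n = false ∧ ∃ j, n - L ≤ j ∧ j < n ∧ z j = true) z *
        |q * μ.p (n + 2) z - (1 - q) * μ.p (n + 2) (up z n true)| := by
  set F : Env → ℝ := fun z => ind (fun z => z n = false ∧ ∃ j, n - L ≤ j ∧ j < n ∧ z j = true) z *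
        |q * μ.p (n + 2) z - (1 - q) * μ.p (n + 2) (up z n true)| with hF
  have hFnn : ∀ z, 0 ≤ F z := fun z => mul_nonneg (F2_ind_nonneg _ _) (abs_nonneg _)
  have e1 : ∑ z ∈ W (n + 2), F z = ∑ z ∈ W (n + 1), (F (up z (n + 1) false) + F (up z (n + 1) true)) :=
    sum_succ (n + 1) F
  have e2 : ∑ z ∈ W (n + 1), (F (up z (n + 1) false) + F (up z (n + 1) true)) =
      ∑ z ∈ W n, ((F (up (up z n false) (n + 1) false) + F (up (up z n false) (n + 1) true)) +
        (F (up (up z n true) (n + 1) false) + F (up (up z n true) (n + 1) true))) :=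
    sum_succ n (fun z => F (up z (n + 1) false) + F (up z (n + 1) true))
  rw [e1, e2]
  refine Finset.sum_le_sum fun z hz => ?_
  have hn1 : 0 ≤ F (up (up z n true) (n + 1) false) := hFnn _
  have hn2 : 0 ≤ F (up (up z n true) (n + 1) true) := hFnn _
  by_cases hz : zr (n - L) L z
  · rw [F2_ind_false _ z (by simpa using hz), zero_mul]
    have := hFnn (up (up z n false) (n + 1) false)
    have := hFnn (up (up z n false) (n + 1) true)
    linarith
  · rw [F2_ind_true _ z hz, one_mul]
    have hj : ∃ j, n - L ≤ j ∧ j < n ∧ z j = true := by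
      unfold zr at hz
      push Not at hz
      obtain ⟨j, h1, h2, h3⟩ := hz
      refine ⟨j, h1, by omega, ?_⟩
      cases h : z j
      · exact absurd h h3
      · rfl
    have hFc : ∀ c : Bool, F (up (up z n false) (n + 1) c) =
        |q * μ.p (n + 2) (up (up z n false) (n + 1) c) -
          (1 - q) * μ.p (n + 2) (up (up z n true) (n + 1) c)| := by
      intro c
      show ind (fun z => z n = false ∧ ∃ j, n - L ≤ j ∧ j < n ∧ z j = true)
        (up (up z n false) (n + 1) c) *
        |q * μ.p (n + 2) (up (up z n false) (n + 1) c) -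
          (1 - q) * μ.p (n + 2) (up (up (up z n false) (n + 1) c) n true)| = _
      rw [F2_ind_true, one_mul, F2_up_comm]
      refine ⟨by simp [up], ?_⟩
      obtain ⟨j, h1, h2, h3⟩ := hj
      refine ⟨j, h1, h2, ?_⟩
      simp only [up]
      rw [if_neg (by omega), if_neg (by omega)]
      exact h3
    rw [hFc false, hFc true]
    have c1 := μ.con n z
    have c2 := μ.con (n + 1) (up z n false)
    have c3 := μ.con (n + 1) (up z n true)
    have c4 := F2_abs q (μ.p (n + 2) (up (up z n false) (n + 1) false))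
      (μ.p (n + 2) (up (up z n true) (n + 1) false))
      (μ.p (n + 2) (up (up z n false) (n + 1) true))
      (μ.p (n + 2) (up (up z n true) (n + 1) true))
    have c5 : μ.p (n + 1) (up z n true) - q * μ.p n z =
      (μ.p (n + 2) (up (up z n true) (n + 1) false) + μ.p (n + 2) (up (up z n true) (n + 1) true)) -
      q * ((μ.p (n + 2) (up (up z n false) (n + 1) false) +
        μ.p (n + 2) (up (up z n false) (n + 1) true)) +
       (μ.p (n + 2) (up (up z n true) (n + 1) false) +
        μ.p (n + 2) (up (up z n true) (n + 1) true))) := by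
      rw [c1, c2, c3]
    rw [c5]
    linarith

theorem F2 (q : ℝ) (h0 : 0 < q) (h1 : q < 1) (μ : Fam) (d : ℕ → ℝ)
    (hd : Tendsto d atTop (𝓝 0)) (hD : ∀ k N, k + 2 ≤ N → Db q μ N k ≤ d k) (L : ℕ) (ε : ℝ)
    (hε : 0 < ε) : ∃ n0 : ℕ, ∀ n ≥ n0,
      ∑ z ∈ W n, ind (fun z => ¬ zr (n - L) L z) z * |μ.p (n + 1) (up z n true) - q * μ.p n z|
        ≤ ε := by
  set C : ℝ := L * (1 / q) ^ L with hC
  have hC0 : 0 ≤ C := by positivity
  set δ : ℝ := ε / (C * (L + 1) + 1) with hδ
  have hden : 0 < C * (L + 1) + 1 := by positivity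
  have hδ0 : 0 < δ := by positivity
  obtain ⟨n1, hn1⟩ := eventually_atTop.mp (hd.eventually (ge_mem_nhds hδ0))
  refine ⟨n1 + L, fun n hn => ?_⟩
  have hLn : L ≤ n := by omega
  refine (F2_main q μ n L hLn).trans ((LE_leftL q h0 h1 μ (n + 2) n L hLn le_rfl).trans ?_)
  have h2 : ∑ j ∈ Finset.Icc (n - L) n, Db q μ (n + 2) j ≤ (L + 1) * δ := by
    have h3 : ∀ j ∈ Finset.Icc (n - L) n, Db q μ (n + 2) j ≤ δ := by
      intro j hj
      rw [Finset.mem_Icc] at hj
      exact (hD j (n + 2) (by omega)).trans (hn1 j (by omega))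
    have h4 := Finset.sum_le_card_nsmul _ _ _ h3
    have h5 : (Finset.Icc (n - L) n).card = L + 1 := by
      rw [Nat.card_Icc]; omega
    rw [h5, nsmul_eq_mul] at h4
    push_cast at h4
    exact h4
  calc C * ∑ j ∈ Finset.Icc (n - L) n, Db q μ (n + 2) j ≤ C * ((L + 1) * δ) :=
        mul_le_mul_of_nonneg_left h2 hC0
    _ = (C * (L + 1)) * δ := by ring
    _ ≤ (C * (L + 1) + 1) * δ := by nlinarith
    _ = ε := by rw [hδ]; field_simp

end FAF
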