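import Pool.Agent.Helper769.FAF.Base
import Pool.Agent.Helper769.FAF.P_Db_nonneg

set_option autoImplicit false
set_option linter.unusedSectionVars false

open Finset Filter Topology

noncomputable section

namespace FAF

theorem LE_right_ind_pos {P : Env → Prop} {z : Env} (h : P z) : ind P z = 1 := by
  unfold ind
  exact if_pos h

theorem LE_right_ind_neg {P : Env → Prop} {z : Env} (h : ¬ P z) : ind P z = 0 := by
  unfold ind
  exact if_neg h

theorem LE_right_ind_nonneg (P : Env → Prop) (z : Env) : 0 ≤ ind P z := by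
  by_cases h : P z
  · rw [LE_right_ind_pos h]; norm_num
  · rw [LE_right_ind_neg h]

theorem LE_right_cr_nonneg (z : Env) (k : ℕ) : 0 ≤ cr z k := by
  unfold cr
  split_ifs <;> norm_num

theorem LE_right_up_ne (z : Env) {k j : ℕ} (b : Bool) (h : j ≠ k) : up z k b j = z j := if_neg h

theorem LE_right_up_same (z : Env) (k : ℕ) (b : Bool) : up z k b k = b := if_pos rfl

theorem LE_right_up_comm (z : Env) (s t : ℕ) (h : s ≠ t) (a b : Bool) :
    up (up z s a) t b = up (up z t b) s a := by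
  funext j
  by_cases h1 : j = s
  · subst h1
    rw [LE_right_up_ne _ _ h, LE_right_up_same, LE_right_up_same]
  · by_cases h2 : j = t
    · subst h2
      rw [LE_right_up_same, LE_right_up_ne _ _ h1, LE_right_up_same]
    · rw [LE_right_up_ne _ _ h2, LE_right_up_ne _ _ h1, LE_right_up_ne _ _ h1,
        LE_right_up_ne _ _ h2]

theorem LE_right_alg (q a b c d : ℝ) (h0 : 0 < q) (h1 : q < 1) :
    |q * a - (1 - q) * b| ≤ (1 / q) * |q * c - (1 - q) * d| +
      (1 / q) * (|q * a - (1 - q) * c| + |q * b - (1 - q) * d|) := by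
  obtain ⟨x, hx⟩ : ∃ x, x = q * a - (1 - q) * b := ⟨_, rfl⟩
  obtain ⟨u, hu⟩ : ∃ u, u = q * a - (1 - q) * c := ⟨_, rfl⟩
  obtain ⟨v, hv⟩ : ∃ v, v = q * b - (1 - q) * d := ⟨_, rfl⟩
  obtain ⟨w, hw⟩ : ∃ w, w = q * c - (1 - q) * d := ⟨_, rfl⟩
  rw [← hx, ← hu, ← hv, ← hw]
  have hxx : q * x = q * u + (-((1 - q) * v)) + (1 - q) * w := by
    rw [hx, hu, hv, hw]; ring
  have h2 : q * |x| ≤ |w| + (|u| + |v|) := by
    calc q * |x| = |q * x| := by rw [abs_mul, abs_of_pos h0]
      _ = |q * u + (-((1 - q) * v)) + (1 - q) * w| := by rw [hxx]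
      _ ≤ |q * u| + |-((1 - q) * v)| + |(1 - q) * w| := abs_add_three _ _ _
      _ = q * |u| + (1 - q) * |v| + (1 - q) * |w| := by
        rw [abs_neg, abs_mul, abs_mul, abs_mul, abs_of_pos h0, abs_of_pos (sub_pos.mpr h1)]
      _ ≤ |w| + (|u| + |v|) := by
        nlinarith [abs_nonneg u, abs_nonneg v, abs_nonneg w]
  rw [← mul_add]
  have h3 : |x| = (1 / q) * (q * |x|) := by
    rw [one_div, ← mul_assoc, inv_mul_cancel₀ h0.ne', one_mul]
  rw [h3]
  exact mul_le_mul_of_nonneg_left h2 (by positivity)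

/-- the event -/
def LE_right_T (t i : ℕ) (z : Env) : Prop :=
  z t = false ∧ z (t + i) = true ∧ ∀ j, t < j → j < t + i → z j = false

theorem LE_right_base (q : ℝ) (h0 : 0 < q) (h1 : q < 1) (μ : Fam) (N t : ℕ) :
    ∑ z ∈ W N, ind (LE_right_T t 1) z * |q * μ.p N z - (1 - q) * μ.p N (up z t true)|
      ≤ Db q μ N t := by
  unfold Db
  rw [Finset.sum_filter]
  refine Finset.sum_le_sum fun z _ => ?_
  by_cases hT : LE_right_T t 1 z
  · rw [LE_right_ind_pos hT, if_pos hT.1]
    have hcr : cr z t = 1 := if_pos (Or.inr (Or.inr hT.2.1))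
    rw [hcr]
  · rw [LE_right_ind_neg hT, zero_mul]
    split_ifs
    · exact mul_nonneg (LE_right_cr_nonneg _ _) (abs_nonneg _)
    · exact le_rfl

theorem LE_right_A1 (q : ℝ) (μ : Fam) (N t i : ℕ) (hi : 1 ≤ i) (hN : t + i < N) :
    ∑ z ∈ W N, ind (LE_right_T t (i + 1)) z *
      |q * μ.p N (up z (t + i) true) - (1 - q) * μ.p N (up (up z (t + i) true) t true)| ≤
    ∑ z ∈ W N, ind (LE_right_T t i) z * |q * μ.p N z - (1 - q) * μ.p N (up z t true)| := by
  rw [sum_split N (t + i) hN (fun z => ind (LE_right_T t i) z *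
    |q * μ.p N z - (1 - q) * μ.p N (up z t true)|), Finset.sum_filter]
  refine Finset.sum_le_sum fun z _ => ?_
  have hnn : ∀ y, 0 ≤ ind (LE_right_T t i) y * |q * μ.p N y - (1 - q) * μ.p N (up y t true)| :=
    fun y => mul_nonneg (LE_right_ind_nonneg _ _) (abs_nonneg _)
  by_cases hT : LE_right_T t (i + 1) z
  · have hzs : z (t + i) = false := hT.2.2 (t + i) (by omega) (by omega)
    have hT' : LE_right_T t i (up z (t + i) true) := by
      refine ⟨?_, LE_right_up_same _ _ _, ?_⟩
      · rw [LE_right_up_ne _ _ (by omega)]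
        exact hT.1
      · intro j hj1 hj2
        rw [LE_right_up_ne _ _ (by omega)]
        exact hT.2.2 j hj1 (by omega)
    rw [LE_right_ind_pos hT, if_pos hzs, LE_right_ind_pos hT']
    have := hnn z
    linarith
  · rw [LE_right_ind_neg hT, zero_mul]
    split_ifs
    · exact add_nonneg (hnn _) (hnn _)
    · exact le_rfl

theorem LE_right_A2 (q : ℝ) (μ : Fam) (N t i : ℕ) (hi : 1 ≤ i) (hN : t + i < N) :
    ∑ z ∈ W N, ind (LE_right_T t (i + 1)) z *
      (|q * μ.p N z - (1 - q) * μ.p N (up z (t + i) true)| +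
        |q * μ.p N (up z t true) - (1 - q) * μ.p N (up (up z t true) (t + i) true)|) ≤
    Db q μ N (t + i) := by
  unfold Db
  rw [Finset.sum_filter, sum_split N t (by omega) (fun z => if z (t + i) = false then
    cr z (t + i) * |q * μ.p N z - (1 - q) * μ.p N (up z (t + i) true)| else 0),
    Finset.sum_filter]
  refine Finset.sum_le_sum fun z _ => ?_
  have hnn : ∀ y : Env, 0 ≤ (if y (t + i) = false then
      cr y (t + i) * |q * μ.p N y - (1 - q) * μ.p N (up y (t + i) true)| else 0) := by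
    intro y
    split_ifs
    · exact mul_nonneg (LE_right_cr_nonneg _ _) (abs_nonneg _)
    · exact le_rfl
  by_cases hT : LE_right_T t (i + 1) z
  · have hzs : z (t + i) = false := hT.2.2 (t + i) (by omega) (by omega)
    have hzs1 : z (t + i + 1) = true := hT.2.1
    have hzs' : up z t true (t + i) = false := by
      rw [LE_right_up_ne _ _ (by omega)]
      exact hzs
    have hcr : cr z (t + i) = 1 := if_pos (Or.inr (Or.inr hzs1))
    have hcr' : cr (up z t true) (t + i) = 1 := by
      refine if_pos (Or.inr (Or.inr ?_))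
      rw [LE_right_up_ne _ _ (by omega)]
      exact hzs1
    rw [LE_right_ind_pos hT, if_pos hT.1, if_pos hzs, if_pos hzs', hcr, hcr', one_mul, one_mul,
      one_mul]
  · rw [LE_right_ind_neg hT, zero_mul]
    by_cases h1 : z t = false
    · rw [if_pos h1]
      exact add_nonneg (hnn _) (hnn _)
    · rw [if_neg h1]

theorem LE_right_step (q : ℝ) (h0 : 0 < q) (h1 : q < 1) (μ : Fam) (N t i : ℕ) (hi : 1 ≤ i)
    (hN : t + i < N) :
    ∑ z ∈ W N, ind (LE_right_T t (i + 1)) z * |q * μ.p N z - (1 - q) * μ.p N (up z t true)| ≤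
    (1 / q) * (∑ z ∈ W N, ind (LE_right_T t i) z *
      |q * μ.p N z - (1 - q) * μ.p N (up z t true)|) + (1 / q) * Db q μ N (t + i) := by
  have hA1 := LE_right_A1 q μ N t i hi hN
  have hA2 := LE_right_A2 q μ N t i hi hN
  have hq : 0 ≤ 1 / q := by positivity
  refine le_trans ?_ (add_le_add (mul_le_mul_of_nonneg_left hA1 hq)
    (mul_le_mul_of_nonneg_left hA2 hq))
  rw [Finset.mul_sum, Finset.mul_sum, ← Finset.sum_add_distrib]
  refine Finset.sum_le_sum fun z _ => ?_
  have h2 := LE_right_alg q (μ.p N z) (μ.p N (up z t true)) (μ.p N (up z (t + i) true))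
    (μ.p N (up (up z t true) (t + i) true)) h0 h1
  have h3 := mul_le_mul_of_nonneg_left h2 (LE_right_ind_nonneg (LE_right_T t (i + 1)) z)
  rw [LE_right_up_comm z (t + i) t (by omega)]
  refine h3.trans (le_of_eq ?_)
  ring

theorem LE_right (q : ℝ) (h0 : 0 < q) (h1 : q < 1) (μ : Fam) (N t i : ℕ) (hi : 1 ≤ i)
    (hN : t + i + 1 ≤ N) :
    ∑ z ∈ W N, ind (fun z => z t = false ∧ z (t + i) = true ∧
        ∀ j, t < j → j < t + i → z j = false) z * |q * μ.p N z - (1 - q) * μ.p N (up z t true)|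
      ≤ (1 / q) ^ i * ∑ j ∈ Finset.Icc t (t + i - 1), Db q μ N j := by
  change ∑ z ∈ W N, ind (LE_right_T t i) z * |q * μ.p N z - (1 - q) * μ.p N (up z t true)|
      ≤ (1 / q) ^ i * ∑ j ∈ Finset.Icc t (t + i - 1), Db q μ N j
  have hq1 : 1 ≤ 1 / q := by
    rw [le_div_iff₀ h0]
    linarith
  induction i, hi using Nat.le_induction with
  | base =>
    have e : t + 1 - 1 = t := by omega
    rw [e, Finset.Icc_self, Finset.sum_singleton, pow_one]
    have h2 := LE_right_base q h0 h1 μ N t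
    have h3 := Db_nonneg q μ N t
    nlinarith
  | succ i hi ih =>
    have h2 := LE_right_step q h0 h1 μ N t i hi (by omega)
    have h3 := ih (by omega)
    have e : Finset.Icc t (t + (i + 1) - 1) = insert (t + i) (Finset.Icc t (t + i - 1)) := by
      ext j
      simp only [Finset.mem_Icc, Finset.mem_insert]
      omega
    have hS : 0 ≤ ∑ j ∈ Finset.Icc t (t + i - 1), Db q μ N j :=
      Finset.sum_nonneg fun j _ => Db_nonneg q μ N j
    have hD := Db_nonneg q μ N (t + i)
    rw [e, Finset.sum_insert (by simp only [Finset.mem_Icc]; omega)]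
    have hpow : 1 ≤ (1 / q) ^ i := one_le_pow₀ hq1
    have h4 : (1 / q) * Db q μ N (t + i) ≤ (1 / q) ^ (i + 1) * Db q μ N (t + i) := by
      refine mul_le_mul_of_nonneg_right ?_ hD
      rw [pow_succ]
      nlinarith
    have h5 : (1 / q) * (∑ z ∈ W N, ind (LE_right_T t i) z *
        |q * μ.p N z - (1 - q) * μ.p N (up z t true)|) ≤
        (1 / q) ^ (i + 1) * ∑ j ∈ Finset.Icc t (t + i - 1), Db q μ N j := by
      rw [pow_succ']
      rw [mul_assoc]
      exact mul_le_mul_of_nonneg_left h3 (by positivity)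
    rw [mul_add]
    linarith

end FAF
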