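import Pool.Agent.Helper769.FAF.Base
import Pool.Agent.Helper769.FAF.P_LE_right
import Pool.Agent.Helper769.FAF.P_Db_nonneg

set_option autoImplicit false
set_option linter.unusedSectionVars false

open Finset Filter Topology

noncomputable section

namespace FAF

theorem LE_rightL_ind_true (P : Env → Prop) (z : Env) (h : P z) : ind P z = 1 := by
  unfold ind
  exact if_pos h

theorem LE_rightL_ind_nonneg (P : Env → Prop) (z : Env) : 0 ≤ ind P z := by
  unfold ind
  split_ifs <;> norm_num

theorem LE_rightL_ind_false (P : Env → Prop) (z : Env) (h : ¬ P z) : ind P z = 0 := by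
  unfold ind
  exact if_neg h

theorem LE_rightL_le (t L : ℕ) (z : Env) :
    ind (fun z => z t = false ∧ ∃ j, t < j ∧ j ≤ t + L ∧ z j = true) z ≤
      ∑ i ∈ Finset.Icc 1 L, ind (fun z => z t = false ∧ z (t + i) = true ∧
        ∀ j, t < j → j < t + i → z j = false) z := by
  classical
  by_cases h : z t = false ∧ ∃ j, t < j ∧ j ≤ t + L ∧ z j = true
  · rw [LE_rightL_ind_true _ z h]
    obtain ⟨h1, j, hj1, hj2, hj3⟩ := h
    have hex : ∃ j, t < j ∧ z j = true := ⟨j, hj1, hj3⟩
    obtain ⟨hm1, hm2⟩ := Nat.find_spec hex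
    have hmin : ∀ k, t < k → k < Nat.find hex → z k = false := by
      intro k hk1 hk2
      have := Nat.find_min hex hk2
      by_contra hne
      exact this ⟨hk1, by simpa using hne⟩
    have hle : Nat.find hex ≤ j := Nat.find_min' hex ⟨hj1, hj3⟩
    generalize Nat.find hex = m at hm1 hm2 hmin hle
    have hi : m - t ∈ Finset.Icc 1 L := Finset.mem_Icc.2 ⟨by omega, by omega⟩
    have e : t + (m - t) = m := by omega
    refine le_trans (le_of_eq ?_) (Finset.single_le_sum
      (f := fun i => ind (fun z => z t = false ∧ z (t + i) = true ∧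
        ∀ j, t < j → j < t + i → z j = false) z) (fun i _ => LE_rightL_ind_nonneg _ _) hi)
    refine (LE_rightL_ind_true _ z ?_).symm
    refine ⟨h1, ?_, ?_⟩
    · rw [e]; exact hm2
    · intro k hk1 hk2
      rw [e] at hk2
      exact hmin k hk1 hk2
  · rw [LE_rightL_ind_false _ z h]
    exact Finset.sum_nonneg fun i _ => LE_rightL_ind_nonneg _ _

theorem LE_rightL (q : ℝ) (h0 : 0 < q) (h1 : q < 1) (μ : Fam) (N t L : ℕ)
    (hN : t + L + 1 ≤ N) :
    ∑ z ∈ W N, ind (fun z => z t = false ∧ ∃ j, t < j ∧ j ≤ t + L ∧ z j = true) z *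
        |q * μ.p N z - (1 - q) * μ.p N (up z t true)|
      ≤ L * (1 / q) ^ L * ∑ j ∈ Finset.Icc t (t + L), Db q μ N j := by
  have hq1 : 1 ≤ 1 / q := by
    rw [le_div_iff₀ h0]; linarith
  calc ∑ z ∈ W N, ind (fun z => z t = false ∧ ∃ j, t < j ∧ j ≤ t + L ∧ z j = true) z *
        |q * μ.p N z - (1 - q) * μ.p N (up z t true)|
      ≤ ∑ z ∈ W N, ∑ i ∈ Finset.Icc 1 L, ind (fun z => z t = false ∧ z (t + i) = true ∧
        ∀ j, t < j → j < t + i → z j = false) z *
        |q * μ.p N z - (1 - q) * μ.p N (up z t true)| := by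
        refine Finset.sum_le_sum fun z _ => ?_
        rw [← Finset.sum_mul]
        exact mul_le_mul_of_nonneg_right (LE_rightL_le t L z) (abs_nonneg _)
    _ = ∑ i ∈ Finset.Icc 1 L, ∑ z ∈ W N, ind (fun z => z t = false ∧ z (t + i) = true ∧
        ∀ j, t < j → j < t + i → z j = false) z *
        |q * μ.p N z - (1 - q) * μ.p N (up z t true)| := Finset.sum_comm
    _ ≤ ∑ i ∈ Finset.Icc 1 L, (1 / q) ^ L * ∑ j ∈ Finset.Icc t (t + L), Db q μ N j := by
        refine Finset.sum_le_sum fun i hi => ?_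
        obtain ⟨hi1, hi2⟩ := Finset.mem_Icc.1 hi
        refine (LE_right q h0 h1 μ N t i hi1 (by omega)).trans ?_
        refine mul_le_mul (pow_le_pow_right₀ hq1 hi2) ?_
          (Finset.sum_nonneg fun j _ => Db_nonneg q μ N j) (by positivity)
        refine Finset.sum_le_sum_of_subset_of_nonneg ?_ fun j _ _ => Db_nonneg q μ N j
        exact Finset.Icc_subset_Icc le_rfl (by omega)
    _ = L * (1 / q) ^ L * ∑ j ∈ Finset.Icc t (t + L), Db q μ N j := by
        rw [Finset.sum_const, Nat.card_Icc, nsmul_eq_mul, Nat.add_sub_cancel]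
        ring

end FAF
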