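import Pool.Agent.Helper769.FAF.Base
import Pool.Agent.Helper769.FAF.P_Ph_add

set_option autoImplicit false
set_option linter.unusedSectionVars false

open Finset Filter Topology

noncomputable section

namespace FAF

theorem Pf_mono_cons (z : Env) (n : ℕ) (b : Bool) :
    cons true (up z n b) = up (cons true z) (n + 1) b := by
  funext k
  unfold cons up
  rcases Nat.eq_zero_or_pos k with rfl | hk
  · simp
  · have h1 : k ≠ 0 := by omega
    simp only [if_neg h1]
    by_cases h2 : k = n + 1
    · subst h2; simp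
    · have h3 : k - 1 ≠ n := by omega
      rw [if_neg h2, if_neg h3]

theorem Pf_mono (q : ℝ) (h0 : 0 < q) (h1 : q < 1) (μ : Fam) (hp : ∀ n z, 0 < μ.p n z)
    (n : ℕ) : Pf q μ n ≤ Pf q μ (n + 1) := by
  unfold Pf
  rw [sum_succ]
  apply Finset.sum_le_sum
  intro z _
  rw [Pf_mono_cons, Pf_mono_cons, μ.con n z, μ.con (n + 1) (cons true z), mul_add, mul_add]
  have h2 : 0 < 1 - q := by linarith
  exact Ph_add _ _ _ _ (mul_pos h0 (hp _ _)) (mul_pos h2 (hp _ _)) (mul_pos h0 (hp _ _))
    (mul_pos h2 (hp _ _))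

end FAF
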