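import Pool.Agent.Helper769.FAF.Base

set_option autoImplicit false
set_option linter.unusedSectionVars false

open Finset Filter Topology

noncomputable section

namespace FAF

theorem Ph_eq (a b : ℝ) (ha : 0 < a) (hb : 0 < b) (h : Ph a b ≤ 0) : a = b := by
  unfold Ph at h
  rcases lt_trichotomy a b with hlt | heq | hgt
  · exfalso
    have h1 := Real.log_lt_log ha hlt
    have h2 : 0 < (a - b) * (Real.log a - Real.log b) :=
      mul_pos_of_neg_of_neg (by linarith) (by linarith)
    linarith
  · exact heq
  · exfalso
    have h1 := Real.log_lt_log hb hgt
    have h2 : 0 < (a - b) * (Real.log a - Real.log b) :=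
      mul_pos (by linarith) (by linarith)
    linarith

end FAF
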