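import Pool.Agent.Helper769.FAF.TDefs
import Pool.Agent.Helper769.FAF.Base

set_option autoImplicit false
set_option linter.unusedSectionVars false

open Finset Filter Topology

noncomputable section

namespace FAF

theorem UU_bounds (th : ℝ) (V : Env → ℝ) (hV : ∀ z, 1 / 2 ≤ V z) (hV2 : ∀ z, V z ≤ 2) (e : ℤ → ℤ)
    (S : Finset ℤ) (hne : S.Nonempty) :
    Real.exp (th * fi e S) ≤ 2 * UU th V e S ∧ UU th V e S ≤ 2 * Real.exp (th * fi e S) := by
  unfold UU
  rw [if_pos hne]
  have h1 : 0 < Real.exp (th * fi e S) := Real.exp_pos _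
  have h2 := mul_le_mul_of_nonneg_left (hV (env e S)) h1.le
  have h3 := mul_le_mul_of_nonneg_left (hV2 (env e S)) h1.le
  constructor <;> linarith

end FAF
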