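import Pool.Agent.Helper769.FAF.TDefs
import Pool.Agent.Helper769.FAF.Base

set_option autoImplicit false
set_option linter.unusedSectionVars false

open Finset Filter Topology

noncomputable section

namespace FAF

theorem UU_nonneg (th : ℝ) (V : Env → ℝ) (hV : ∀ z, 1 / 2 ≤ V z) (e : ℤ → ℤ) (S : Finset ℤ) :
    0 ≤ UU th V e S := by
  unfold UU
  split_ifs
  · have := hV (env e S)
    have h2 : 0 ≤ V (env e S) := by linarith
    positivity
  · exact le_rfl

end FAF
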