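import Pool.Agent.Helper769.FAF.TDefs
import Pool.Agent.Helper769.FAF.Base

set_option autoImplicit false
set_option linter.unusedSectionVars false

open Finset Filter Topology

noncomputable section

namespace FAF

theorem fi_spec {e : ℤ → ℤ} {S : Finset ℤ} (h : ∃ k : ℕ, e k ∈ S) :
    e (fi e S) ∈ S ∧ ∀ k : ℕ, k < fi e S → e k ∉ S := by
  classical
  have h1 : fi e S = Nat.find h := by
    unfold fi
    rw [dif_pos h]
  rw [h1]
  exact ⟨Nat.find_spec h, fun k hk => Nat.find_min h hk⟩

end FAF
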