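import Pool.Agent.Helper769.FAF.TDefs
import Pool.Agent.Helper769.FAF.Base
import Pool.Agent.Helper769.FAF.P_fi_spec

set_option autoImplicit false
set_option linter.unusedSectionVars false

open Finset Filter Topology

noncomputable section

namespace FAF

theorem fi_eq {e : ℤ → ℤ} {S : Finset ℤ} (i : ℕ) (h : e i ∈ S) (h' : ∀ k : ℕ, k < i → e k ∉ S) :
    fi e S = i := by
  obtain ⟨h1, h2⟩ := fi_spec ⟨i, h⟩
  rcases lt_trichotomy (fi e S) i with h3 | h3 | h3
  · exact absurd h1 (h' _ h3)
  · exact h3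
  · exact absurd h (h2 _ h3)

end FAF
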