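import Pool.Agent.Helper769.FAF.TDefs
import Pool.Agent.Helper769.FAF.Base

set_option autoImplicit false
set_option linter.unusedSectionVars false

open Finset Filter Topology

noncomputable section

namespace FAF

theorem fi_ex {N : ℕ} {X : Finset ℤ} {e : ℤ → ℤ} (hE : Enum N X e) {S : Finset ℤ} (hS : S ⊆ X)
    (hne : S.Nonempty) : ∃ k : ℕ, e k ∈ S := by
  obtain ⟨x, hx⟩ := hne
  obtain ⟨k, _, hk⟩ := hE.surj x (hS hx)
  exact ⟨k, by rw [hk]; exact hx⟩

end FAF
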