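import Pool.Agent.Helper769.FAF.TDefs
import Pool.Agent.Helper769.FAF.Base
import Pool.Agent.Helper769.FAF.P_fi_spec

set_option autoImplicit false
set_option linter.unusedSectionVars false

open Finset Filter Topology

noncomputable section

namespace FAF

theorem fi_le {e : ℤ → ℤ} {S : Finset ℤ} (i : ℕ) (h : e i ∈ S) : fi e S ≤ i := by
  by_contra hcon
  push Not at hcon
  exact (fi_spec ⟨i, h⟩).2 i hcon h

end FAF
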