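import Pool.Agent.Helper769.FAF.TDefs
import Pool.Agent.Helper769.FAF.Base
import Pool.Agent.Helper769.FAF.P_fi_ex
import Pool.Agent.Helper769.FAF.P_fi_spec
import Pool.Agent.Helper769.FAF.P_fi_le

set_option autoImplicit false
set_option linter.unusedSectionVars false

open Finset Filter Topology

noncomputable section

namespace FAF

theorem fi_lt {N : ℕ} {X : Finset ℤ} {e : ℤ → ℤ} (hE : Enum N X e) {S : Finset ℤ} (hS : S ⊆ X)
    (hne : S.Nonempty) : fi e S < N := by
  obtain ⟨x, hx⟩ := hne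
  obtain ⟨k, hk, hkx⟩ := hE.surj x (hS hx)
  exact lt_of_le_of_lt (fi_le k (by rw [hkx]; exact hx)) hk

end FAF
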