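import Pool.Agent.Helper769.FAF.TDefs
import Pool.Agent.Helper769.FAF.Base
import Pool.Agent.Helper769.FAF.P_fi_spec
import Pool.Agent.Helper769.FAF.P_fi_eq
import Pool.Agent.Helper769.FAF.P_fi_le
import Pool.Agent.Helper769.FAF.P_fi_ex
import Pool.Agent.Helper769.FAF.P_fi_lt

set_option autoImplicit false
set_option linter.unusedSectionVars false

open Finset Filter Topology

noncomputable section

namespace FAF

theorem U_far_ne {N : ℕ} {X : Finset ℤ} {e : ℤ → ℤ} (hE : Enum N X e) (k : ℕ) (l : ℤ)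
    (h0 : 0 ≤ l) (hl : l < k) (hkN : k < N) : e l ≠ e k := by
  intro h
  have h1 := (hE.per l k).1 h
  have h2 : (N : ℤ) ∣ k - l := by
    have := (dvd_neg (α := ℤ)).2 h1
    rwa [neg_sub] at this
  have h3 := Int.le_of_dvd (by omega) h2
  omega

theorem U_far_main {e : ℤ → ℤ} {S T : Finset ℤ} (th : ℝ) (m : ℕ) (V : Env → ℝ) (hV : Dep m V)
    (hne : ∃ k : ℕ, e k ∈ S)
    (hST : ∀ l : ℤ, 0 ≤ l → l ≤ fi e S + m → (e l ∈ T ↔ e l ∈ S)) :
    UU th V e T = UU th V e S := by
  obtain ⟨h1, h2⟩ := fi_spec hne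
  have hT : e (fi e S) ∈ T := (hST _ (by positivity) (by omega)).2 h1
  have hfi : fi e T = fi e S := by
    apply fi_eq _ hT
    intro k hk hkT
    exact h2 k hk ((hST _ (by positivity) (by omega)).1 hkT)
  have hSn : S.Nonempty := ⟨_, h1⟩
  have hTn : T.Nonempty := ⟨_, hT⟩
  have hVe : V (env e T) = V (env e S) := by
    apply hV
    intro j hj
    simp only [env, hfi]
    rw [decide_eq_decide]
    exact hST _ (by positivity) (by omega)
  simp only [UU, hSn, hTn, if_true, hfi, hVe]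

theorem U_far {N : ℕ} {X : Finset ℤ} {e : ℤ → ℤ} (hE : Enum N X e) {S : Finset ℤ} (hS : S ⊆ X)
    (hne : S.Nonempty) (th : ℝ) (m : ℕ) (V : Env → ℝ) (hV : Dep m V) (k : ℕ)
    (hk : fi e S + m + 1 ≤ k) (hkN : k < N) :
    UU th V e (insert (e k) S) = UU th V e S ∧ UU th V e (S.erase (e k)) = UU th V e S := by
  have hex := fi_ex hE hS hne
  constructor
  · apply U_far_main th m V hV hex
    intro l h0 hl
    have := U_far_ne hE k l h0 (by omega) hkN
    simp [this]
  · apply U_far_main th m V hV hex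
    intro l h0 hl
    have := U_far_ne hE k l h0 (by omega) hkN
    simp [this]

end FAF
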