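import Pool.Agent.Helper769.FAF.TDefs
import Pool.Agent.Helper769.FAF.Base
import Pool.Agent.Helper769.FAF.P_fi_spec
import Pool.Agent.Helper769.FAF.P_fi_eq
import Pool.Agent.Helper769.FAF.P_fi_le
import Pool.Agent.Helper769.FAF.P_fi_ex
import Pool.Agent.Helper769.FAF.P_fi_lt

set_option autoImplicit false
set_option linter.unusedSectionVars false

open Finset Filter Topology

noncomputable section

namespace FAF

theorem U_front {N : ℕ} {X : Finset ℤ} {e : ℤ → ℤ} (hE : Enum N X e) {S : Finset ℤ} (hS : S ⊆ X)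
    (hne : S.Nonempty) (th : ℝ) (m : ℕ) (V : Env → ℝ) (hV : Dep m V) (i : ℕ) (hi : fi e S = i + 1)
    (hN : i + 1 + m + 2 ≤ N) :
    e (i + 1) ∈ S ∧ ce e (i + 1) S = (if env e S 0 = true then 1 else 0) ∧
      (env e S 0 = true →
        UU th V e (S.erase (e (i + 1))) = Real.exp (th * (i + 2)) * V (tl (env e S))) := by
  classical
  have hex := fi_ex hE hS hne
  obtain ⟨hs1, hs2⟩ := fi_spec hex
  rw [hi] at hs1 hs2
  have h1 : e ((i : ℤ) + 1) ∈ S := by exact_mod_cast hs1
  have hi0 : e (i : ℤ) ∉ S := hs2 i (by omega)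
  have hne2 : ∀ x y : ℤ, 0 < x - y → x - y < N → e x ≠ e y := by
    intro x y h0 hN' he
    have hd := (hE.per x y).1 he
    have := Int.le_of_dvd h0 hd
    omega
  have henv0 : (env e S 0 = true) ↔ e ((i : ℤ) + 2) ∈ S := by
    unfold env
    rw [hi, decide_eq_true_eq]
    have : ((i + 1 : ℕ) : ℤ) + 1 + ((0 : ℕ) : ℤ) = (i : ℤ) + 2 := by push_cast; ring
    rw [this]
  refine ⟨h1, ?_, ?_⟩
  · unfold ce
    have e1 : (i : ℤ) + 1 - 1 = i := by ring
    have e2 : (i : ℤ) + 1 + 1 = i + 2 := by ring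
    rw [e1, e2]
    by_cases h : env e S 0 = true
    · rw [if_pos h, if_pos (Or.inr (henv0.1 h))]
    · rw [if_neg h, if_neg]
      rintro (h' | h')
      · exact hi0 h'
      · exact h (henv0.2 h')
  · intro h
    have h2 := henv0.1 h
    have hne12 : e ((i : ℤ) + 2) ≠ e ((i : ℤ) + 1) := hne2 _ _ (by ring_nf; norm_num) (by
      have : (i : ℤ) + 2 - (i + 1) = 1 := by ring
      rw [this]
      have : (3 : ℤ) ≤ N := by
        have : 3 ≤ N := by omega
        exact_mod_cast this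
      omega)
    have hmem : e ((i : ℤ) + 2) ∈ S.erase (e ((i : ℤ) + 1)) := Finset.mem_erase.2 ⟨hne12, h2⟩
    have hfi : fi e (S.erase (e ((i : ℤ) + 1))) = i + 2 := by
      refine fi_eq (i + 2) (by push_cast; exact hmem) ?_
      intro k hk hmem'
      obtain ⟨hk1, hk2⟩ := Finset.mem_erase.1 hmem'
      by_cases hki : k = i + 1
      · subst hki
        exact hk1 (by push_cast; rfl)
      · exact hs2 k (by omega) hk2
    unfold UU
    rw [if_pos ⟨_, hmem⟩, hfi]
    congr 1
    · push_cast; rfl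
    · refine hV _ _ fun j hj => ?_
      unfold tl env
      rw [hfi, hi]
      have ea : ((i + 2 : ℕ) : ℤ) + 1 + (j : ℤ) = (i : ℤ) + 3 + j := by push_cast; ring
      have eb : ((i + 1 : ℕ) : ℤ) + 1 + ((j + 1 : ℕ) : ℤ) = (i : ℤ) + 3 + j := by push_cast; ring
      rw [ea, eb]
      have hne3 : e ((i : ℤ) + 3 + j) ≠ e ((i : ℤ) + 1) := by
        refine hne2 _ _ (by omega) ?_
        have : i + 1 + m + 2 ≤ N := hN
        omega
      simp [Finset.mem_erase, hne3]

end FAF
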