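import Pool.Agent.Helper769.FAF.TDefs
import Pool.Agent.Helper769.FAF.Base
import Pool.Agent.Helper769.FAF.P_fi_spec
import Pool.Agent.Helper769.FAF.P_fi_eq
import Pool.Agent.Helper769.FAF.P_fi_le
import Pool.Agent.Helper769.FAF.P_fi_ex
import Pool.Agent.Helper769.FAF.P_fi_lt

set_option autoImplicit false
set_option linter.unusedSectionVars false

open Finset Filter Topology

noncomputable section

namespace FAF

theorem U_step {N : ℕ} {X : Finset ℤ} {e : ℤ → ℤ} (hE : Enum N X e) {S : Finset ℤ} (hS : S ⊆ X)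
    (hne : S.Nonempty) (th : ℝ) (m : ℕ) (V : Env → ℝ) (hV : Dep m V) (i : ℕ) (hi : fi e S = i + 1)
    (hN : i + 1 + m + 2 ≤ N) :
    ce e i S = 1 ∧ e i ∉ S ∧
      UU th V e (insert (e i) S) = Real.exp (th * i) * V (cons true (env e S)) := by
  have hex := fi_ex hE hS hne
  obtain ⟨h1, h2⟩ := fi_spec hex
  rw [hi] at h1 h2
  have h1' : e ((i : ℤ) + 1) ∈ S := by
    have e1 : (((i + 1 : ℕ)) : ℤ) = (i : ℤ) + 1 := by push_cast; ring
    rwa [e1] at h1
  have hne' : ∀ k : ℤ, 0 < k → k < N → e ((i : ℤ) + k) ≠ e i := by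
    intro k hk0 hkN heq
    have hd := (hE.per _ _).1 heq
    have e1 : (i : ℤ) + k - i = k := by ring
    rw [e1] at hd
    have := Int.le_of_dvd hk0 hd
    omega
  refine ⟨?_, h2 i (Nat.lt_succ_self i), ?_⟩
  · unfold ce
    rw [if_pos (Or.inr h1')]
  · have hfi : fi e (insert (e i) S) = i := by
      refine fi_eq i (Finset.mem_insert_self _ _) fun k hk hmem => ?_
      rcases Finset.mem_insert.1 hmem with h3 | h3
      · have hd := (hE.per _ _).1 h3.symm
        have := Int.le_of_dvd (by omega) hd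
        omega
      · exact h2 k (by omega) h3
    unfold UU
    rw [if_pos (Finset.insert_nonempty _ _), hfi]
    congr 1
    refine hV _ _ fun j hj => ?_
    have h4 : env e (insert (e i) S) j = decide (e ((i : ℤ) + 1 + j) ∈ insert (e i) S) := by
      unfold env
      rw [hfi]
    rw [h4]
    rcases Nat.eq_zero_or_pos j with h0 | h0
    · subst h0
      have e1 : (i : ℤ) + 1 + ((0 : ℕ) : ℤ) = (i : ℤ) + 1 := by push_cast; ring
      rw [e1]
      simp [cons, h1']
    · have h5 : cons true (env e S) j = env e S (j - 1) := by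
        unfold cons
        rw [if_neg (by omega)]
      have h6 : env e S (j - 1) = decide (e ((i : ℤ) + 1 + j) ∈ S) := by
        unfold env
        rw [hi]
        have e1 : (((i + 1 : ℕ)) : ℤ) + 1 + ((j - 1 : ℕ) : ℤ) = (i : ℤ) + 1 + j := by omega
        rw [e1]
      rw [h5, h6]
      have h7 : e ((i : ℤ) + 1 + j) ≠ e i := by
        have := hne' (1 + j) (by omega) (by omega)
        rwa [← add_assoc] at this
      simp [Finset.mem_insert, h7]

end FAF
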