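import Pool.Agent.Helper769.FAF.TDefs
import Pool.Agent.Helper769.FAF.Base
import Pool.Agent.Helper769.FAF.P_fi_spec
import Pool.Agent.Helper769.FAF.P_fi_eq
import Pool.Agent.Helper769.FAF.P_fi_le
import Pool.Agent.Helper769.FAF.P_fi_ex
import Pool.Agent.Helper769.FAF.P_fi_lt

set_option autoImplicit false
set_option linter.unusedSectionVars false

open Finset Filter Topology

noncomputable section

namespace FAF

theorem U_win_ne {N : ℕ} {X : Finset ℤ} {e : ℤ → ℤ} (hE : Enum N X e) (k l : ℤ) (h1 : l < k)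
    (h2 : k < l + N) : e l ≠ e k := by
  intro h
  have h3 := (hE.per l k).1 h
  obtain ⟨c, hc⟩ := h3
  have hN : (0 : ℤ) < N := by omega
  have h4 : (N : ℤ) * c < 0 := by omega
  have h5 : (N : ℤ) * (-1) < (N : ℤ) * c := by omega
  have h6 : -1 < c := lt_of_mul_lt_mul_left h5 hN.le
  have h7 : c < 0 := by
    by_contra hcon
    have : 0 ≤ (N : ℤ) * c := mul_nonneg hN.le (not_lt.1 hcon)
    omega
  omega

theorem U_win_ne' {N : ℕ} {X : Finset ℤ} {e : ℤ → ℤ} (hE : Enum N X e) (k l : ℤ) (h1 : l ≠ k)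
    (h2 : k < l + N) (h3 : l < k + N) : e l ≠ e k := by
  rcases lt_or_gt_of_ne h1 with h | h
  · exact U_win_ne hE k l h h2
  · exact (U_win_ne hE l k h h3).symm

theorem U_win {N : ℕ} {X : Finset ℤ} {e : ℤ → ℤ} (hE : Enum N X e) {S : Finset ℤ} (hS : S ⊆ X)
    (hne : S.Nonempty) (th : ℝ) (m : ℕ) (V : Env → ℝ) (hV : Dep m V)
    (hN : fi e S + m + 2 ≤ N) (j : ℕ) (hj : j < m) :
    ce e (fi e S + 1 + j) S = cr (env e S) j ∧
      UU th V e (insert (e (fi e S + 1 + j)) S)
        = Real.exp (th * fi e S) * V (up (env e S) j true) ∧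
      UU th V e (S.erase (e (fi e S + 1 + j)))
        = Real.exp (th * fi e S) * V (up (env e S) j false) := by
  have hsp := fi_spec (fi_ex hE hS hne)
  obtain ⟨i, hi⟩ : ∃ i, i = fi e S := ⟨_, rfl⟩
  have henv : ∀ l : ℕ, env e S l = decide (e ((i : ℤ) + 1 + l) ∈ S) := by
    intro l
    unfold env
    rw [hi]
  rw [← hi] at hsp hN ⊢
  obtain ⟨hs1, hs2⟩ := hsp
  refine ⟨?_, ?_, ?_⟩
  · unfold ce cr
    rw [henv, henv]
    simp only [decide_eq_true_eq]
    have e2 : ((i : ℤ) + 1 + ((j + 1 : ℕ) : ℤ)) = (i : ℤ) + 1 + j + 1 := by push_cast; ring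
    rw [e2]
    rcases Nat.eq_zero_or_pos j with h0 | h0
    · rw [if_pos (Or.inl (by
        rw [h0]
        have e3 : ((i : ℤ) + 1 + ((0 : ℕ) : ℤ)) - 1 = i := by push_cast; ring
        rw [e3]
        exact hs1)), if_pos (Or.inl h0)]
    · have e1 : ((i : ℤ) + 1 + ((j - 1 : ℕ) : ℤ)) = (i : ℤ) + 1 + j - 1 := by
        rw [Nat.cast_sub h0]
        push_cast
        ring
      rw [e1]
      have hj0 : ¬ (j = 0) := by omega
      simp only [hj0, false_or]
  · have hfi : fi e (insert (e ((i : ℤ) + 1 + j)) S) = i := by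
      apply fi_eq i (Finset.mem_insert_of_mem hs1)
      intro k hk hcon
      rcases Finset.mem_insert.1 hcon with h | h
      · exact U_win_ne hE ((i : ℤ) + 1 + j) k (by omega) (by omega) h
      · exact hs2 k hk h
    unfold UU
    rw [if_pos (Finset.insert_nonempty _ _), hfi]
    congr 1
    apply hV
    intro l hl
    unfold env
    rw [hfi]
    unfold up
    by_cases hlj : l = j
    · rw [if_pos hlj, hlj]
      simp
    · rw [if_neg hlj]
      have h1 : e ((i : ℤ) + 1 + l) ≠ e ((i : ℤ) + 1 + j) :=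
        U_win_ne' hE _ _ (by omega) (by omega) (by omega)
      rw [← hi]
      apply decide_eq_decide.2
      rw [Finset.mem_insert]
      exact ⟨fun h => h.resolve_left h1, fun h => Or.inr h⟩
  · have hik : e i ≠ e ((i : ℤ) + 1 + j) := U_win_ne hE _ _ (by omega) (by omega)
    have hmem : e i ∈ S.erase (e ((i : ℤ) + 1 + j)) := Finset.mem_erase.2 ⟨hik, hs1⟩
    have hfi : fi e (S.erase (e ((i : ℤ) + 1 + j))) = i := by
      apply fi_eq i hmem
      intro k hk hcon
      exact hs2 k hk (Finset.mem_of_mem_erase hcon)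
    unfold UU
    rw [if_pos ⟨_, hmem⟩, hfi]
    congr 1
    apply hV
    intro l hl
    unfold env
    rw [hfi]
    unfold up
    by_cases hlj : l = j
    · rw [if_pos hlj, hlj]
      simp
    · rw [if_neg hlj]
      have h1 : e ((i : ℤ) + 1 + l) ≠ e ((i : ℤ) + 1 + j) :=
        U_win_ne' hE _ _ (by omega) (by omega) (by omega)
      rw [← hi]
      apply decide_eq_decide.2
      rw [Finset.mem_erase]
      exact ⟨fun h => h.2, fun h => ⟨h1, h⟩⟩

end FAF
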