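import Pool.Agent.Helper769.FAF.Base
import Pool.Agent.Helper769.FAF.P_E_one
import Pool.Agent.Helper769.FAF.P_E_lift

set_option autoImplicit false
set_option linter.unusedSectionVars false

open Finset Filter Topology

noncomputable section

namespace FAF

theorem al_lower_log (x y : ℝ) (hx : 0 < x) (hy : 0 < y) :
    x - y ≤ x * (Real.log x - Real.log y) := by
  have h := Real.log_le_sub_one_of_pos (div_pos hy hx)
  rw [Real.log_div hy.ne' hx.ne'] at h
  have h2 : x * (Real.log y - Real.log x) ≤ x * (y / x - 1) := mul_le_mul_of_nonneg_left h hx.le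
  have h3 : x * (y / x - 1) = y - x := by field_simp
  rw [h3] at h2
  linarith

theorem al_lower_sqrt (x P : ℝ) (hx : 0 < x) (hP : 0 < P) :
    - Real.sqrt (P * x) ≤ x * (Real.log x - Real.log P) := by
  have hu : 0 < P / x := div_pos hP hx
  have hv : 0 < Real.sqrt (P / x) := Real.sqrt_pos.2 hu
  have h := Real.log_le_sub_one_of_pos (half_pos hv)
  rw [Real.log_div hv.ne' (by norm_num), Real.log_sqrt hu.le, Real.log_div hP.ne' hx.ne'] at h
  have h2 := Real.log_two_lt_d9
  have h3 : Real.log P - Real.log x ≤ Real.sqrt (P / x) := by linarith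
  have h4 : x * (Real.log P - Real.log x) ≤ x * Real.sqrt (P / x) :=
    mul_le_mul_of_nonneg_left h3 hx.le
  have h5 : x * Real.sqrt (P / x) = Real.sqrt (P * x) := by
    have : P * x = x ^ 2 * (P / x) := by field_simp
    rw [this, Real.sqrt_mul (by positivity), Real.sqrt_sq hx.le]
  rw [h5] at h4
  linarith

theorem al_lower (q : ℝ) (h0 : 0 < q) (h1 : q < 1) (μ : Fam) (hp : ∀ n z, 0 < μ.p n z)
    (n L : ℕ) (hL : L ≤ n) :
    - Real.log (1 - q) * μ.E n (ind (zr (n - L) L))
      - (2 - Real.log (1 - q)) * Real.sqrt (μ.E (n + 1) (ind (fun z => zr (n - L) L z ∧ z n = true)))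
    ≤ μ.E (n + 1) (al q μ n) := by
  classical
  have hq1 : 0 < 1 - q := by linarith
  have hl : 0 ≤ - Real.log (1 - q) := by
    have := Real.log_nonpos hq1.le (by linarith)
    linarith
  have hlq : 0 ≤ - Real.log q := by
    have := Real.log_nonpos h0.le h1.le
    linarith
  -- notation
  set x0 : Env → ℝ := fun w => μ.p (n + 1) (up w n false) with hx0
  set x1 : Env → ℝ := fun w => μ.p (n + 1) (up w n true) with hx1
  set iz : Env → ℝ := ind (zr (n - L) L) with hiz
  have hx0p : ∀ w, 0 < x0 w := fun w => hp _ _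
  have hx1p : ∀ w, 0 < x1 w := fun w => hp _ _
  have hP : ∀ w, μ.p n w = x0 w + x1 w := fun w => μ.con n w
  have hPp : ∀ w, 0 < μ.p n w := fun w => hp _ _
  have hup : ∀ w b, μ.p n (up w n b) = μ.p n w := by
    intro w b
    apply μ.dep n
    intro i hi
    simp only [up]
    rw [if_neg hi.ne]
  have hupn : ∀ (w : Env) b, up w n b n = b := by
    intro w b; simp [up]
  have hzr : ∀ (w : Env) b, zr (n - L) L (up w n b) ↔ zr (n - L) L w := by
    intro w b
    unfold zr
    constructor
    · intro h j hj1 hj2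
      have := h j hj1 hj2
      have hjn : j ≠ n := by omega
      simpa [up, hjn] using this
    · intro h j hj1 hj2
      have := h j hj1 hj2
      have hjn : j ≠ n := by omega
      simpa [up, hjn] using this
  have hi01 : ∀ w, iz w = 0 ∨ iz w = 1 := by
    intro w
    by_cases h : zr (n - L) L w
    · right; simp [hiz, ind, h]
    · left; simp [hiz, ind, h]
  have hi0 : ∀ w, 0 ≤ iz w := fun w => by rcases hi01 w with h | h <;> rw [h] <;> norm_num
  have hi1 : ∀ w, iz w ≤ 1 := fun w => by rcases hi01 w with h | h <;> rw [h] <;> norm_num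
  -- expectation of al
  have hal : μ.E (n + 1) (al q μ n) = ∑ w ∈ W n,
      (x0 w * (Real.log (x0 w) - Real.log (μ.p n w) - Real.log (1 - q))
        + x1 w * (Real.log (x1 w) - Real.log (μ.p n w) - Real.log q)) := by
    unfold Fam.E
    rw [sum_succ]
    apply Finset.sum_congr rfl
    intro w _
    simp only [al, hup, hupn, rb]
    simp [hx0, hx1]
  have hEn : μ.E n iz = ∑ w ∈ W n, iz w * μ.p n w := by
    unfold Fam.E
    apply Finset.sum_congr rfl
    intro w _
    ring
  have hEn1 : μ.E (n + 1) (ind (fun z => zr (n - L) L z ∧ z n = true)) =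
      ∑ w ∈ W n, iz w * x1 w := by
    unfold Fam.E
    rw [sum_succ]
    apply Finset.sum_congr rfl
    intro w _
    simp only [ind, hzr, hupn, hiz]
    by_cases h : zr (n - L) L w
    · simp [h, hx1]
    · simp [h]
  rw [hal, hEn, hEn1]
  have hone : ∑ w ∈ W n, iz w * μ.p n w ≤ 1 := by
    have h := E_one μ n
    unfold Fam.E at h
    rw [← h]
    apply Finset.sum_le_sum
    intro w _
    have := hi1 w
    nlinarith [hPp w]
  -- pointwise
  have hpt : ∀ w, iz w * (- Real.log (1 - q) * μ.p n w)
      - (2 - Real.log (1 - q)) * (Real.sqrt (iz w * μ.p n w) * Real.sqrt (iz w * x1 w)) ≤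
      x0 w * (Real.log (x0 w) - Real.log (μ.p n w) - Real.log (1 - q))
        + x1 w * (Real.log (x1 w) - Real.log (μ.p n w) - Real.log q) := by
    intro w
    have ha := hx0p w
    have hb := hx1p w
    have hPw := hPp w
    have hPe := hP w
    rcases hi01 w with h | h
    · rw [h]
      have e1 := al_lower_log (x0 w) (μ.p n w * (1 - q)) ha (mul_pos hPw hq1)
      have e2 := al_lower_log (x1 w) (μ.p n w * q) hb (mul_pos hPw h0)
      rw [Real.log_mul hPw.ne' hq1.ne'] at e1
      rw [Real.log_mul hPw.ne' h0.ne'] at e2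
      simp only [zero_mul, Real.sqrt_zero, mul_zero, sub_zero]
      have e3 : x0 w * (Real.log (x0 w) - Real.log (μ.p n w) - Real.log (1 - q)) =
        x0 w * (Real.log (x0 w) - (Real.log (μ.p n w) + Real.log (1 - q))) := by ring
      have e4 : x1 w * (Real.log (x1 w) - Real.log (μ.p n w) - Real.log q) =
        x1 w * (Real.log (x1 w) - (Real.log (μ.p n w) + Real.log q)) := by ring
      rw [e3, e4]
      nlinarith
    · rw [h]
      simp only [one_mul]
      rw [← Real.sqrt_mul hPw.le]
      have e1 := al_lower_sqrt (x1 w) (μ.p n w) hb hPw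
      have e2 := al_lower_log (x0 w) (μ.p n w) ha hPw
      have e3 : x1 w ≤ Real.sqrt (μ.p n w * x1 w) := by
        apply Real.le_sqrt_of_sq_le
        nlinarith
      have e4 : 0 ≤ x1 w * (- Real.log q) := mul_nonneg hb.le hlq
      have e5 : (- Real.log (1 - q)) * x1 w ≤
          (- Real.log (1 - q)) * Real.sqrt (μ.p n w * x1 w) :=
        mul_le_mul_of_nonneg_left e3 hl
      have e6 : x0 w = μ.p n w - x1 w := by linarith
      have e7 : x0 w * (Real.log (x0 w) - Real.log (μ.p n w) - Real.log (1 - q)) =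
        x0 w * (Real.log (x0 w) - Real.log (μ.p n w)) + (μ.p n w - x1 w) * (- Real.log (1 - q)) := by
        rw [← e6]; ring
      have e8 : x1 w * (Real.log (x1 w) - Real.log (μ.p n w) - Real.log q) =
        x1 w * (Real.log (x1 w) - Real.log (μ.p n w)) + x1 w * (- Real.log q) := by ring
      rw [e7, e8]
      nlinarith
  have hcs := Real.sum_sqrt_mul_sqrt_le (W n) (f := fun w => iz w * μ.p n w)
    (g := fun w => iz w * x1 w) (fun w => mul_nonneg (hi0 w) (hPp w).le)
    (fun w => mul_nonneg (hi0 w) (hx1p w).le)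
  have hs1 : Real.sqrt (∑ w ∈ W n, iz w * μ.p n w) ≤ 1 := by
    rw [Real.sqrt_le_left (by norm_num)]
    linarith
  have hs2 : Real.sqrt (∑ w ∈ W n, iz w * μ.p n w) * Real.sqrt (∑ w ∈ W n, iz w * x1 w) ≤
      Real.sqrt (∑ w ∈ W n, iz w * x1 w) := by
    have := Real.sqrt_nonneg (∑ w ∈ W n, iz w * x1 w)
    nlinarith
  have hsum := Finset.sum_le_sum (s := W n) (fun w _ => hpt w)
  rw [Finset.sum_sub_distrib, ← Finset.mul_sum] at hsum
  have hA : ∑ w ∈ W n, iz w * (- Real.log (1 - q) * μ.p n w) =
      - Real.log (1 - q) * ∑ w ∈ W n, iz w * μ.p n w := by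
    rw [Finset.mul_sum]
    apply Finset.sum_congr rfl
    intro w _
    ring
  rw [hA] at hsum
  have h2l : 0 ≤ 2 - Real.log (1 - q) := by linarith
  have hB := mul_le_mul_of_nonneg_left (hcs.trans hs2) h2l
  refine le_trans ?_ hsum
  linarith

end FAF
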