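import Pool.Agent.Helper769.FAF.Base
import Pool.Agent.Helper769.FAF.P_E_one
import Pool.Agent.Helper769.FAF.P_E_lift

set_option autoImplicit false
set_option linter.unusedSectionVars false

open Finset Filter Topology

noncomputable section

namespace FAF

theorem al_upper_r1 (q x0 x1 w0 w1 : ℝ) (h0 : 0 < q) (h1 : q < 1) (hx0 : 0 < x0) (hx1 : 0 < x1)
    (hw0 : 0 < w0) (hw1 : 0 < w1) (hw : w0 + w1 = 1) :
    x0 * (Real.log w0 - Real.log (1 - q)) + x1 * (Real.log w1 - Real.log q) ≤
      - Real.log (1 - q) * (x0 + x1) + Real.log (1 / q) * x1 := by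
  have a0 : Real.log w0 ≤ 0 := Real.log_nonpos hw0.le (by linarith)
  have a1 : Real.log w1 ≤ 0 := Real.log_nonpos hw1.le (by linarith)
  have a2 : Real.log (1 - q) ≤ 0 := Real.log_nonpos (by linarith) (by linarith)
  have a3 : Real.log (1 / q) = - Real.log q := by rw [one_div, Real.log_inv]
  rw [a3]
  nlinarith [mul_nonpos_of_nonneg_of_nonpos hx0.le a0, mul_nonpos_of_nonneg_of_nonpos hx1.le a1,
    mul_nonpos_of_nonneg_of_nonpos hx1.le a2]

theorem al_upper_gibbs (x w X : ℝ) (hx : 0 < x) (hw : 0 < w) (hX : 0 < X) :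
    x * Real.log w ≤ x * Real.log (x / X) + (w * X - x) := by
  have h := Real.log_le_sub_one_of_pos (show 0 < w * X / x by positivity)
  have h2 : Real.log (w * X / x) = Real.log w - Real.log (x / X) := by
    rw [Real.log_div (by positivity) hx.ne', Real.log_mul hw.ne' hX.ne',
      Real.log_div hx.ne' hX.ne']
    ring
  rw [h2] at h
  have h3 := mul_le_mul_of_nonneg_left h hx.le
  have h4 : x * (w * X / x - 1) = w * X - x := by field_simp
  rw [h4] at h3
  linarith

theorem al_upper_r2 (q x0 x1 w0 w1 : ℝ) (h0 : 0 < q) (h1 : q < 1) (hx0 : 0 < x0) (hx1 : 0 < x1)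
    (hw0 : 0 < w0) (hw1 : 0 < w1) (hw : w0 + w1 = 1) :
    x0 * (Real.log w0 - Real.log (1 - q)) + x1 * (Real.log w1 - Real.log q) ≤
      1 / (q * (1 - q)) * |x1 - q * (x0 + x1)| := by
  have hX : 0 < x0 + x1 := by linarith
  have hq : 0 < 1 - q := by linarith
  have g0 := al_upper_gibbs x0 w0 (x0 + x1) hx0 hw0 hX
  have g1 := al_upper_gibbs x1 w1 (x0 + x1) hx1 hw1 hX
  have k0 := Real.log_le_sub_one_of_pos (show 0 < x0 / (x0 + x1) / (1 - q) by positivity)
  have k1 := Real.log_le_sub_one_of_pos (show 0 < x1 / (x0 + x1) / q by positivity)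
  rw [Real.log_div (by positivity) hq.ne'] at k0
  rw [Real.log_div (by positivity) h0.ne'] at k1
  have k0' := mul_le_mul_of_nonneg_left k0 hx0.le
  have k1' := mul_le_mul_of_nonneg_left k1 hx1.le
  have hs : w0 * (x0 + x1) + w1 * (x0 + x1) = x0 + x1 := by rw [← add_mul, hw, one_mul]
  have e1 : x0 * (x0 / (x0 + x1) / (1 - q) - 1) + x1 * (x1 / (x0 + x1) / q - 1) =
      1 / (q * (1 - q)) * ((x1 - q * (x0 + x1)) ^ 2 / (x0 + x1)) := by
    field_simp
    ring
  have e2 : (x1 - q * (x0 + x1)) ^ 2 / (x0 + x1) ≤ |x1 - q * (x0 + x1)| := by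
    rw [div_le_iff₀ hX, ← sq_abs, sq]
    apply mul_le_mul_of_nonneg_left _ (abs_nonneg _)
    rw [abs_le]
    constructor <;> nlinarith
  have e3 := mul_le_mul_of_nonneg_left e2 (show 0 ≤ 1 / (q * (1 - q)) by positivity)
  nlinarith

theorem al_upper_ind_nonneg (P : Env → Prop) (z : Env) : 0 ≤ ind P z := by
  unfold ind; split_ifs <;> norm_num

theorem al_upper_ind_true {P : Env → Prop} {z : Env} (h : P z) : ind P z = 1 := by
  unfold ind; rw [if_pos h]

theorem al_upper_ind_false {P : Env → Prop} {z : Env} (h : ¬ P z) : ind P z = 0 := by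
  unfold ind; rw [if_neg h]

theorem al_upper_cons_up (τ : Env) (n : ℕ) (b c : Bool) :
    cons c (up τ n b) = up (cons c τ) (n + 1) b := by
  funext k
  rcases k with _ | k
  · simp [cons, up]
  · simp [cons, up]

theorem al_upper_tl_cons (τ : Env) (c : Bool) : tl (cons c τ) = τ := by
  funext k
  simp [cons, tl]

theorem al_upper_zr_up (n L : ℕ) (hL : L ≤ n) (z : Env) (b : Bool) :
    zr (n + 1 - L) L (up z (n + 1) b) ↔ zr (n + 1 - L) L z := by
  have : ∀ j, j < n + 1 - L + L → up z (n + 1) b j = z j := by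
    intro j hj
    have : j ≠ n + 1 := by omega
    simp [up, this]
  constructor
  · intro h j hj1 hj2
    rw [← this j hj2]; exact h j hj1 hj2
  · intro h j hj1 hj2
    rw [this j hj2]; exact h j hj1 hj2

theorem al_upper (q : ℝ) (h0 : 0 < q) (h1 : q < 1) (μ : Fam) (hp : ∀ n z, 0 < μ.p n z)
    (n L : ℕ) (hL : L ≤ n) :
    μ.E (n + 2) (fun z => if z 0 = true then al q μ n (tl z) else 0)
    ≤ - Real.log (1 - q) * μ.E (n + 1) (ind (fun z => z 0 = true ∧ zr (n + 1 - L) L z))
      + Real.log (1 / q) * μ.E (n + 2) (ind (fun z => zr (n + 1 - L) L z ∧ z (n + 1) = true))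
      + 1 / (q * (1 - q)) * ∑ z ∈ W (n + 1), ind (fun z => ¬ zr (n + 1 - L) L z) z *
          |μ.p (n + 2) (up z (n + 1) true) - q * μ.p (n + 1) z| := by
  have hq : 0 < 1 - q := by linarith
  have hl1 : 0 ≤ - Real.log (1 - q) := by
    have := Real.log_nonpos hq.le (by linarith)
    linarith
  have hl2 : 0 ≤ Real.log (1 / q) := by
    apply Real.log_nonneg
    rw [le_div_iff₀ h0]; linarith
  -- the right side
  let R : Env → ℝ := fun z =>
    - Real.log (1 - q) * (μ.p (n + 1) z * ind (fun z => z 0 = true ∧ zr (n + 1 - L) L z) z)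
    + Real.log (1 / q) * (μ.p (n + 2) (up z (n + 1) true) * ind (fun z => zr (n + 1 - L) L z) z)
    + 1 / (q * (1 - q)) * (ind (fun z => ¬ zr (n + 1 - L) L z) z *
          |μ.p (n + 2) (up z (n + 1) true) - q * μ.p (n + 1) z|)
  have hR0 : ∀ z, 0 ≤ R z := by
    intro z
    have a1 := al_upper_ind_nonneg (fun z => z 0 = true ∧ zr (n + 1 - L) L z) z
    have a2 := al_upper_ind_nonneg (fun z => zr (n + 1 - L) L z) z
    have a3 := al_upper_ind_nonneg (fun z => ¬ zr (n + 1 - L) L z) z
    have b1 := (hp (n + 1) z).le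
    have b2 := (hp (n + 2) (up z (n + 1) true)).le
    have b3 : 0 ≤ 1 / (q * (1 - q)) := by positivity
    have c1 := mul_nonneg hl1 (mul_nonneg b1 a1)
    have c2 := mul_nonneg hl2 (mul_nonneg b2 a2)
    have c3 := mul_nonneg b3 (mul_nonneg a3
      (abs_nonneg (μ.p (n + 2) (up z (n + 1) true) - q * μ.p (n + 1) z)))
    show 0 ≤ _ + _ + _
    linarith
  have hE2 : μ.E (n + 2) (ind (fun z => zr (n + 1 - L) L z ∧ z (n + 1) = true)) =
      ∑ z ∈ W (n + 1), μ.p (n + 2) (up z (n + 1) true) * ind (fun z => zr (n + 1 - L) L z) z := by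
    unfold Fam.E
    rw [sum_succ]
    apply Finset.sum_congr rfl
    intro z _
    have e1 : ind (fun z => zr (n + 1 - L) L z ∧ z (n + 1) = true) (up z (n + 1) false) = 0 := by
      apply al_upper_ind_false
      rintro ⟨_, h⟩
      simp [up] at h
    have e2 : ind (fun z => zr (n + 1 - L) L z ∧ z (n + 1) = true) (up z (n + 1) true) =
        ind (fun z => zr (n + 1 - L) L z) z := by
      by_cases hz : zr (n + 1 - L) L z
      · rw [al_upper_ind_true (P := fun z => zr (n + 1 - L) L z) hz]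
        apply al_upper_ind_true
        exact ⟨(al_upper_zr_up n L hL z true).2 hz, by simp [up]⟩
      · rw [al_upper_ind_false (P := fun z => zr (n + 1 - L) L z) hz]
        apply al_upper_ind_false
        rintro ⟨h, _⟩
        exact hz ((al_upper_zr_up n L hL z true).1 h)
    rw [e1, e2, mul_zero, zero_add]
  have hRHS : - Real.log (1 - q) * μ.E (n + 1) (ind (fun z => z 0 = true ∧ zr (n + 1 - L) L z))
      + Real.log (1 / q) * μ.E (n + 2) (ind (fun z => zr (n + 1 - L) L z ∧ z (n + 1) = true))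
      + 1 / (q * (1 - q)) * ∑ z ∈ W (n + 1), ind (fun z => ¬ zr (n + 1 - L) L z) z *
          |μ.p (n + 2) (up z (n + 1) true) - q * μ.p (n + 1) z| = ∑ z ∈ W (n + 1), R z := by
    rw [hE2]
    unfold Fam.E
    rw [Finset.mul_sum, Finset.mul_sum, Finset.mul_sum, ← Finset.sum_add_distrib,
      ← Finset.sum_add_distrib]
  rw [hRHS, sum_cons]
  -- the left side
  have hLHS : μ.E (n + 2) (fun z => if z 0 = true then al q μ n (tl z) else 0) =
      ∑ τ ∈ W n, (μ.p (n + 2) (up (cons true τ) (n + 1) false) * al q μ n (up τ n false)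
        + μ.p (n + 2) (up (cons true τ) (n + 1) true) * al q μ n (up τ n true)) := by
    unfold Fam.E
    rw [sum_cons, sum_succ]
    apply Finset.sum_congr rfl
    intro τ _
    simp only [al_upper_tl_cons, al_upper_cons_up]
    have e1 : ∀ b, (up (cons false τ) (n + 1) b) 0 = false := by intro b; simp [up, cons]
    have e2 : ∀ b, (up (cons true τ) (n + 1) b) 0 = true := by intro b; simp [up, cons]
    have e3 : ∀ b, tl (up (cons true τ) (n + 1) b) = up τ n b := by
      intro b
      rw [← al_upper_cons_up, al_upper_tl_cons]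
    simp [e1, e2, e3]
  rw [hLHS]
  apply Finset.sum_le_sum
  intro τ _
  refine le_trans ?_ (le_add_of_nonneg_left (hR0 (cons false τ)))
  -- the pointwise inequality
  set x0 := μ.p (n + 2) (up (cons true τ) (n + 1) false) with hx0
  set x1 := μ.p (n + 2) (up (cons true τ) (n + 1) true) with hx1
  have hX : μ.p (n + 1) (cons true τ) = x0 + x1 := μ.con (n + 1) (cons true τ)
  have hdep : ∀ b, μ.p n (up τ n b) = μ.p n τ := by
    intro b
    apply μ.dep n
    intro i hi
    have : i ≠ n := by omega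
    simp [up, this]
  have hn0 := hp n τ
  have hw : μ.p (n + 1) (up τ n false) / μ.p n τ + μ.p (n + 1) (up τ n true) / μ.p n τ = 1 := by
    rw [← add_div, ← μ.con n τ, div_self hn0.ne']
  have hal : ∀ b, al q μ n (up τ n b) = Real.log (μ.p (n + 1) (up τ n b) / μ.p n τ) -
      Real.log (rb q b) := by
    intro b
    have e : (up τ n b) n = b := by simp [up]
    rw [al, hdep, e, Real.log_div (hp _ _).ne' hn0.ne']
  rw [hal, hal]
  have hrb0 : rb q false = 1 - q := by simp [rb]
  have hrb1 : rb q true = q := by simp [rb]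
  rw [hrb0, hrb1]
  have hw0 : 0 < μ.p (n + 1) (up τ n false) / μ.p n τ := div_pos (hp _ _) hn0
  have hw1 : 0 < μ.p (n + 1) (up τ n true) / μ.p n τ := div_pos (hp _ _) hn0
  show _ ≤ - Real.log (1 - q) * (μ.p (n + 1) (cons true τ) *
      ind (fun z => z 0 = true ∧ zr (n + 1 - L) L z) (cons true τ))
    + Real.log (1 / q) * (x1 * ind (fun z => zr (n + 1 - L) L z) (cons true τ))
    + 1 / (q * (1 - q)) * (ind (fun z => ¬ zr (n + 1 - L) L z) (cons true τ) *
          |x1 - q * μ.p (n + 1) (cons true τ)|)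
  by_cases hz : zr (n + 1 - L) L (cons true τ)
  · rw [al_upper_ind_true (P := fun z => z 0 = true ∧ zr (n + 1 - L) L z)
        ⟨by simp [cons], hz⟩,
      al_upper_ind_true (P := fun z => zr (n + 1 - L) L z) hz,
      al_upper_ind_false (P := fun z => ¬ zr (n + 1 - L) L z) (not_not.2 hz), hX]
    have := al_upper_r1 q x0 x1 _ _ h0 h1 (hp _ _) (hp _ _) hw0 hw1 hw
    linarith
  · rw [al_upper_ind_false (P := fun z => z 0 = true ∧ zr (n + 1 - L) L z)
        (fun h => hz h.2),
      al_upper_ind_false (P := fun z => zr (n + 1 - L) L z) hz,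
      al_upper_ind_true (P := fun z => ¬ zr (n + 1 - L) L z) hz, hX]
    have := al_upper_r2 q x0 x1 _ _ h0 h1 (hp _ _) (hp _ _) hw0 hw1 hw
    linarith

end FAF
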