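import Pool.Agent.Helper769.FAF.Base

set_option autoImplicit false
set_option linter.unusedSectionVars false

open Finset Filter Topology

noncomputable section

namespace FAF

/-- theorem of the alternative (finite dimensional separation) -/
theorem alt {X : Type} (s : Finset X) (hs : s.Nonempty) (V : Submodule ℝ (X → ℝ)) (f : X → ℝ)
    (h : ∀ v ∈ V, ∃ x ∈ s, f x - v x ≤ 0) :
    ∃ p : X → ℝ, (∀ x, 0 ≤ p x) ∧ ∑ x ∈ s, p x = 1 ∧ (∀ v ∈ V, ∑ x ∈ s, p x * v x = 0) ∧
      ∑ x ∈ s, p x * f x ≤ 0 := by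
  classical
  let R : (X → ℝ) → (s → ℝ) := fun g i => g i.1
  let O : Set (s → ℝ) := {u | ∀ i, 0 < u i}
  let K : Set (s → ℝ) := (fun v => R f - R v) '' (V : Set (X → ℝ))
  have hOo : IsOpen O := by
    have e : O = ⋂ i : s, {u : s → ℝ | 0 < u i} := by
      ext u
      simp [O]
    rw [e]
    exact isOpen_iInter_of_finite fun i => isOpen_lt continuous_const (continuous_apply i)
  have hOc : Convex ℝ O := by
    intro u hu v hv a b ha hb hab i
    have h1 := hu i
    have h2 := hv i
    show 0 < a • u i + b • v i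
    simp only [smul_eq_mul]
    rcases eq_or_lt_of_le ha with ha' | ha'
    · have : b = 1 := by linarith
      rw [← ha', this]
      linarith
    · have := mul_pos ha' h1
      have := mul_nonneg hb h2.le
      linarith
  have hKc : Convex ℝ K := by
    rintro _ ⟨v, hv, rfl⟩ _ ⟨w, hw, rfl⟩ a b ha hb hab
    refine ⟨a • v + b • w, V.add_mem (V.smul_mem a hv) (V.smul_mem b hw), ?_⟩
    funext i
    show f i.1 - (a * v i.1 + b * w i.1) = a * (f i.1 - v i.1) + b * (f i.1 - w i.1)
    have : f i.1 = (a + b) * f i.1 := by rw [hab, one_mul]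
    linear_combination this
  have hdisj : Disjoint O K := by
    rw [Set.disjoint_left]
    rintro u hu ⟨v, hv, rfl⟩
    obtain ⟨x, hx, hxv⟩ := h v hv
    have h1 : 0 < f x - v x := hu ⟨x, hx⟩
    linarith
  obtain ⟨φ, u, hφ1, hφ2⟩ := geometric_hahn_banach_open hOc hOo hKc hdisj
  let c : s → ℝ := fun i => φ (Pi.single i 1)
  have hφc : ∀ w : s → ℝ, φ w = ∑ i, w i * c i := by
    intro w
    have h1 := LinearMap.pi_apply_eq_sum_univ (φ : (s → ℝ) →ₗ[ℝ] ℝ) w
    have h2 : (φ : (s → ℝ) →ₗ[ℝ] ℝ) w = φ w := rfl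
    rw [h2] at h1
    rw [h1]
    refine Finset.sum_congr rfl fun i _ => ?_
    rw [smul_eq_mul]
    congr 1
    show φ _ = φ _
    congr 1
    funext j
    by_cases hij : i = j
    · subst hij
      simp
    · rw [if_neg hij, Pi.single_eq_of_ne (Ne.symm hij)]
  have hone : ∀ t : ℝ, 0 < t → (fun _ : s => t) ∈ O := fun t ht _ => ht
  have hc0 : ∀ i, c i ≤ 0 := by
    intro i
    by_contra hcon
    push Not at hcon
    obtain ⟨t, ht0, ht⟩ : ∃ t : ℝ, 0 ≤ t ∧ u ≤ φ (fun _ : s => (1 : ℝ)) + t * c i := by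
      refine ⟨(|u| + |φ (fun _ : s => (1 : ℝ))|) / c i, by positivity, ?_⟩
      rw [div_mul_cancel₀ _ hcon.ne']
      have := le_abs_self u
      have := neg_abs_le (φ (fun _ : s => (1 : ℝ)))
      linarith
    have h1 : (fun _ : s => (1 : ℝ)) + t • (Pi.single i 1 : s → ℝ) ∈ O := by
      intro j
      show 0 < 1 + t * (Pi.single i 1 : s → ℝ) j
      have h2 : 0 ≤ (Pi.single i 1 : s → ℝ) j := by
        by_cases hij : j = i
        · subst hij
          simp
        · rw [Pi.single_eq_of_ne hij]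
      have := mul_nonneg ht0 h2
      linarith
    have h2 := hφ1 _ h1
    rw [map_add, map_smul, smul_eq_mul] at h2
    have h3 : φ (Pi.single i 1) = c i := rfl
    rw [h3] at h2
    linarith
  have hu0 : 0 ≤ u := by
    by_contra hcon
    push Not at hcon
    set S := φ (fun _ : s => (1 : ℝ)) with hS
    have hε : 0 < (-u) / (|S| + 1) := by
      apply div_pos (by linarith)
      positivity
    have h1 := hφ1 _ (hone _ hε)
    have h2 : (fun _ : s => (-u) / (|S| + 1)) = ((-u) / (|S| + 1)) • (fun _ : s => (1 : ℝ)) := by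
      funext i
      simp
    rw [h2, map_smul, smul_eq_mul, ← hS] at h1
    have h3 : (-u) / (|S| + 1) * (|S| + 1) = -u := by field_simp
    have h4 : (-u) / (|S| + 1) * (-|S|) ≤ (-u) / (|S| + 1) * S :=
      mul_le_mul_of_nonneg_left (neg_abs_le S) hε.le
    nlinarith
  have hV : ∀ v ∈ V, φ (R v) = 0 := by
    intro v hv
    by_contra hne
    have h1 : R f - R (((φ (R f) - u + 1) / φ (R v)) • v) ∈ K := ⟨_, V.smul_mem _ hv, rfl⟩
    have h2 := hφ2 _ h1
    have h3 : R (((φ (R f) - u + 1) / φ (R v)) • v) = ((φ (R f) - u + 1) / φ (R v)) • R v := rfl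
    rw [map_sub, h3, map_smul, smul_eq_mul, div_mul_cancel₀ _ hne] at h2
    linarith
  have hf0 : 0 ≤ φ (R f) := by
    have h1 : R f - R (0 : X → ℝ) ∈ K := ⟨0, V.zero_mem, rfl⟩
    have h2 := hφ2 _ h1
    rw [map_sub, hV 0 V.zero_mem, sub_zero] at h2
    linarith
  have hTpos : 0 < ∑ i, -c i := by
    rcases eq_or_lt_of_le (Finset.sum_nonneg fun i (_ : i ∈ (Finset.univ : Finset s)) =>
      neg_nonneg.mpr (hc0 i)) with h1 | h1
    · exfalso
      have h2 : ∀ i ∈ (Finset.univ : Finset s), -c i = 0 :=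
        (Finset.sum_eq_zero_iff_of_nonneg fun i _ => neg_nonneg.mpr (hc0 i)).mp h1.symm
      have h3 : ∀ w : s → ℝ, φ w = 0 := by
        intro w
        rw [hφc]
        apply Finset.sum_eq_zero
        intro i hi
        have := h2 i hi
        have h4 : c i = 0 := by linarith
        rw [h4, mul_zero]
      have h4 := hφ1 _ (hone 1 one_pos)
      rw [h3] at h4
      have h1 : R f - R (0 : X → ℝ) ∈ K := ⟨0, V.zero_mem, rfl⟩
      have h5 := hφ2 _ h1
      rw [h3] at h5
      linarith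
    · exact h1
  set T := ∑ i, -c i with hT
  let p : X → ℝ := fun x => if hx : x ∈ s then -c ⟨x, hx⟩ / T else 0
  have hp : ∀ i : s, p i.1 = -c i / T := fun i => dif_pos i.2
  have hsum : ∀ g : X → ℝ, ∑ x ∈ s, p x * g x = -φ (R g) / T := by
    intro g
    rw [← Finset.sum_coe_sort s (fun x => p x * g x), hφc, ← Finset.sum_neg_distrib,
      Finset.sum_div]
    refine Finset.sum_congr rfl fun i _ => ?_
    rw [hp]
    show -c i / T * g i.1 = -(g i.1 * c i) / T
    ring
  refine ⟨p, ?_, ?_, ?_, ?_⟩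
  · intro x
    by_cases hx : x ∈ s
    · have h1 := hp ⟨x, hx⟩
      rw [h1]
      exact div_nonneg (neg_nonneg.mpr (hc0 _)) hTpos.le
    · have : p x = 0 := dif_neg hx
      rw [this]
  · rw [← Finset.sum_coe_sort s (fun x => p x)]
    have h1 : ∀ i ∈ (Finset.univ : Finset s), p i.1 = -c i / T := fun i _ => hp i
    rw [Finset.sum_congr rfl h1, ← Finset.sum_div, ← hT, div_self hTpos.ne']
  · intro v hv
    rw [hsum, hV v hv]
    simp
  · rw [hsum]
    exact div_nonpos_of_nonpos_of_nonneg (neg_nonpos.mpr hf0) hTpos.le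

end FAF
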