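import Pool.Agent.Helper769.FAF.TDefs
import Pool.Agent.Helper769.FAF.Base

set_option autoImplicit false
set_option linter.unusedSectionVars false

open Finset Filter Topology

noncomputable section

namespace FAF

theorem e_flip (a b z k : ℤ) : eL a b z k = eR a b z (-k) := by
  unfold eL eR
  rw [← sub_eq_add_neg]

end FAF
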