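import Pool.Agent.Helper769.FAF.TDefs
import Pool.Agent.Helper769.FAF.Base

set_option autoImplicit false
set_option linter.unusedSectionVars false

open Finset Filter Topology

noncomputable section

namespace FAF

theorem e_zero (a b z : ℤ) (hz : z ∈ Icc a b) : eR a b z 0 = z ∧ eL a b z 0 = z := by
  rw [mem_Icc] at hz
  have h : (z - a) % (b - a + 1) = z - a := Int.emod_eq_of_lt (by omega) (by omega)
  unfold eR eL
  rw [add_zero, sub_zero, h]
  constructor <;> ring

end FAF
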