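import Pool.Agent.Helper769.FAF.TDefs
import Pool.Agent.Helper769.FAF.Base

set_option autoImplicit false
set_option linter.unusedSectionVars false

open Finset Filter Topology

noncomputable section

namespace FAF

theorem enumL (a b z : ℤ) (N : ℕ) (hN : (N : ℤ) = b - a + 1) (h : 0 < N) :
    Enum N (Icc a b) (eL a b z) := by
  have hNpos : (0:ℤ) < b - a + 1 := by rw [← hN]; exact_mod_cast h
  refine ⟨?_, ?_, ?_⟩
  · intro k l
    unfold eL
    rw [add_right_inj, hN]
    constructor
    · intro h1
      have h2 : (z - a - k) ≡ (z - a - l) [ZMOD (b - a + 1)] := h1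
      rw [Int.modEq_iff_dvd] at h2
      have e : z - a - l - (z - a - k) = k - l := by ring
      rwa [e] at h2
    · intro h1
      have h2 : (z - a - k) ≡ (z - a - l) [ZMOD (b - a + 1)] := by
        rw [Int.modEq_iff_dvd]
        have e : z - a - l - (z - a - k) = k - l := by ring
        rwa [e]
      exact h2
  · intro k
    unfold eL
    have h1 := Int.emod_nonneg (z - a - k) hNpos.ne'
    have h2 := Int.emod_lt_of_pos (z - a - k) hNpos
    rw [Finset.mem_Icc]
    constructor <;> omega
  · intro x hx
    rw [Finset.mem_Icc] at hx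
    have h1 := Int.emod_nonneg (z - x) hNpos.ne'
    have h2 := Int.emod_lt_of_pos (z - x) hNpos
    refine ⟨((z - x) % (b - a + 1)).toNat, ?_, ?_⟩
    · have h3 : ((((z - x) % (b - a + 1)).toNat : ℕ) : ℤ) < (N : ℤ) := by
        rw [Int.toNat_of_nonneg h1, hN]; exact h2
      exact_mod_cast h3
    · unfold eL
      rw [Int.toNat_of_nonneg h1]
      have e := Int.emod_add_mul_ediv (z - x) (b - a + 1)
      have e2 : z - a - (z - x) % (b - a + 1) =
          (x - a) + (b - a + 1) * ((z - x) / (b - a + 1)) := by linarith
      rw [e2, Int.add_mul_emod_self_left, Int.emod_eq_of_lt (by omega) (by omega)]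
      ring

end FAF
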