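import Pool.Agent.Helper769.FAF.TDefs
import Pool.Agent.Helper769.FAF.Base

set_option autoImplicit false
set_option linter.unusedSectionVars false

open Finset Filter Topology

noncomputable section

namespace FAF

theorem enumR (a b z : ℤ) (N : ℕ) (hN : (N : ℤ) = b - a + 1) (h : 0 < N) :
    Enum N (Icc a b) (eR a b z) := by
  have hN0 : (0 : ℤ) < N := by exact_mod_cast h
  constructor
  · intro k l
    unfold eR
    rw [← hN]
    constructor
    · intro hkl
      have h1 : (z - a + k) % (N : ℤ) = (z - a + l) % (N : ℤ) := by linarith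
      have h3 : (N : ℤ) ∣ (z - a + k) - (z - a + l) := Int.ModEq.dvd (Int.ModEq.symm h1)
      have h4 : (z - a + k) - (z - a + l) = k - l := by ring
      rwa [h4] at h3
    · intro hd
      have h3 : (N : ℤ) ∣ (z - a + k) - (z - a + l) := by
        have h4 : (z - a + k) - (z - a + l) = k - l := by ring
        rwa [h4]
      have h5 : (z - a + l) % (N : ℤ) = (z - a + k) % (N : ℤ) := by
        have h6 : (z - a + l) ≡ (z - a + k) [ZMOD (N : ℤ)] := Int.modEq_iff_dvd.mpr h3
        exact h6
      rw [h5]
  · intro k
    unfold eR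
    rw [← hN, Finset.mem_Icc]
    have h1 := Int.emod_nonneg (z - a + k) hN0.ne'
    have h2 := Int.emod_lt_of_pos (z - a + k) hN0
    constructor <;> linarith
  · intro x hx
    rw [Finset.mem_Icc] at hx
    refine ⟨((x - z) % (N : ℤ)).toNat, ?_, ?_⟩
    · have h1 := Int.emod_nonneg (x - z) hN0.ne'
      have h2 := Int.emod_lt_of_pos (x - z) hN0
      omega
    · unfold eR
      rw [← hN, Int.toNat_of_nonneg (Int.emod_nonneg _ hN0.ne'), Int.add_emod_emod]
      have h3 : z - a + (x - z) = x - a := by ring
      rw [h3, Int.emod_eq_of_lt (by linarith) (by linarith)]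
      ring

end FAF
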