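import Pool.Agent.Helper769.FAF.TDefs
import Pool.Agent.Helper769.FAF.Base

set_option autoImplicit false
set_option linter.unusedSectionVars false

open Finset Filter Topology

noncomputable section

namespace FAF

theorem nbL_mod (M x y q : ℤ) (h0 : 0 ≤ y) (h1 : y < M) (h : x = y + M * q) : x % M = y := by
  rw [h, Int.add_mul_emod_self_left, Int.emod_eq_of_lt h0 h1]

theorem nbL (a b z : ℤ) (hz : z ∈ Icc a b) (k : ℤ) :
    pr a b (eL a b z k) = eL a b z (k + 1) ∧ sc a b (eL a b z k) = eL a b z (k - 1) := by
  have hz' := Finset.mem_Icc.1 hz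
  have hM : 0 < b - a + 1 := by linarith [hz'.1, hz'.2]
  have hr0 : 0 ≤ (z - a - k) % (b - a + 1) := Int.emod_nonneg _ hM.ne'
  have hr1 : (z - a - k) % (b - a + 1) < b - a + 1 := Int.emod_lt_of_pos _ hM
  have hdiv := Int.emod_add_mul_ediv (z - a - k) (b - a + 1)
  unfold pr sc eL
  set r := (z - a - k) % (b - a + 1) with hr
  set Q := (z - a - k) / (b - a + 1) with hQ
  clear_value r Q
  constructor
  · by_cases h : r = 0
    · have h2 : (z - a - (k + 1)) % (b - a + 1) = b - a :=
        nbL_mod _ _ _ (Q - 1) (by linarith) (by linarith) (by subst h; linear_combination -hdiv)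
      rw [h2, if_pos (by omega)]
      ring
    · have h2 : (z - a - (k + 1)) % (b - a + 1) = r - 1 :=
        nbL_mod _ _ _ Q (by omega) (by omega) (by linear_combination -hdiv)
      rw [h2, if_neg (by omega)]
      ring
  · by_cases h : r = b - a
    · have h2 : (z - a - (k - 1)) % (b - a + 1) = 0 :=
        nbL_mod _ _ _ (Q + 1) le_rfl hM (by subst h; linear_combination -hdiv)
      rw [h2, if_pos (by omega)]
      ring
    · have h2 : (z - a - (k - 1)) % (b - a + 1) = r + 1 :=
        nbL_mod _ _ _ Q (by omega) (by omega) (by linear_combination -hdiv)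
      rw [h2, if_neg (by omega)]
      ring

end FAF
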