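import Pool.Agent.Helper769.FAF.TDefs
import Pool.Agent.Helper769.FAF.Base
import Pool.Agent.Helper769.FAF.P_enumL
import Pool.Agent.Helper769.FAF.P_nbL

set_option autoImplicit false
set_option linter.unusedSectionVars false

open Finset Filter Topology

noncomputable section

namespace FAF

theorem genL (q : ℝ) (a b z : ℤ) (hz : z ∈ Icc a b) (N : ℕ) (hN : (N : ℤ) = b - a + 1)
    (F : Finset ℤ → ℝ) (S : Finset ℤ) : genT q a b F S = genE q N (eL a b z) F S := by
  have hpos : 0 < N := by
    rw [Finset.mem_Icc] at hz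
    omega
  have hE := enumL a b z N hN hpos
  unfold genT genE
  symm
  refine Finset.sum_nbij (fun k : ℕ => eL a b z k) ?_ ?_ ?_ ?_
  · intro k _
    exact hE.mem k
  · intro k hk l hl h
    have hk' : k < N := Finset.mem_range.1 (Finset.mem_coe.1 hk)
    have hl' : l < N := Finset.mem_range.1 (Finset.mem_coe.1 hl)
    have h1 := (hE.per k l).1 h
    have h2 : |(k : ℤ) - l| < N := by
      rw [abs_lt]; constructor <;> omega
    have h3 := Int.eq_zero_of_abs_lt_dvd h1 h2
    omega
  · intro x hx
    obtain ⟨k, hk, he⟩ := hE.surj x (Finset.mem_coe.1 hx)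
    exact ⟨k, Finset.mem_coe.2 (Finset.mem_range.2 hk), he⟩
  · intro k _
    obtain ⟨h1, h2⟩ := nbL a b z hz k
    have h3 : cstT a b (eL a b z k) S = ce (eL a b z) k S := by
      unfold cstT ce
      rw [h1, h2]
      congr 1
      exact propext or_comm
    rw [h3]

end FAF
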