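import Pool.Agent.Helper769.FAF.TDefs
import Pool.Agent.Helper769.FAF.Base

set_option autoImplicit false
set_option linter.unusedSectionVars false

open Finset Filter Topology

noncomputable section

namespace FAF

theorem nbR_mod (M w s : ℤ) (h0 : 0 ≤ s) (h1 : s < M) (h : M ∣ w - s) : w % M = s := by
  obtain ⟨t, ht⟩ := h
  have e1 : w = s + M * t := by omega
  rw [e1, Int.add_mul_emod_self_left]
  exact Int.emod_eq_of_lt h0 h1

theorem nbR (a b z : ℤ) (hz : z ∈ Icc a b) (k : ℤ) :
    pr a b (eR a b z k) = eR a b z (k - 1) ∧ sc a b (eR a b z k) = eR a b z (k + 1) := by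
  rw [mem_Icc] at hz
  obtain ⟨M, hM⟩ : ∃ M, M = b - a + 1 := ⟨_, rfl⟩
  have hM1 : 1 ≤ M := by omega
  obtain ⟨r, hr⟩ : ∃ r, r = (z - a + k) % M := ⟨_, rfl⟩
  have hr0 : 0 ≤ r := by rw [hr]; exact Int.emod_nonneg _ (by omega)
  have hr1 : r < M := by rw [hr]; exact Int.emod_lt_of_pos _ (by omega)
  have hd : M ∣ (z - a + k) - r := by
    rw [hr]
    exact Int.dvd_self_sub_emod
  unfold eR pr sc
  rw [← hM, ← hr]
  refine ⟨?_, ?_⟩
  · by_cases h : r = 0
    · rw [if_pos (by omega), nbR_mod M (z - a + (k - 1)) (M - 1) (by omega) (by omega)]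
      · omega
      · have e1 : z - a + (k - 1) - (M - 1) = (z - a + k) - r + M * (-1) := by rw [h]; ring
        rw [e1]
        exact dvd_add hd (Dvd.intro _ rfl)
    · rw [if_neg (by omega), nbR_mod M (z - a + (k - 1)) (r - 1) (by omega) (by omega)]
      · omega
      · have e1 : z - a + (k - 1) - (r - 1) = (z - a + k) - r := by ring
        rw [e1]
        exact hd
  · by_cases h : r = M - 1
    · rw [if_pos (by omega), nbR_mod M (z - a + (k + 1)) 0 (by omega) (by omega)]
      · omega
      · have e1 : z - a + (k + 1) - 0 = (z - a + k) - r + M * 1 := by rw [h]; ring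
        rw [e1]
        exact dvd_add hd (Dvd.intro _ rfl)
    · rw [if_neg (by omega), nbR_mod M (z - a + (k + 1)) (r + 1) (by omega) (by omega)]
      · omega
      · have e1 : z - a + (k + 1) - (r + 1) = (z - a + k) - r := by ring
        rw [e1]
        exact hd

end FAF
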