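import Pool.Agent.Helper769.FAF.TDefs
import Pool.Agent.Helper769.FAF.Base
import Pool.Agent.Helper769.FAF.P_enumR
import Pool.Agent.Helper769.FAF.P_nbR

set_option autoImplicit false
set_option linter.unusedSectionVars false

open Finset Filter Topology

noncomputable section

namespace FAF

theorem genR (q : ℝ) (a b z : ℤ) (hz : z ∈ Icc a b) (N : ℕ) (hN : (N : ℤ) = b - a + 1)
    (F : Finset ℤ → ℝ) (S : Finset ℤ) : genT q a b F S = genE q N (eR a b z) F S := by
  have hz' := Finset.mem_Icc.1 hz
  have hN0 : 0 < N := by omega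
  have hE := enumR a b z N hN hN0
  unfold genT genE
  symm
  apply Finset.sum_nbij (fun k : ℕ => eR a b z (k : ℤ))
  · intro k _
    exact hE.mem _
  · intro k hk l hl hkl
    have hk' := Finset.mem_range.1 (Finset.mem_coe.1 hk)
    have hl' := Finset.mem_range.1 (Finset.mem_coe.1 hl)
    have h1 : (N : ℤ) ∣ (k : ℤ) - l := (hE.per k l).1 hkl
    have h2 : (k : ℤ) - l = 0 := by
      apply Int.eq_zero_of_abs_lt_dvd h1
      rw [abs_lt]
      constructor <;> omega
    omega
  · intro x hx
    obtain ⟨k, hk, hkx⟩ := hE.surj x hx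
    exact ⟨k, Finset.mem_coe.2 (Finset.mem_range.2 hk), hkx⟩
  · intro k _
    have h1 := nbR a b z hz (k : ℤ)
    have h2 : ce (eR a b z) k S = cstT a b (eR a b z k) S := by
      unfold ce cstT
      rw [h1.1, h1.2]
    rw [h2]

end FAF
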