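import Pool.Agent.Helper769.FAF.TDefs
import Pool.Agent.Helper769.FAF.Base
import Pool.Agent.Helper769.FAF.P_enumR
import Pool.Agent.Helper769.FAF.P_enumL
import Pool.Agent.Helper769.FAF.P_genR
import Pool.Agent.Helper769.FAF.P_genL
import Pool.Agent.Helper769.FAF.P_e_zero
import Pool.Agent.Helper769.FAF.P_e_flip
import Pool.Agent.Helper769.FAF.P_fi_spec
import Pool.Agent.Helper769.FAF.P_fi_eq
import Pool.Agent.Helper769.FAF.P_fi_le
import Pool.Agent.Helper769.FAF.P_fi_ex
import Pool.Agent.Helper769.FAF.P_fi_lt
import Pool.Agent.Helper769.FAF.P_U_far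
import Pool.Agent.Helper769.FAF.P_UU_nonneg
import Pool.Agent.Helper769.FAF.P_UU_bounds

set_option autoImplicit false
set_option linter.unusedSectionVars false

open Finset Filter Topology

noncomputable section

namespace FAF

theorem bdry_UU_le (th : ℝ) (hth : 0 < th) (V : Env → ℝ) (hV : ∀ z, 1 / 2 ≤ V z)
    (hV2 : ∀ z, V z ≤ 2) (e : ℤ → ℤ) (T : Finset ℤ) (i : ℕ) (h : e i ∈ T) (hi : i ≤ 1) :
    UU th V e T ≤ 2 * Real.exp th := by
  have h1 := (UU_bounds th V hV hV2 e T ⟨_, h⟩).2
  have h2 : fi e T ≤ i := fi_le i h
  have h3 : ((fi e T : ℕ) : ℝ) ≤ 1 := by exact_mod_cast h2.trans hi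
  have h4 : Real.exp (th * (fi e T : ℕ)) ≤ Real.exp th := by
    apply Real.exp_le_exp.2
    nlinarith
  linarith

/-- states in which `z` is infected -/
theorem bdry (q th c : ℝ) (h0 : 0 < q) (h1 : q < 1) (hth : 0 < th) (m : ℕ) (V : Env → ℝ)
    (hD : Drift q th c m V) (a b z : ℤ) (hz : z ∈ Icc a b) (hN : (m : ℤ) + 2 ≤ b - a)
    {S : Finset ℤ} (hS : S ⊆ Icc a b) (hzS : z ∈ S) :
    genT q a b (WW th V a b z) S ≤ (2 * m + 1) * (2 * Real.exp th) := by
  obtain ⟨hDep, hV1, hV2, -⟩ := hD
  obtain ⟨N, hNN⟩ : ∃ N : ℕ, (N : ℤ) = b - a + 1 := ⟨(b - a + 1).toNat, by omega⟩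
  have hNm : m + 3 ≤ N := by omega
  have hE := enumR a b z N hNN (by omega)
  have hE' := enumL a b z N hNN (by omega)
  have hz0 := e_zero a b z hz
  have hne : S.Nonempty := ⟨z, hzS⟩
  have hfi : fi (eR a b z) S = 0 := by
    apply fi_eq 0
    · simpa [hz0.1] using hzS
    · intro k hk
      omega
  have hfi' : fi (eL a b z) S = 0 := by
    apply fi_eq 0
    · simpa [hz0.2] using hzS
    · intro k hk
      omega
  rw [genR q a b z hz N hNN]
  unfold genE
  have hE2 : 0 ≤ Real.exp th := (Real.exp_pos th).le
  have hWn : ∀ T, 0 ≤ WW th V a b z T := fun T =>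
    le_min (UU_nonneg th V hV1 _ T) (UU_nonneg th V hV1 _ T)
  have hterm : ∀ k ∈ range N, ce (eR a b z) k S * (q * WW th V a b z (insert (eR a b z k) S) +
      (1 - q) * WW th V a b z (S.erase (eR a b z k)) - WW th V a b z S) ≤
      if (k ≤ m ∨ N ≤ k + m) then 2 * Real.exp th else 0 := by
    intro k hk
    rw [mem_range] at hk
    split_ifs with hc
    · by_cases hce : eR a b z ((k : ℤ) - 1) ∈ S ∨ eR a b z ((k : ℤ) + 1) ∈ S
      · have hce1 : ce (eR a b z) k S = 1 := by
          unfold ce
          rw [if_pos hce]
        rw [hce1, one_mul]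
        have hins : WW th V a b z (insert (eR a b z k) S) ≤ 2 * Real.exp th := by
          refine (min_le_right _ _).trans (bdry_UU_le th hth V hV1 hV2 _ _ 0 ?_ (by norm_num))
          rw [Nat.cast_zero, hz0.1]
          exact Finset.mem_insert_of_mem hzS
        have her : WW th V a b z (S.erase (eR a b z k)) ≤ 2 * Real.exp th := by
          by_cases hk0 : k = 0
          · subst hk0
            rcases hce with hce | hce
            · refine (min_le_left _ _).trans (bdry_UU_le th hth V hV1 hV2 _ _ 1 ?_ le_rfl)
              rw [e_flip, Nat.cast_one]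
              rw [Finset.mem_erase]
              refine ⟨?_, by simpa using hce⟩
              intro h
              rw [hE.per] at h
              rcases h with ⟨c, hc⟩
              have hc' : (N : ℤ) ∣ 1 := ⟨-c, by push_cast at hc; linarith⟩
              have := Int.le_of_dvd one_pos hc'
              omega
            · refine (min_le_right _ _).trans (bdry_UU_le th hth V hV1 hV2 _ _ 1 ?_ le_rfl)
              rw [Nat.cast_one]
              rw [Finset.mem_erase]
              refine ⟨?_, by simpa using hce⟩
              intro h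
              rw [hE.per] at h
              have hc' : (N : ℤ) ∣ 1 := by simpa using h
              have := Int.le_of_dvd one_pos hc'
              omega
          · refine (min_le_right _ _).trans (bdry_UU_le th hth V hV1 hV2 _ _ 0 ?_ (by norm_num))
            rw [Nat.cast_zero, Finset.mem_erase]
            refine ⟨?_, by rw [hz0.1]; exact hzS⟩
            intro h
            rw [hE.per] at h
            have hc' : (N : ℤ) ∣ k := by
              have := (dvd_neg (a := (N : ℤ))).2 h
              simpa using this
            have := Int.le_of_dvd (by omega) hc'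
            omega
        have := hWn S
        nlinarith
      · have hce1 : ce (eR a b z) k S = 0 := by
          unfold ce
          rw [if_neg hce]
        rw [hce1, zero_mul]
        positivity
    · push Not at hc
      have hkL : eL a b z ((N - k : ℕ) : ℤ) = eR a b z k := by
        rw [e_flip, hE.per]
        refine ⟨-1, ?_⟩
        push_cast [hk.le]
        ring
      have hR := U_far hE hS hne th m V hDep k (by omega) hk
      have hL := U_far hE' hS hne th m V hDep (N - k) (by omega) (by omega)
      rw [hkL] at hL
      have hi : WW th V a b z (insert (eR a b z k) S) = WW th V a b z S := by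
        unfold WW
        rw [hR.1, hL.1]
      have he : WW th V a b z (S.erase (eR a b z k)) = WW th V a b z S := by
        unfold WW
        rw [hR.2, hL.2]
      rw [hi, he]
      apply le_of_eq
      ring
  refine (Finset.sum_le_sum hterm).trans ?_
  rw [← Finset.sum_filter, Finset.sum_const, nsmul_eq_mul]
  have hcard : (filter (fun k => k ≤ m ∨ N ≤ k + m) (range N)).card ≤ 2 * m + 1 := by
    have hsub : filter (fun k => k ≤ m ∨ N ≤ k + m) (range N) ⊆ range (m + 1) ∪ Finset.Ico (N - m) N := by
      intro k hk
      simp only [Finset.mem_filter, Finset.mem_range, Finset.mem_union, Finset.mem_Ico] at hk ⊢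
      omega
    refine (Finset.card_le_card hsub).trans ((Finset.card_union_le _ _).trans ?_)
    simp
    omega
  have hcard' : ((filter (fun k => k ≤ m ∨ N ≤ k + m) (range N)).card : ℝ) ≤ 2 * m + 1 := by
    exact_mod_cast hcard
  exact mul_le_mul_of_nonneg_right hcard' (by positivity)

end FAF
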