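import Pool.Agent.Helper769.FAF.Base
import Pool.Agent.Helper769.FAF.P_A_level
import Pool.Agent.Helper769.FAF.P_A_dep
import Pool.Agent.Helper769.FAF.P_E_lift

set_option autoImplicit false
set_option linter.unusedSectionVars false

open Finset Filter Topology

noncomputable section

namespace FAF

theorem carre_ind_pos {P : Env → Prop} {z : Env} (h : P z) : ind P z = 1 := by
  classical
  unfold ind
  exact if_pos h

theorem carre_ind_neg {P : Env → Prop} {z : Env} (h : ¬ P z) : ind P z = 0 := by
  classical
  unfold ind
  exact if_neg h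

theorem carre_ind_nonneg (P : Env → Prop) (z : Env) : 0 ≤ ind P z := by
  by_cases h : P z
  · rw [carre_ind_pos h]; exact zero_le_one
  · rw [carre_ind_neg h]

theorem carre_dep_ind {n : ℕ} {P : Env → Prop}
    (h : ∀ z w : Env, (∀ i < n, z i = w i) → P z → P w) : Dep n (ind P) := by
  intro z w hzw
  by_cases hz : P z
  · rw [carre_ind_pos hz, carre_ind_pos (h z w hzw hz)]
  · have : ¬ P w := fun hw => hz (h w z (fun i hi => (hzw i hi).symm) hw)
    rw [carre_ind_neg hz, carre_ind_neg this]

theorem carre_abs (P A B : Env → Prop) (y z : Env)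
    (h1 : P y → ¬ P z → A z ∨ B z) (h2 : ¬ P y → P z → A z ∨ B z) :
    |ind P y - ind P z| ≤ ind A z + ind B z := by
  have hA := carre_ind_nonneg A z
  have hB := carre_ind_nonneg B z
  have key : (A z ∨ B z) → 1 ≤ ind A z + ind B z := by
    rintro (h | h)
    · rw [carre_ind_pos h]; linarith
    · rw [carre_ind_pos h]; linarith
  by_cases hy : P y
  · by_cases hz : P z
    · rw [carre_ind_pos hy, carre_ind_pos hz, sub_self, abs_zero]
      linarith
    · rw [carre_ind_pos hy, carre_ind_neg hz, sub_zero, abs_one]
      exact key (h1 hy hz)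
  · by_cases hz : P z
    · rw [carre_ind_neg hy, carre_ind_pos hz, zero_sub, abs_neg, abs_one]
      exact key (h2 hy hz)
    · rw [carre_ind_neg hy, carre_ind_neg hz, sub_self, abs_zero]
      linarith

theorem carre_cr (P A B : Env → Prop) (s t k : ℕ) (y z : Env)
    (h : ((P y ∧ ¬ P z) ∨ (¬ P y ∧ P z)) → (k = 0 ∨ z (k - 1) = true ∨ z (k + 1) = true) →
      (k = s ∧ A z) ∨ (k = t ∧ B z)) :
    cr z k * |ind P y - ind P z| ≤ (if k = s then ind A z else 0) +
      (if k = t then ind B z else 0) := by
  have hA := carre_ind_nonneg A z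
  have hB := carre_ind_nonneg B z
  have n1 : 0 ≤ (if k = s then ind A z else 0) := by split_ifs <;> linarith
  have n2 : 0 ≤ (if k = t then ind B z else 0) := by split_ifs <;> linarith
  by_cases hc : k = 0 ∨ z (k - 1) = true ∨ z (k + 1) = true
  · have hcr : cr z k = 1 := if_pos hc
    rw [hcr, one_mul]
    by_cases hd : (P y ∧ ¬ P z) ∨ (¬ P y ∧ P z)
    · have hle : |ind P y - ind P z| ≤ 1 := by
        rcases hd with ⟨a, b⟩ | ⟨a, b⟩
        · rw [carre_ind_pos a, carre_ind_neg b, sub_zero, abs_one]
        · rw [carre_ind_neg a, carre_ind_pos b, zero_sub, abs_neg, abs_one]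
      refine hle.trans ?_
      rcases h hd hc with ⟨a, b⟩ | ⟨a, b⟩
      · rw [if_pos a, carre_ind_pos b]
        linarith
      · rw [if_pos a, carre_ind_pos b]
        linarith
    · have hz : ind P y = ind P z := by
        by_cases a : P y
        · by_cases b : P z
          · rw [carre_ind_pos a, carre_ind_pos b]
          · exact absurd (Or.inl ⟨a, b⟩) hd
        · by_cases b : P z
          · exact absurd (Or.inr ⟨a, b⟩) hd
          · rw [carre_ind_neg a, carre_ind_neg b]
      rw [hz, sub_self, abs_zero]
      linarith
  · have hcr : cr z k = 0 := if_neg hc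
    rw [hcr, zero_mul]
    linarith

theorem carre_zr_cons (s L : ℕ) (hs : 1 ≤ s) (z : Env) :
    zr s L (cons true z) ↔ zr (s - 1) L z := by
  unfold zr cons
  constructor
  · intro h j h1 h2
    have h3 := h (j + 1) (by omega) (by omega)
    rw [if_neg (by omega), Nat.add_sub_cancel] at h3
    exact h3
  · intro h j h1 h2
    rw [if_neg (by omega)]
    exact h (j - 1) (by omega) (by omega)

theorem carre_zr_tl (s L : ℕ) (z : Env) : zr s L (tl z) ↔ zr (s + 1) L z := by
  unfold zr tl
  constructor
  · intro h j h1 h2
    have h3 := h (j - 1) (by omega) (by omega)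
    rw [Nat.sub_add_cancel (by omega)] at h3
    exact h3
  · intro h j h1 h2
    exact h (j + 1) (by omega) (by omega)

theorem carre (q : ℝ) (h0 : 0 < q) (h1 : q < 1) (μ : Fam) (hI : Inv q μ) (m s L : ℕ) (hs : m + 2 ≤ s)
    (g : Env → ℝ) (hg : Dep m g) (M : ℝ) (hM : ∀ z, |g z| ≤ M) (δ : ℝ)
    (h2 : ∀ n, s ≤ n + 1 → n ≤ s + 1 → μ.E (n + L + 1) (ind (fun z => z n = true ∧ zr (n + 1) L z)) ≤ δ)
    (h3 : ∀ n, s ≤ n + 1 → n ≤ s + 1 → μ.E (n + L + 1) (ind (fun z => zr n L z ∧ z (n + L) = true)) ≤ δ) :
    |μ.E (s + L + 2) (fun z => A q m g z * ind (zr s (L + 1)) z)| ≤ 8 * M * δ := by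
  classical
  have hM0 : 0 ≤ M := (abs_nonneg _).trans (hM (fun _ => false))
  set H : Env → ℝ := ind (zr s (L + 1)) with hH
  set G : Env → ℝ := fun z => g z * H z with hG
  have hHdep : Dep (s + L + 1) H := by
    apply carre_dep_ind
    intro z w hzw hz j hj1 hj2
    rw [← hzw j (by omega)]
    exact hz j hj1 hj2
  have hgdep : Dep (s + L + 1) g := Dep_mono (by omega) hg
  have hGdep : Dep (s + L + 1) G := by
    intro z w hzw
    simp only [hG]
    rw [hHdep z w hzw, hgdep z w hzw]
  have hE0 : μ.E (s + L + 2) (A q (s + L + 1) G) = 0 := hI (s + L + 1) G hGdep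
  -- the indicators
  set a1 : Env → ℝ := ind (fun z => z (s - 1) = true ∧ zr s L z) with ha1
  set a2 : Env → ℝ := ind (fun z => z s = true ∧ zr (s + 1) L z) with ha2
  set b1 : Env → ℝ := ind (fun z => zr s L z ∧ z (s + L) = true) with hb1
  set b2 : Env → ℝ := ind (fun z => zr (s + 1) L z ∧ z (s + 1 + L) = true) with hb2
  have hEa1 : μ.E (s + L + 2) a1 ≤ δ := by
    have h := h2 (s - 1) (by omega) (by omega)
    have e1 : s - 1 + 1 = s := by omega
    rw [e1] at h
    rw [E_lift μ (s - 1 + L + 1) (s + L + 2) (by omega)]
    · exact h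
    · apply carre_dep_ind
      rintro z w hzw ⟨p1, p2⟩
      refine ⟨by rw [← hzw (s - 1) (by omega)]; exact p1, fun j hj1 hj2 => ?_⟩
      rw [← hzw j (by omega)]
      exact p2 j hj1 hj2
  have hEa2 : μ.E (s + L + 2) a2 ≤ δ := by
    have h := h2 s (by omega) (by omega)
    rw [E_lift μ (s + L + 1) (s + L + 2) (by omega)]
    · exact h
    · apply carre_dep_ind
      rintro z w hzw ⟨p1, p2⟩
      refine ⟨by rw [← hzw s (by omega)]; exact p1, fun j hj1 hj2 => ?_⟩
      rw [← hzw j (by omega)]
      exact p2 j hj1 hj2
  have hEb1 : μ.E (s + L + 2) b1 ≤ δ := by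
    have h := h3 s (by omega) (by omega)
    rw [E_lift μ (s + L + 1) (s + L + 2) (by omega)]
    · exact h
    · apply carre_dep_ind
      rintro z w hzw ⟨p1, p2⟩
      refine ⟨fun j hj1 hj2 => ?_, by rw [← hzw (s + L) (by omega)]; exact p2⟩
      rw [← hzw j (by omega)]
      exact p1 j hj1 hj2
  have hEb2 : μ.E (s + L + 2) b2 ≤ δ := by
    have h := h3 (s + 1) (by omega) (by omega)
    rw [E_lift μ (s + 1 + L + 1) (s + L + 2) (by omega)]
    · exact h
    · apply carre_dep_ind
      rintro z w hzw ⟨p1, p2⟩
      refine ⟨fun j hj1 hj2 => ?_, by rw [← hzw (s + 1 + L) (by omega)]; exact p2⟩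
      rw [← hzw j (by omega)]
      exact p1 j hj1 hj2
  have hδ : 0 ≤ δ := by
    refine le_trans ?_ hEa1
    unfold Fam.E
    exact Finset.sum_nonneg fun z _ => mul_nonneg (μ.nn _ _) (carre_ind_nonneg _ _)
  -- pointwise estimates
  have hp1 : ∀ z, |H (cons true z) - H z| ≤ a1 z + b1 z := by
    intro z
    apply carre_abs
    · intro hy hz
      rw [carre_zr_cons s (L + 1) (by omega)] at hy
      right
      refine ⟨fun j hj1 hj2 => hy j (by omega) (by omega), ?_⟩
      by_contra hcon
      apply hz
      intro j hj1 hj2
      by_cases hj : j = s + L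
      · rw [hj]
        exact Bool.eq_false_iff.2 hcon
      · exact hy j (by omega) (by omega)
    · intro hy hz
      rw [carre_zr_cons s (L + 1) (by omega)] at hy
      left
      refine ⟨?_, fun j hj1 hj2 => hz j (by omega) (by omega)⟩
      by_contra hcon
      apply hy
      intro j hj1 hj2
      by_cases hj : j = s - 1
      · rw [hj]
        exact Bool.eq_false_iff.2 hcon
      · exact hz j (by omega) (by omega)
  have hp2 : ∀ z, |H (tl z) - H z| ≤ a2 z + b2 z := by
    intro z
    apply carre_abs
    · intro hy hz
      rw [carre_zr_tl] at hy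
      left
      refine ⟨?_, fun j hj1 hj2 => hy j (by omega) (by omega)⟩
      by_contra hcon
      apply hz
      intro j hj1 hj2
      by_cases hj : j = s
      · rw [hj]
        exact Bool.eq_false_iff.2 hcon
      · exact hy j (by omega) (by omega)
    · intro hy hz
      rw [carre_zr_tl] at hy
      right
      refine ⟨fun j hj1 hj2 => hz j (by omega) (by omega), ?_⟩
      by_contra hcon
      apply hy
      intro j hj1 hj2
      by_cases hj : j = s + 1 + L
      · rw [hj]
        exact Bool.eq_false_iff.2 hcon
      · exact hz j (by omega) (by omega)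
  have hp3 : ∀ z k, cr z k * |H (up z k true) - H z| ≤ (if k = s then a1 z else 0) +
      (if k = s + L then b2 z else 0) := by
    intro z k
    apply carre_cr
    rintro (⟨hy, hz⟩ | ⟨hy, hz⟩) hc
    · exfalso
      apply hz
      intro j hj1 hj2
      have h := hy j hj1 hj2
      unfold up at h
      by_cases hjk : j = k
      · rw [if_pos hjk] at h
        exact absurd h (by decide)
      · rw [if_neg hjk] at h
        exact h
    · have hk : s ≤ k ∧ k < s + (L + 1) := by
        by_contra hk
        apply hy
        intro j hj1 hj2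
        unfold up
        have hjk : j ≠ k := by
          rintro rfl
          exact hk ⟨hj1, hj2⟩
        rw [if_neg hjk]
        exact hz j hj1 hj2
      rcases hc with hc | hc | hc
      · omega
      · left
        have hks : k = s := by
          by_contra hne
          have := hz (k - 1) (by omega) (by omega)
          rw [this] at hc
          exact absurd hc (by decide)
        subst hks
        exact ⟨rfl, hc, fun j hj1 hj2 => hz j (by omega) (by omega)⟩
      · right
        have hks : k = s + L := by
          by_contra hne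
          have := hz (k + 1) (by omega) (by omega)
          rw [this] at hc
          exact absurd hc (by decide)
        refine ⟨hks, fun j hj1 hj2 => hz j (by omega) (by omega), ?_⟩
        rw [hks] at hc
        have e : s + 1 + L = s + L + 1 := by omega
        rw [e]
        exact hc
  have hp4 : ∀ z k, cr z k * |H (up z k false) - H z| ≤ (if k = s then a2 z else 0) +
      (if k = s + L then b1 z else 0) := by
    intro z k
    apply carre_cr
    rintro (⟨hy, hz⟩ | ⟨hy, hz⟩) hc
    · have hother : ∀ j, s ≤ j → j < s + (L + 1) → j ≠ k → z j = false := by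
        intro j hj1 hj2 hjk
        have h := hy j hj1 hj2
        unfold up at h
        rw [if_neg hjk] at h
        exact h
      have hzk : z k = true ∧ s ≤ k ∧ k < s + (L + 1) := by
        by_contra hcon
        apply hz
        intro j hj1 hj2
        by_cases hjk : j = k
        · subst hjk
          by_contra hne
          exact hcon ⟨Bool.eq_true_of_not_eq_false hne, hj1, hj2⟩
        · exact hother j hj1 hj2 hjk
      obtain ⟨hzk1, hk1, hk2⟩ := hzk
      rcases hc with hc | hc | hc
      · omega
      · left
        have hks : k = s := by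
          by_contra hne
          have := hother (k - 1) (by omega) (by omega) (by omega)
          rw [this] at hc
          exact absurd hc (by decide)
        subst hks
        exact ⟨rfl, hzk1, fun j hj1 hj2 => hother j (by omega) (by omega) (by omega)⟩
      · right
        have hks : k = s + L := by
          by_contra hne
          have := hother (k + 1) (by omega) (by omega) (by omega)
          rw [this] at hc
          exact absurd hc (by decide)
        refine ⟨hks, fun j hj1 hj2 => hother j (by omega) (by omega) (by omega), ?_⟩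
        rw [← hks]
        exact hzk1
    · exfalso
      apply hy
      intro j hj1 hj2
      unfold up
      by_cases hjk : j = k
      · rw [if_pos hjk]
      · rw [if_neg hjk]
        exact hz j hj1 hj2
  have hS : ∀ (z : Env) (x y : ℝ), ∑ k ∈ range (s + L + 1),
      ((if k = s then x else 0) + (if k = s + L then y else 0)) = x + y := by
    intro z x y
    rw [Finset.sum_add_distrib, Finset.sum_ite_eq', Finset.sum_ite_eq',
      if_pos (Finset.mem_range.2 (by omega)), if_pos (Finset.mem_range.2 (by omega))]
  -- decomposition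
  set D : Env → ℝ := fun z => A q (s + L + 1) G z - A q m g z * H z with hD
  have hDbound : ∀ z, |D z| ≤ (2 * M * q) * a1 z + (M * b1 z + ((2 * M * (1 - q)) * a2 z +
      M * b2 z)) := by
    intro z
    have hDe : D z = q * (g (cons true z) * (H (cons true z) - H z)) +
        (if z 0 = true then (1 - q) * (g (tl z) * (H (tl z) - H z)) else 0) +
        ∑ k ∈ range (s + L + 1), cr z k * (q * (g (up z k true) * (H (up z k true) - H z)) +
          (1 - q) * (g (up z k false) * (H (up z k false) - H z))) := by
      simp only [hD]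
      rw [← A_level q m (s + L + 1) (by omega) g hg z]
      unfold A
      have hsum : ∑ k ∈ range (s + L + 1), cr z k * (q * G (up z k true) +
          (1 - q) * G (up z k false) - G z) -
          (∑ k ∈ range (s + L + 1), cr z k * (q * g (up z k true) +
          (1 - q) * g (up z k false) - g z)) * H z =
          ∑ k ∈ range (s + L + 1), cr z k * (q * (g (up z k true) * (H (up z k true) - H z)) +
          (1 - q) * (g (up z k false) * (H (up z k false) - H z))) := by
        rw [Finset.sum_mul, ← Finset.sum_sub_distrib]
        apply Finset.sum_congr rfl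
        intro k _
        simp only [hG]
        ring
      rw [← hsum]
      by_cases hz0 : z 0 = true
      · rw [if_pos hz0, if_pos hz0, if_pos hz0]
        simp only [hG]
        ring
      · rw [if_neg hz0, if_neg hz0, if_neg hz0]
        simp only [hG]
        ring
    have t1 : |q * (g (cons true z) * (H (cons true z) - H z))| ≤ q * (M * (a1 z + b1 z)) := by
      rw [abs_mul, abs_mul, abs_of_pos h0]
      exact mul_le_mul_of_nonneg_left (mul_le_mul (hM _) (hp1 z) (abs_nonneg _) hM0) h0.le
    have t2 : |(if z 0 = true then (1 - q) * (g (tl z) * (H (tl z) - H z)) else 0)| ≤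
        (1 - q) * (M * (a2 z + b2 z)) := by
      have hnn : 0 ≤ (1 - q) * (M * (a2 z + b2 z)) :=
        mul_nonneg (by linarith) (mul_nonneg hM0 (add_nonneg (carre_ind_nonneg _ _)
          (carre_ind_nonneg _ _)))
      split_ifs
      · rw [abs_mul, abs_mul, abs_of_pos (by linarith : 0 < 1 - q)]
        exact mul_le_mul_of_nonneg_left (mul_le_mul (hM _) (hp2 z) (abs_nonneg _) hM0)
          (by linarith)
      · rw [abs_zero]; exact hnn
    have t3 : |∑ k ∈ range (s + L + 1), cr z k * (q * (g (up z k true) *
          (H (up z k true) - H z)) + (1 - q) * (g (up z k false) * (H (up z k false) - H z)))| ≤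
        q * (M * (a1 z + b2 z)) + (1 - q) * (M * (a2 z + b1 z)) := by
      refine (Finset.abs_sum_le_sum_abs _ _).trans ?_
      have hk : ∀ k ∈ range (s + L + 1), |cr z k * (q * (g (up z k true) *
          (H (up z k true) - H z)) + (1 - q) * (g (up z k false) * (H (up z k false) - H z)))| ≤
          q * M * ((if k = s then a1 z else 0) + (if k = s + L then b2 z else 0)) +
          (1 - q) * M * ((if k = s then a2 z else 0) + (if k = s + L then b1 z else 0)) := by
        intro k _
        have hcr0 : 0 ≤ cr z k := by unfold cr; split_ifs <;> norm_num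
        rw [mul_add]
        refine (abs_add_le _ _).trans (add_le_add ?_ ?_)
        · have e : |cr z k * (q * (g (up z k true) * (H (up z k true) - H z)))| =
              q * (|g (up z k true)| * (cr z k * |H (up z k true) - H z|)) := by
            rw [abs_mul, abs_mul, abs_mul, abs_of_pos h0, abs_of_nonneg hcr0]
            ring
          rw [e, mul_assoc]
          exact mul_le_mul_of_nonneg_left (mul_le_mul (hM _) (hp3 z k)
            (mul_nonneg hcr0 (abs_nonneg _)) hM0) h0.le
        · have e : |cr z k * ((1 - q) * (g (up z k false) * (H (up z k false) - H z)))| =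
              (1 - q) * (|g (up z k false)| * (cr z k * |H (up z k false) - H z|)) := by
            rw [abs_mul, abs_mul, abs_mul, abs_of_pos (by linarith : 0 < 1 - q),
              abs_of_nonneg hcr0]
            ring
          rw [e, mul_assoc]
          exact mul_le_mul_of_nonneg_left (mul_le_mul (hM _) (hp4 z k)
            (mul_nonneg hcr0 (abs_nonneg _)) hM0) (by linarith)
      refine (Finset.sum_le_sum hk).trans (le_of_eq ?_)
      rw [Finset.sum_add_distrib, ← Finset.mul_sum, ← Finset.mul_sum, hS z, hS z]
      ring
    rw [hDe]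
    refine (abs_add_le _ _).trans ?_
    refine (add_le_add ((abs_add_le _ _).trans (add_le_add t1 t2)) t3).trans (le_of_eq ?_)
    ring
  have hE1 : μ.E (s + L + 2) D = 0 - μ.E (s + L + 2) (fun z => A q m g z * H z) := by
    rw [← hE0]
    exact E_sub μ (s + L + 2) (A q (s + L + 1) G) (fun z => A q m g z * H z)
  have hEB : μ.E (s + L + 2) (fun z => (2 * M * q) * a1 z + (M * b1 z +
      ((2 * M * (1 - q)) * a2 z + M * b2 z))) ≤ 4 * M * δ := by
    rw [E_add μ _ (fun z => (2 * M * q) * a1 z) (fun z => M * b1 z +
      ((2 * M * (1 - q)) * a2 z + M * b2 z)), E_add μ _ (fun z => M * b1 z)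
      (fun z => (2 * M * (1 - q)) * a2 z + M * b2 z),
      E_add μ _ (fun z => (2 * M * (1 - q)) * a2 z) (fun z => M * b2 z),
      E_smul, E_smul, E_smul, E_smul]
    have u1 := mul_le_mul_of_nonneg_left hEa1 (show 0 ≤ 2 * M * q by positivity)
    have u2 := mul_le_mul_of_nonneg_left hEb1 hM0
    have u3 := mul_le_mul_of_nonneg_left hEa2
      (show 0 ≤ 2 * M * (1 - q) from mul_nonneg (by positivity) (by linarith))
    have u4 := mul_le_mul_of_nonneg_left hEb2 hM0
    have e : 4 * M * δ = 2 * M * q * δ + (M * δ + (2 * M * (1 - q) * δ + M * δ)) := by ring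
    rw [e]
    linarith
  have hup : μ.E (s + L + 2) D ≤ 4 * M * δ :=
    (E_mono μ _ _ _ (fun z _ => (le_abs_self _).trans (hDbound z))).trans hEB
  have hlow : -(4 * M * δ) ≤ μ.E (s + L + 2) D := by
    have h5 : μ.E (s + L + 2) (fun z => (-1) * D z) ≤ 4 * M * δ :=
      (E_mono μ _ _ _ (fun z _ => by
        have : (-1) * D z = -(D z) := by ring
        rw [this]
        exact (neg_le_abs _).trans (hDbound z))).trans hEB
    rw [E_smul] at h5
    linarith
  have hMδ : 0 ≤ M * δ := mul_nonneg hM0 hδ
  rw [hE1] at hup hlow
  rw [abs_le]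
  constructor <;> linarith

end FAF
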