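import Pool.Agent.Helper769.FAF.Base

set_option autoImplicit false
set_option linter.unusedSectionVars false

open Finset Filter Topology

noncomputable section

namespace FAF

/-- agreement below `n` -/
def ofFin_ag (n : ℕ) (y z : Env) : Prop := ∀ i < n, y i = z i

theorem ofFin_ag_up (n : ℕ) (y z : Env) (b : Bool) :
    ofFin_ag (n + 1) y (up z n b) ↔ ofFin_ag n y z ∧ y n = b := by
  constructor
  · intro h
    refine ⟨fun i hi => ?_, ?_⟩
    · have h1 := h i (by omega)
      have h2 : up z n b i = z i := by
        unfold up
        rw [if_neg (by omega)]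
      rw [h1, h2]
    · have h1 := h n (by omega)
      have h2 : up z n b n = b := by
        unfold up
        rw [if_pos rfl]
      rw [h1, h2]
  · rintro ⟨h, hn⟩ i hi
    unfold up
    by_cases hin : i = n
    · subst hin
      rw [if_pos rfl]
      exact hn
    · rw [if_neg hin]
      exact h i (by omega)

/-- cut-off -/
def ofFin_cut (n : ℕ) (y : Env) : Env := fun k => if k < n then y k else false

theorem ofFin_cut_mem (n : ℕ) (y : Env) : ofFin_cut n y ∈ W n := by
  rw [mem_W]
  intro k hk
  unfold ofFin_cut
  rw [if_neg (by omega)]

theorem ofFin_cut_ag (n : ℕ) (y : Env) : ofFin_ag n y (ofFin_cut n y) := by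
  intro i hi
  unfold ofFin_cut
  rw [if_pos hi]

theorem ofFin_uniq (n : ℕ) (y z : Env) (hz : z ∈ W n) (h : ofFin_ag n y z) :
    z = ofFin_cut n y := by
  rw [mem_W] at hz
  funext k
  unfold ofFin_cut
  by_cases hk : k < n
  · rw [if_pos hk]
    exact (h k hk).symm
  · rw [if_neg hk]
    exact hz k (by omega)

/-- a probability vector on the words of length `M` defines a family -/
theorem ofFin (M : ℕ) (p : Env → ℝ) (hp : ∀ z, 0 ≤ p z) (h1 : ∑ z ∈ W M, p z = 1) :
    ∃ μ : Fam, ∀ n (G : Env → ℝ), Dep n G → μ.E n G = ∑ y ∈ W M, p y * G y := by
  classical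
  let μ : Fam :=
    { p := fun n z => ∑ y ∈ W M, if ofFin_ag n y z then p y else 0
      dep := by
        intro n z w hzw
        apply Finset.sum_congr rfl
        intro y _
        have : ofFin_ag n y z ↔ ofFin_ag n y w := by
          constructor
          · intro h i hi
            rw [h i hi, hzw i hi]
          · intro h i hi
            rw [h i hi, hzw i hi]
        simp only [this]
      nn := by
        intro n z
        apply Finset.sum_nonneg
        intro y _
        split_ifs
        · exact hp y
        · exact le_rfl
      one := by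
        intro z
        rw [← h1]
        apply Finset.sum_congr rfl
        intro y _
        have : ofFin_ag 0 y z := fun i hi => absurd hi (Nat.not_lt_zero i)
        rw [if_pos this]
      con := by
        intro n z
        rw [← Finset.sum_add_distrib]
        apply Finset.sum_congr rfl
        intro y _
        simp only [ofFin_ag_up]
        by_cases h : ofFin_ag n y z
        · cases hy : y n
          · simp [h]
          · simp [h]
        · simp [h] }
  refine ⟨μ, fun n G hG => ?_⟩
  have e1 : μ.E n G = ∑ z ∈ W n, ∑ y ∈ W M, (if ofFin_ag n y z then p y else 0) * G z := by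
    unfold Fam.E
    apply Finset.sum_congr rfl
    intro z _
    change (∑ y ∈ W M, if ofFin_ag n y z then p y else 0) * G z = _
    rw [Finset.sum_mul]
  rw [e1, Finset.sum_comm]
  apply Finset.sum_congr rfl
  intro y _
  rw [Finset.sum_eq_single (ofFin_cut n y)]
  · rw [if_pos (ofFin_cut_ag n y)]
    congr 1
    exact (hG y (ofFin_cut n y) (ofFin_cut_ag n y)).symm
  · intro z hz hne
    rw [if_neg (fun h => hne (ofFin_uniq n y z hz h)), zero_mul]
  · intro h
    exact absurd (ofFin_cut_mem n y) h

end FAF
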