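import Pool.Agent.Helper769.FAF.Base
import Pool.Agent.Helper769.FAF.P_E_one

set_option autoImplicit false
set_option linter.unusedSectionVars false

open Finset Filter Topology

noncomputable section

namespace FAF

theorem p_le_one (μ : Fam) (n : ℕ) (z : Env) : μ.p n z ≤ 1 := by
  have h1 : μ.p n z = μ.p n (fun k => if k < n then z k else false) :=
    μ.dep n _ _ (fun i hi => by simp [hi])
  have h2 : (fun k => if k < n then z k else false) ∈ W n := by
    rw [mem_W]
    intro k hk
    simp [not_lt.mpr hk]
  have h3 := E_one μ n
  unfold Fam.E at h3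
  simp only [mul_one] at h3
  rw [h1, ← h3]
  exact Finset.single_le_sum (f := fun w => μ.p n w) (fun w _ => μ.nn n w) h2

end FAF
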