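import Pool.Agent.Helper769.FAF.Base
import Pool.Agent.Helper769.FAF.P_p_le_one

set_option autoImplicit false
set_option linter.unusedSectionVars false

open Finset Filter Topology

noncomputable section

namespace FAF

/-- compactness of the space of families -/
theorem ultra (μs : ℕ → Fam) : ∃ (U : Ultrafilter ℕ) (μ : Fam), (U : Filter ℕ) ≤ atTop ∧
    ∀ n z, Tendsto (fun m => (μs m).p n z) U (𝓝 (μ.p n z)) := by
  have hlim : ∀ n z, ∃ x : ℝ,
      Tendsto (fun m => (μs m).p n z) ((Filter.hyperfilter ℕ : Ultrafilter ℕ) : Filter ℕ) (𝓝 x) := by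
    intro n z
    obtain ⟨x, hx, hxl⟩ := (isCompact_Icc (a := (0:ℝ)) (b := 1)).ultrafilter_le_nhds
      ((Filter.hyperfilter ℕ).map (fun m => (μs m).p n z)) (by
        rw [le_principal_iff, Ultrafilter.coe_map, Filter.mem_map]
        exact Filter.univ_mem' (fun m => ⟨(μs m).nn n z, p_le_one (μs m) n z⟩))
    exact ⟨x, hxl⟩
  choose p hp using hlim
  refine ⟨Filter.hyperfilter ℕ, ⟨p, ?_, ?_, ?_, ?_⟩, Nat.hyperfilter_le_atTop, hp⟩
  · intro n z w hzw
    refine tendsto_nhds_unique (hp n z) ?_
    have h : (fun m => (μs m).p n z) = fun m => (μs m).p n w := by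
      funext m
      exact (μs m).dep n z w hzw
    rw [h]
    exact hp n w
  · intro n z
    exact ge_of_tendsto' (hp n z) (fun m => (μs m).nn n z)
  · intro z
    refine tendsto_nhds_unique (hp 0 z) ?_
    have h : (fun m => (μs m).p 0 z) = fun _ => (1 : ℝ) := by
      funext m
      exact (μs m).one z
    rw [h]
    exact tendsto_const_nhds
  · intro n z
    refine tendsto_nhds_unique (hp n z) ?_
    have h : (fun m => (μs m).p n z) = fun m => (μs m).p (n + 1) (up z n false) +
        (μs m).p (n + 1) (up z n true) := by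
      funext m
      exact (μs m).con n z
    rw [h]
    exact (hp (n + 1) _).add (hp (n + 1) _)

end FAF
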