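import Pool.Agent.Helper769.FAF.Base
import Pool.Agent.Helper769.FAF.P_A_dep
import Pool.Agent.Helper769.FAF.P_A_level
import Pool.Agent.Helper769.FAF.P_alt
import Pool.Agent.Helper769.FAF.P_ofFin
import Pool.Agent.Helper769.FAF.P_ultra
import Pool.Agent.Helper769.FAF.P_E_lift
import Pool.Agent.Helper769.FAF.P_E_one

set_option autoImplicit false
set_option linter.unusedSectionVars false

open Finset Filter Topology

noncomputable section

namespace FAF

lemma dual_phi (q : ℝ) : Dep 1 (phi q) := by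
  intro z w hzw
  unfold phi
  rw [hzw 0 one_pos]

lemma dual_A_add (q : ℝ) (m : ℕ) (g g' : Env → ℝ) (z : Env) :
    A q m (fun z => g z + g' z) z = A q m g z + A q m g' z := by
  unfold A
  have h1 : ∑ k ∈ range m, cr z k * (q * (g (up z k true) + g' (up z k true)) +
      (1 - q) * (g (up z k false) + g' (up z k false)) - (g z + g' z)) =
      (∑ k ∈ range m, cr z k * (q * g (up z k true) + (1 - q) * g (up z k false) - g z)) +
      ∑ k ∈ range m, cr z k * (q * g' (up z k true) + (1 - q) * g' (up z k false) - g' z) := by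
    rw [← Finset.sum_add_distrib]
    exact Finset.sum_congr rfl fun k _ => by ring
  simp only at h1 ⊢
  rw [h1]
  split_ifs <;> ring

lemma dual_A_smul (q : ℝ) (m : ℕ) (c : ℝ) (g : Env → ℝ) (z : Env) :
    A q m (fun z => c * g z) z = c * A q m g z := by
  unfold A
  have h1 : ∑ k ∈ range m, cr z k * (q * (c * g (up z k true)) +
      (1 - q) * (c * g (up z k false)) - (c * g z)) =
      c * ∑ k ∈ range m, cr z k * (q * g (up z k true) + (1 - q) * g (up z k false) - g z) := by
    rw [Finset.mul_sum]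
    exact Finset.sum_congr rfl fun k _ => by ring
  simp only at h1 ⊢
  rw [h1]
  split_ifs <;> ring

/-- the space of the functions `A q m g` -/
def dual_V (q : ℝ) (m : ℕ) : Submodule ℝ (Env → ℝ) where
  carrier := {v | ∃ g, Dep m g ∧ ∀ z, v z = A q m g z}
  zero_mem' := by
    refine ⟨fun _ => 0, fun _ _ _ => rfl, fun z => ?_⟩
    have := dual_A_smul q m 0 (fun _ => 0) z
    simp only [zero_mul] at this
    rw [this]
    rfl
  add_mem' := by
    rintro v v' ⟨g, hg, hv⟩ ⟨g', hg', hv'⟩
    refine ⟨fun z => g z + g' z, fun z w hzw => ?_, fun z => ?_⟩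
    · simp only
      rw [hg z w hzw, hg' z w hzw]
    · rw [dual_A_add, Pi.add_apply, hv, hv']
  smul_mem' := by
    rintro c v ⟨g, hg, hv⟩
    refine ⟨fun z => c * g z, fun z w hzw => ?_, fun z => ?_⟩
    · simp only
      rw [hg z w hzw]
    · rw [dual_A_smul, Pi.smul_apply, smul_eq_mul, hv]

lemma dual_level (q a : ℝ) (h : ¬ Cert q a) (m : ℕ) : ∃ μ : Fam,
    (∀ (n : ℕ) (G : Env → ℝ), n ≤ m → Dep n G → μ.E (n + 1) (A q n G) = 0) ∧
      μ.E 1 (phi q) ≤ a := by
  have hs : (W (m + 1)).Nonempty := ⟨fun _ => false, (mem_W _ _).2 fun _ _ => rfl⟩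
  obtain ⟨p, hp0, hp1, hpV, hpf⟩ := alt (W (m + 1)) hs (dual_V q m) (fun z => phi q z - a) (by
    rintro v ⟨g, hg, hv⟩
    by_contra hcon
    push Not at hcon
    obtain ⟨x0, hx0, hmin⟩ := Finset.exists_min_image (W (m + 1)) (fun z => phi q z - a - v z) hs
    refine h ⟨m, g, phi q x0 - a - v x0, hcon x0 hx0, hg, fun z => ?_⟩
    set z' : Env := fun k => if k < m + 1 then z k else false with hz'
    have hz'W : z' ∈ W (m + 1) := by
      rw [mem_W]
      intro k hk
      simp only [hz']
      rw [if_neg (by omega)]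
    have hag : ∀ i < m + 1, z i = z' i := by
      intro i hi
      simp only [hz']
      rw [if_pos hi]
    have h1 : phi q z = phi q z' := dual_phi q z z' fun i hi => hag i (by omega)
    have h2 : A q m g z = A q m g z' := A_dep q m g hg z z' hag
    have h3 := hmin z' hz'W
    rw [hv z'] at h3
    rw [h1, h2]
    exact h3)
  obtain ⟨μ, hμ⟩ := ofFin (m + 1) p hp0 hp1
  refine ⟨μ, ?_, ?_⟩
  · intro n G hn hG
    rw [hμ (n + 1) (A q n G) (A_dep q n G hG)]
    have h1 : (A q m G) ∈ dual_V q m := ⟨G, Dep_mono hn hG, fun _ => rfl⟩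
    have h2 := hpV _ h1
    rw [← h2]
    exact Finset.sum_congr rfl fun y _ => by rw [A_level q n m hn G hG]
  · rw [hμ 1 (phi q) (dual_phi q)]
    have h1 : ∑ x ∈ W (m + 1), p x * (phi q x - a) =
        (∑ x ∈ W (m + 1), p x * phi q x) - (∑ x ∈ W (m + 1), p x) * a := by
      rw [Finset.sum_mul, ← Finset.sum_sub_distrib]
      exact Finset.sum_congr rfl fun x _ => by ring
    rw [h1, hp1, one_mul] at hpf
    linarith

theorem dual (q a : ℝ) (h : ¬ Cert q a) : ∃ μ : Fam, Inv q μ ∧ μ.E 1 (phi q) ≤ a := by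
  choose μs hμs1 hμs2 using dual_level q a h
  obtain ⟨U, μ, hU, hlim⟩ := ultra μs
  refine ⟨μ, ?_, ?_⟩
  · intro n G hG
    have h1 := ultra_E μs U μ hlim (n + 1) (A q n G)
    have h2 : (fun _ : ℕ => (0 : ℝ)) =ᶠ[U] fun m => (μs m).E (n + 1) (A q n G) := by
      refine hU ?_
      filter_upwards [eventually_ge_atTop n] with m hm
      exact (hμs1 m n G hm hG).symm
    exact tendsto_nhds_unique h1 (tendsto_const_nhds.congr' h2)
  · exact le_of_tendsto (ultra_E μs U μ hlim 1 (phi q)) (Eventually.of_forall fun m => hμs2 m)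

end FAF
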