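import Pool.Agent.Helper769.FAF.Base
import Pool.Agent.Helper769.FAF.P_ultra
import Pool.Agent.Helper769.FAF.P_E_one
import Pool.Agent.Helper769.FAF.P_E_lift

set_option autoImplicit false
set_option linter.unusedSectionVars false

open Finset Filter Topology

noncomputable section

namespace FAF

theorem minimizer_lb (q : ℝ) (μ : Fam) : -(|q| + |1 - q|) ≤ μ.E 1 (phi q) := by
  have h1 : μ.E 1 (fun _ => -(|q| + |1 - q|)) = -(|q| + |1 - q|) := by
    have h2 := E_one μ 1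
    unfold Fam.E at h2 ⊢
    simp only [mul_one] at h2
    rw [← Finset.sum_mul, h2, one_mul]
  rw [← h1]
  refine E_mono μ 1 _ _ (fun z _ => ?_)
  unfold phi
  have a1 := neg_abs_le q
  have a2 := le_abs_self (1 - q)
  have a3 := abs_nonneg (1 - q)
  split_ifs <;> linarith

theorem minimizer (q : ℝ) (h : ∃ μ, Inv q μ) :
    ∃ μ, Inv q μ ∧ ∀ μ', Inv q μ' → μ.E 1 (phi q) ≤ μ'.E 1 (phi q) := by
  set S : Set ℝ := {x | ∃ μ, Inv q μ ∧ x = μ.E 1 (phi q)} with hS
  have hne : S.Nonempty := by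
    obtain ⟨μ, hμ⟩ := h
    exact ⟨_, μ, hμ, rfl⟩
  have hbdd : BddBelow S := by
    refine ⟨-(|q| + |1 - q|), ?_⟩
    rintro x ⟨μ, -, rfl⟩
    exact minimizer_lb q μ
  have hch : ∀ m : ℕ, ∃ μ, Inv q μ ∧ μ.E 1 (phi q) < sInf S + 1 / ((m : ℝ) + 1) := by
    intro m
    obtain ⟨x, ⟨μ, hμ, rfl⟩, hx⟩ := exists_lt_of_csInf_lt hne
      (show sInf S < sInf S + 1 / ((m : ℝ) + 1) from lt_add_of_pos_right _ (by positivity))
    exact ⟨μ, hμ, hx⟩
  choose μs hInv hlt using hch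
  obtain ⟨U, μ, hU, hlim⟩ := ultra μs
  refine ⟨μ, ?_, ?_⟩
  · intro n G hG
    have h1 := ultra_E μs U μ hlim (n + 1) (A q n G)
    have h2 : (fun m => (μs m).E (n + 1) (A q n G)) = fun _ => (0:ℝ) := by
      funext m; exact hInv m n G hG
    rw [h2] at h1
    exact (tendsto_nhds_unique h1 tendsto_const_nhds)
  · intro μ' hμ'
    have h1 := ultra_E μs U μ hlim 1 (phi q)
    have h2 : Tendsto (fun m : ℕ => sInf S + 1 / ((m : ℝ) + 1)) U (𝓝 (sInf S + 0)) :=
      (tendsto_one_div_add_atTop_nhds_zero_nat.mono_left hU).const_add _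
    rw [add_zero] at h2
    have h3 : μ.E 1 (phi q) ≤ sInf S :=
      le_of_tendsto_of_tendsto' h1 h2 (fun m => (hlt m).le)
    exact h3.trans (csInf_le hbdd ⟨μ', hμ', rfl⟩)

end FAF
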