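import Pool.Agent.Helper769.FAF.Base
import Pool.Agent.Helper769.FAF.P_E_one
import Pool.Agent.Helper769.FAF.P_E_lift
import Pool.Agent.Helper769.FAF.P_A_level

set_option autoImplicit false
set_option linter.unusedSectionVars false

open Finset Filter Topology

noncomputable section

namespace FAF

theorem pos_ind_nonneg (P : Env → Prop) (z : Env) : 0 ≤ ind P z := by
  unfold ind; split_ifs <;> norm_num

theorem pos_ind_true (P : Env → Prop) (z : Env) (h : P z) : ind P z = 1 := by
  unfold ind; rw [if_pos h]

theorem pos_ind_false (P : Env → Prop) (z : Env) (h : ¬ P z) : ind P z = 0 := by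
  unfold ind; rw [if_neg h]

theorem pos_cr_nonneg (z : Env) (k : ℕ) : 0 ≤ cr z k := by
  unfold cr; split_ifs <;> norm_num

theorem pos_flip (q : ℝ) (h0 : 0 < q) (h1 : q < 1) (μ : Fam) (hI : Inv q μ) (n : ℕ) (z : Env)
    (hz : μ.p n z = 0) (k : ℕ) (hk : k < n) (hc : k = 0 ∨ z (k - 1) = true) :
    μ.p n (up z k (!z k)) = 0 := by
  have hq1 : 0 < 1 - q := by linarith
  obtain ⟨G, hG⟩ : ∃ G : Env → ℝ, G = ind (fun y => ∀ i < n, y i = z i) := ⟨_, rfl⟩
  have hGnn : ∀ y, 0 ≤ G y := by intro y; rw [hG]; exact pos_ind_nonneg _ _
  have hG1 : ∀ y : Env, (∀ i < n, y i = z i) → G y = 1 := by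
    intro y hy; rw [hG]; exact pos_ind_true _ _ hy
  have hG0 : ∀ y : Env, (¬ ∀ i < n, y i = z i) → G y = 0 := by
    intro y hy; rw [hG]; exact pos_ind_false _ _ hy
  have hDep : Dep n G := by
    intro a b hab
    by_cases ha : ∀ i < n, a i = z i
    · rw [hG1 a ha, hG1 b (fun i hi => by rw [← hab i hi]; exact ha i hi)]
    · rw [hG0 a ha, hG0 b (fun hb => ha fun i hi => by rw [hab i hi]; exact hb i hi)]
  have hE := hI n G hDep
  unfold Fam.E at hE
  -- terms of the sum
  have hsite : ∀ y : Env, G y = 0 → ∀ j, 0 ≤ cr y j * (q * G (up y j true) +
      (1 - q) * G (up y j false) - G y) := by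
    intro y hy j
    rw [hy]
    apply mul_nonneg (pos_cr_nonneg _ _)
    have := mul_nonneg h0.le (hGnn (up y j true))
    have := mul_nonneg hq1.le (hGnn (up y j false))
    linarith
  have hfront : ∀ y : Env, G y = 0 → 0 ≤ q * (G (cons true y) - G y)
      + (if y 0 = true then (1 - q) * (G (tl y) - G y) else 0) := by
    intro y hy
    rw [hy, sub_zero, sub_zero]
    have := mul_nonneg h0.le (hGnn (cons true y))
    have := mul_nonneg hq1.le (hGnn (tl y))
    split_ifs <;> linarith
  have hp0 : ∀ y : Env, (∀ i < n, y i = z i) → μ.p (n + 1) y = 0 := by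
    intro y hy
    have e1 : μ.p n y = 0 := by rw [μ.dep n y z hy]; exact hz
    rw [μ.con n y] at e1
    have e2 := μ.nn (n + 1) (up y n false)
    have e3 := μ.nn (n + 1) (up y n true)
    have e4 : y = up y n (y n) := by
      funext j
      unfold up
      split_ifs with hj
      · rw [hj]
      · rfl
    rw [e4]
    cases hb : y n
    · linarith
    · linarith
  have hterm : ∀ y ∈ W (n + 1), 0 ≤ μ.p (n + 1) y * A q n G y := by
    intro y _
    by_cases hy : ∀ i < n, y i = z i
    · rw [hp0 y hy, zero_mul]
    · have hy0 := hG0 y hy
      apply mul_nonneg (μ.nn _ _)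
      unfold A
      have := hfront y hy0
      have := Finset.sum_nonneg (fun j (_ : j ∈ range n) => hsite y hy0 j)
      linarith
  have hall := (Finset.sum_eq_zero_iff_of_nonneg hterm).1 hE
  -- the two extensions of w
  have hext : ∀ b : Bool, μ.p (n + 1) (up (up z k (!z k)) n b) = 0 := by
    intro b
    obtain ⟨y, hy⟩ : ∃ y : Env, y = fun i => if i < n + 1 then up (up z k (!z k)) n b i else false :=
      ⟨_, rfl⟩
    have hyW : y ∈ W (n + 1) := by
      rw [mem_W]
      intro j hj
      rw [hy]
      exact if_neg (by omega)
    have hyi : ∀ i < n, y i = up z k (!z k) i := by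
      intro i hi
      rw [hy]
      show (if i < n + 1 then up (up z k (!z k)) n b i else false) = _
      rw [if_pos (by omega)]
      unfold up
      rw [if_neg (by omega : ¬ i = n)]
    have hpe : μ.p (n + 1) (up (up z k (!z k)) n b) = μ.p (n + 1) y := by
      apply μ.dep
      intro i hi
      rw [hy]
      show _ = (if i < n + 1 then up (up z k (!z k)) n b i else false)
      rw [if_pos hi]
    rw [hpe]
    have hyk : y k = !z k := by
      rw [hyi k hk]; unfold up; rw [if_pos rfl]
    have hyne : ¬ ∀ i < n, y i = z i := by
      intro h
      have := h k hk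
      rw [hyk] at this
      cases hzk : z k <;> simp [hzk] at this
    have hy0 := hG0 y hyne
    have hcr : cr y k = 1 := by
      unfold cr
      rw [if_pos]
      rcases hc with h | h
      · exact Or.inl h
      · by_cases hk0 : k = 0
        · exact Or.inl hk0
        · refine Or.inr (Or.inl ?_)
          rw [hyi (k - 1) (by omega)]
          unfold up
          rw [if_neg (by omega)]
          exact h
    have hGk : G (up y k (z k)) = 1 := by
      apply hG1
      intro i hi
      unfold up
      split_ifs with hik
      · rw [hik]
      · rw [hyi i hi]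
        unfold up
        rw [if_neg hik]
    have hkterm : 0 < cr y k * (q * G (up y k true) + (1 - q) * G (up y k false) - G y) := by
      rw [hcr, hy0, one_mul, sub_zero]
      have e1 := mul_nonneg h0.le (hGnn (up y k true))
      have e2 := mul_nonneg hq1.le (hGnn (up y k false))
      cases hzk : z k
      · rw [hzk] at hGk
        rw [hGk, mul_one]; linarith
      · rw [hzk] at hGk
        rw [hGk, mul_one]; linarith
    have hA : 0 < A q n G y := by
      unfold A
      have e1 := hfront y hy0
      have e2 : cr y k * (q * G (up y k true) + (1 - q) * G (up y k false) - G y) ≤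
          ∑ j ∈ range n, cr y j * (q * G (up y j true) + (1 - q) * G (up y j false) - G y) :=
        Finset.single_le_sum (fun j _ => hsite y hy0 j) (Finset.mem_range.2 hk)
      linarith
    have h := hall y hyW
    rcases mul_eq_zero.1 h with h | h
    · exact h
    · exact absurd h hA.ne'
  rw [μ.con n, hext false, hext true, add_zero]

theorem pos_set (q : ℝ) (h0 : 0 < q) (h1 : q < 1) (μ : Fam) (hI : Inv q μ) (n : ℕ) (z : Env)
    (hz : μ.p n z = 0) (k : ℕ) (hk : k < n) (hc : k = 0 ∨ z (k - 1) = true) (b : Bool) :
    μ.p n (up z k b) = 0 := by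
  by_cases hb : b = z k
  · have : up z k b = z := by
      funext j
      unfold up
      split_ifs with hj
      · rw [hj, hb]
      · rfl
    rw [this]; exact hz
  · have hb' : b = !z k := by
      cases hzk : z k <;> cases b <;> simp_all
    rw [hb']
    exact pos_flip q h0 h1 μ hI n z hz k hk hc

theorem pos (q : ℝ) (h0 : 0 < q) (h1 : q < 1) (μ : Fam) (hI : Inv q μ) : ∀ n z, 0 < μ.p n z := by
  intro n z
  by_contra hcon
  have hz : μ.p n z = 0 := le_antisymm (not_lt.1 hcon) (μ.nn n z)
  have step1 : ∀ m ≤ n, μ.p n (fun i => if i < m then true else z i) = 0 := by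
    intro m
    induction m with
    | zero =>
      intro _
      simpa using hz
    | succ m ih =>
      intro hm
      have e : (fun i => if i < m + 1 then true else z i) =
          up (fun i => if i < m then true else z i) m true := by
        funext i
        unfold up
        by_cases hi : i = m
        · rw [if_pos hi, if_pos (by omega)]
        · rw [if_neg hi]
          show (if i < m + 1 then true else z i) = (if i < m then true else z i)
          by_cases hi2 : i < m
          · rw [if_pos hi2, if_pos (by omega)]
          · rw [if_neg hi2, if_neg (by omega)]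
      rw [e]
      refine pos_set q h0 h1 μ hI n _ (ih (by omega)) m (by omega) ?_ true
      by_cases hm0 : m = 0
      · exact Or.inl hm0
      · refine Or.inr ?_
        show (if m - 1 < m then true else z (m - 1)) = true
        rw [if_pos (by omega)]
  have step2 : ∀ w : Env, ∀ m ≤ n, μ.p n (fun i => if i < n - m then true else w i) = 0 := by
    intro w m
    induction m with
    | zero =>
      intro _
      rw [← step1 n le_rfl]
      apply μ.dep
      intro i hi
      show (if i < n - 0 then true else w i) = (if i < n then true else z i)
      rw [if_pos (by omega), if_pos hi]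
    | succ m ih =>
      intro hm
      have e : (fun i => if i < n - (m + 1) then true else w i) =
          up (fun i => if i < n - m then true else w i) (n - m - 1) (w (n - m - 1)) := by
        funext i
        unfold up
        by_cases hi : i = n - m - 1
        · rw [if_pos hi, if_neg (by omega), hi]
        · rw [if_neg hi]
          show (if i < n - (m + 1) then true else w i) = (if i < n - m then true else w i)
          by_cases hi2 : i < n - m
          · rw [if_pos hi2, if_pos (by omega)]
          · rw [if_neg hi2, if_neg (by omega)]
      rw [e]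
      refine pos_set q h0 h1 μ hI n _ (ih (by omega)) (n - m - 1) (by omega) ?_ _
      by_cases hm0 : n - m - 1 = 0
      · exact Or.inl hm0
      · refine Or.inr ?_
        show (if n - m - 1 - 1 < n - m then true else w (n - m - 1 - 1)) = true
        rw [if_pos (by omega)]
  have hzero : ∀ w : Env, μ.p n w = 0 := by
    intro w
    have := step2 w n le_rfl
    simpa using this
  have hone := E_one μ n
  unfold Fam.E at hone
  rw [Finset.sum_eq_zero (fun w _ => by rw [hzero w, zero_mul])] at hone
  exact zero_ne_one hone

end FAF
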