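import Pool.Agent.Helper769.FAF.Base
import Pool.Agent.Helper769.FAF.P_LE_leftL
import Pool.Agent.Helper769.FAF.P_Db_nonneg
import Pool.Agent.Helper769.FAF.P_E_lift
import Pool.Agent.Helper769.FAF.P_E_one

set_option autoImplicit false
set_option linter.unusedSectionVars false

open Finset Filter Topology

noncomputable section

namespace FAF

theorem gapL_ind_pos (P : Env → Prop) (z : Env) (h : P z) : ind P z = 1 := by
  unfold ind; exact if_pos h

theorem gapL_ind_neg (P : Env → Prop) (z : Env) (h : ¬ P z) : ind P z = 0 := by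
  unfold ind; exact if_neg h

theorem gapL_ind_nn (P : Env → Prop) (z : Env) : 0 ≤ ind P z := by
  by_cases h : P z
  · rw [gapL_ind_pos P z h]; exact zero_le_one
  · rw [gapL_ind_neg P z h]

theorem gapL_ind_le_one (P : Env → Prop) (z : Env) : ind P z ≤ 1 := by
  by_cases h : P z
  · rw [gapL_ind_pos P z h]
  · rw [gapL_ind_neg P z h]; exact zero_le_one

theorem gapL_ind_congr (P Q : Env → Prop) (z w : Env) (h : P z ↔ Q w) : ind P z = ind Q w := by
  by_cases hz : P z
  · rw [gapL_ind_pos P z hz, gapL_ind_pos Q w (h.mp hz)]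
  · rw [gapL_ind_neg P z hz, gapL_ind_neg Q w (fun hh => hz (h.mpr hh))]

theorem gapL_ind_mono (P Q : Env → Prop) (z : Env) (h : P z → Q z) : ind P z ≤ ind Q z := by
  by_cases hz : P z
  · rw [gapL_ind_pos P z hz, gapL_ind_pos Q z (h hz)]
  · rw [gapL_ind_neg P z hz]; exact gapL_ind_nn Q z

theorem gapL_step (q : ℝ) (h0 : 0 < q) (h1 : q < 1) (μ : Fam) (n L j : ℕ) (hj : j < L) :
    μ.E (n + L + 2) (ind (fun z => z n = true ∧ zr (n + 1 + j) (L - j) z)) ≤
      (1 - q) * μ.E (n + L + 2) (ind (fun z => z n = true ∧ zr (n + 1 + (j + 1)) (L - (j + 1)) z))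
      + ((j + 1 : ℕ) : ℝ) * (1 / q) ^ (j + 1) *
        ∑ i ∈ Finset.Icc n (n + 1 + j), Db q μ (n + L + 2) i := by
  have hLE := LE_leftL q h0 h1 μ (n + L + 2) (n + 1 + j) (j + 1) (by omega) (by omega)
  rw [show n + 1 + j - (j + 1) = n by omega] at hLE
  set t := n + 1 + j with ht
  set N := n + L + 2 with hN
  have htN : t < N := by omega
  set Q : Env → Prop := fun z => z n = true ∧ zr (n + 1 + (j + 1)) (L - (j + 1)) z with hQ
  unfold Fam.E
  rw [sum_split N t htN, sum_split N t htN (fun z => μ.p N z * ind Q z)]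
  have e1 : ∀ z ∈ (W N).filter (fun z => z t = false),
      μ.p N z * ind (fun z => z n = true ∧ zr t (L - j) z) z +
        μ.p N (up z t true) * ind (fun z => z n = true ∧ zr t (L - j) z) (up z t true) =
      μ.p N z * ind Q z := by
    intro z hz
    have hzt : z t = false := (Finset.mem_filter.mp hz).2
    rw [gapL_ind_neg _ (up z t true), mul_zero, add_zero]
    · congr 1
      apply gapL_ind_congr
      simp only [hQ]
      constructor
      · rintro ⟨a, b⟩
        exact ⟨a, fun k hk1 hk2 => b k (by omega) (by omega)⟩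
      · rintro ⟨a, b⟩
        refine ⟨a, fun k hk1 hk2 => ?_⟩
        by_cases hkt : k = t
        · rw [hkt]; exact hzt
        · exact b k (by omega) (by omega)
    · rintro ⟨_, b⟩
      have := b t le_rfl (by omega)
      simp [up] at this
  have e2 : ∀ z ∈ (W N).filter (fun z => z t = false),
      μ.p N z * ind Q z + μ.p N (up z t true) * ind Q (up z t true) =
      μ.p N z * ind Q z + μ.p N (up z t true) * ind Q z := by
    intro z hz
    congr 2
    apply gapL_ind_congr
    simp only [hQ]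
    have hu : ∀ k, k ≠ t → up z t true k = z k := fun k hk => by simp [up, hk]
    constructor
    · rintro ⟨a, b⟩
      refine ⟨by rw [← hu n (by omega)]; exact a, fun k hk1 hk2 => ?_⟩
      rw [← hu k (by omega)]
      exact b k hk1 hk2
    · rintro ⟨a, b⟩
      refine ⟨by rw [hu n (by omega)]; exact a, fun k hk1 hk2 => ?_⟩
      rw [hu k (by omega)]
      exact b k hk1 hk2
  rw [Finset.sum_congr rfl e1, Finset.sum_congr rfl e2]
  have e3 : ∑ z ∈ (W N).filter (fun z => z t = false), μ.p N z * ind Q z =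
      (1 - q) * ∑ z ∈ (W N).filter (fun z => z t = false),
        (μ.p N z * ind Q z + μ.p N (up z t true) * ind Q z) +
      ∑ z ∈ (W N).filter (fun z => z t = false),
        ind Q z * (q * μ.p N z - (1 - q) * μ.p N (up z t true)) := by
    rw [Finset.mul_sum, ← Finset.sum_add_distrib]
    apply Finset.sum_congr rfl
    intro z _
    ring
  rw [e3]
  apply add_le_add le_rfl
  refine le_trans ?_ hLE
  rw [Finset.sum_filter]
  apply Finset.sum_le_sum
  intro z _
  split_ifs with hzt
  · have h2 : ind Q z * (q * μ.p N z - (1 - q) * μ.p N (up z t true)) ≤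
        ind Q z * |q * μ.p N z - (1 - q) * μ.p N (up z t true)| :=
      mul_le_mul_of_nonneg_left (le_abs_self _) (gapL_ind_nn Q z)
    refine h2.trans ?_
    apply mul_le_mul_of_nonneg_right _ (abs_nonneg _)
    apply gapL_ind_mono
    rintro ⟨a, _⟩
    exact ⟨hzt, n, le_rfl, by omega, a⟩
  · exact mul_nonneg (gapL_ind_nn _ z) (abs_nonneg _)

theorem gapL (q : ℝ) (h0 : 0 < q) (h1 : q < 1) (μ : Fam) (d : ℕ → ℝ)
    (hd : Tendsto d atTop (𝓝 0)) (hD : ∀ k N, k + 2 ≤ N → Db q μ N k ≤ d k) (L : ℕ) (ε : ℝ)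
    (hε : 0 < ε) : ∃ n0 : ℕ, ∀ n ≥ n0,
      μ.E (n + L + 1) (ind (fun z => z n = true ∧ zr (n + 1) L z)) ≤ (1 - q) ^ L + ε := by
  set κ : ℝ := (L : ℝ) * (1 / q) ^ L * (L + 1) with hκ
  have hq1 : 1 ≤ 1 / q := by rw [le_div_iff₀ h0]; linarith
  have hκ0 : 0 ≤ κ := by positivity
  set δ : ℝ := ε / (L * κ + 1) with hδ
  have hδ0 : 0 < δ := by positivity
  have hev : ∀ᶠ i in atTop, |d i| < δ := by
    have := hd.abs
    rw [abs_zero] at this
    exact this.eventually_lt_const hδ0
  obtain ⟨n0, hn0⟩ := eventually_atTop.mp hev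
  refine ⟨n0, fun n hn => ?_⟩
  have hdep : Dep (n + L + 1) (ind (fun z => z n = true ∧ zr (n + 1) L z)) := by
    intro z w hzw
    apply gapL_ind_congr
    constructor
    · rintro ⟨a, b⟩
      refine ⟨by rw [← hzw n (by omega)]; exact a, fun k hk1 hk2 => ?_⟩
      rw [← hzw k (by omega)]; exact b k hk1 hk2
    · rintro ⟨a, b⟩
      refine ⟨by rw [hzw n (by omega)]; exact a, fun k hk1 hk2 => ?_⟩
      rw [hzw k (by omega)]; exact b k hk1 hk2
  rw [← E_lift μ (n + L + 1) (n + L + 2) (by omega) _ hdep]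
  have herr : ∀ j < L, ((j + 1 : ℕ) : ℝ) * (1 / q) ^ (j + 1) *
        ∑ i ∈ Finset.Icc n (n + 1 + j), Db q μ (n + L + 2) i ≤ κ * δ := by
    intro j hj
    have hs : ∑ i ∈ Finset.Icc n (n + 1 + j), Db q μ (n + L + 2) i ≤ ((L:ℝ) + 1) * δ := by
      have h2 : ∀ i ∈ Finset.Icc n (n + 1 + j), Db q μ (n + L + 2) i ≤ δ := by
        intro i hi
        rw [Finset.mem_Icc] at hi
        refine (hD i _ (by omega)).trans ?_
        exact (le_abs_self _).trans (hn0 i (by omega)).le
      refine (Finset.sum_le_sum h2).trans ?_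
      rw [Finset.sum_const, Nat.card_Icc, nsmul_eq_mul]
      apply mul_le_mul_of_nonneg_right _ hδ0.le
      have : n + 1 + j + 1 - n ≤ L + 1 := by omega
      exact_mod_cast this
    have hs0 : 0 ≤ ∑ i ∈ Finset.Icc n (n + 1 + j), Db q μ (n + L + 2) i :=
      Finset.sum_nonneg fun i _ => Db_nonneg q μ _ i
    have h3 : ((j + 1 : ℕ) : ℝ) * (1 / q) ^ (j + 1) ≤ (L : ℝ) * (1 / q) ^ L := by
      apply mul_le_mul
      · exact_mod_cast hj
      · exact pow_le_pow_right₀ hq1 hj
      · positivity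
      · positivity
    calc _ ≤ ((L : ℝ) * (1 / q) ^ L) * (((L:ℝ) + 1) * δ) :=
          mul_le_mul h3 hs hs0 (by positivity)
      _ = κ * δ := by rw [hκ]; ring
  have hind : ∀ j ≤ L, μ.E (n + L + 2) (ind (fun z => z n = true ∧ zr (n + 1) L z)) ≤
      (1 - q) ^ j * μ.E (n + L + 2) (ind (fun z => z n = true ∧ zr (n + 1 + j) (L - j) z))
      + j * (κ * δ) := by
    intro j
    induction j with
    | zero => intro _; simp
    | succ j ih =>
      intro hj
      have h4 := ih (by omega)
      have h5 := gapL_step q h0 h1 μ n L j (by omega)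
      have h6 := herr j (by omega)
      have h7 : (0:ℝ) ≤ (1 - q) ^ j := pow_nonneg (by linarith) _
      have h8 : (1 - q) ^ j ≤ 1 := pow_le_one₀ (by linarith) (by linarith)
      have h9 : (1 - q) ^ j * μ.E (n + L + 2) (ind (fun z => z n = true ∧ zr (n + 1 + j) (L - j) z))
          ≤ (1 - q) ^ j * ((1 - q) * μ.E (n + L + 2)
            (ind (fun z => z n = true ∧ zr (n + 1 + (j + 1)) (L - (j + 1)) z)) + κ * δ) :=
        mul_le_mul_of_nonneg_left (h5.trans (by linarith)) h7
      have h10 : (1 - q) ^ j * (κ * δ) ≤ κ * δ := by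
        have : 0 ≤ κ * δ := by positivity
        nlinarith
      push_cast
      rw [pow_succ]
      calc _ ≤ _ := h4
        _ ≤ (1 - q) ^ j * ((1 - q) * μ.E (n + L + 2)
            (ind (fun z => z n = true ∧ zr (n + 1 + (j + 1)) (L - (j + 1)) z)) + κ * δ)
            + j * (κ * δ) := by linarith
        _ = (1 - q) ^ j * (1 - q) * μ.E (n + L + 2)
            (ind (fun z => z n = true ∧ zr (n + 1 + (j + 1)) (L - (j + 1)) z))
            + (1 - q) ^ j * (κ * δ) + j * (κ * δ) := by ring
        _ ≤ _ := by linarith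
  have hA : μ.E (n + L + 2) (ind (fun z => z n = true ∧ zr (n + 1 + L) (L - L) z)) ≤ 1 := by
    rw [← E_one μ (n + L + 2)]
    exact E_mono μ _ _ _ fun z _ => gapL_ind_le_one _ z
  have h11 := hind L le_rfl
  have h12 : (1 - q) ^ L * μ.E (n + L + 2)
      (ind (fun z => z n = true ∧ zr (n + 1 + L) (L - L) z)) ≤ (1 - q) ^ L * 1 :=
    mul_le_mul_of_nonneg_left hA (pow_nonneg (by linarith) _)
  have h13 : L * (κ * δ) ≤ ε := by
    rw [hδ, ← mul_assoc, mul_div_assoc', div_le_iff₀ (by positivity)]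
    nlinarith
  linarith

end FAF
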