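import Pool.Agent.Helper769.FAF.Base
import Pool.Agent.Helper769.FAF.P_LE_rightL
import Pool.Agent.Helper769.FAF.P_Db_nonneg
import Pool.Agent.Helper769.FAF.P_E_lift
import Pool.Agent.Helper769.FAF.P_E_one

set_option autoImplicit false
set_option linter.unusedSectionVars false

open Finset Filter Topology

noncomputable section

namespace FAF

theorem gapR_ind1 {P : Env → Prop} {z : Env} (h : P z) : ind P z = 1 := by
  unfold ind
  exact if_pos h

theorem gapR_ind0 {P : Env → Prop} {z : Env} (h : ¬ P z) : ind P z = 0 := by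
  unfold ind
  exact if_neg h

theorem gapR_ind_nn (P : Env → Prop) (z : Env) : 0 ≤ ind P z := by
  by_cases h : P z
  · rw [gapR_ind1 h]; norm_num
  · rw [gapR_ind0 h]

theorem gapR_ind_le (P : Env → Prop) (z : Env) : ind P z ≤ 1 := by
  by_cases h : P z
  · rw [gapR_ind1 h]
  · rw [gapR_ind0 h]; norm_num

/-- one step of the recursion -/
theorem gapR_step (q : ℝ) (h0 : 0 < q) (h1 : q < 1) (μ : Fam) (n L l : ℕ) (hl : l < L) (δ : ℝ)
    (hδ0 : 0 ≤ δ) (hδ : ∀ i, n ≤ i → i ≤ n + L → Db q μ (n + L + 2) i ≤ δ) :
    μ.E (n + L + 2) (ind (fun z => zr n (l + 1) z ∧ z (n + L) = true)) ≤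
      (1 - q) * μ.E (n + L + 2) (ind (fun z => zr n l z ∧ z (n + L) = true)) +
        L * (1 / q) ^ L * ((L + 1) * δ) := by
  set N := n + L + 2 with hN
  set t := n + l with ht
  set I : Env → ℝ := ind (fun z => zr n l z ∧ z (n + L) = true) with hI
  have hupt : ∀ z : Env, (up z t true) t = true := by
    intro z; simp [up]
  have hup : ∀ (z : Env) (j : ℕ), j ≠ t → (up z t true) j = z j := by
    intro z j hj; simp [up, hj]
  -- the two expectations
  have hB1 : μ.E N (ind (fun z => zr n (l + 1) z ∧ z (n + L) = true))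
      = ∑ z ∈ (W N).filter (fun z => z t = false), μ.p N z * I z := by
    unfold Fam.E
    rw [sum_split N t (by omega)]
    apply Finset.sum_congr rfl
    intro z hz
    have hzt : z t = false := (Finset.mem_filter.1 hz).2
    have e1 : ind (fun z => zr n (l + 1) z ∧ z (n + L) = true) (up z t true) = 0 := by
      apply gapR_ind0
      rintro ⟨h, _⟩
      have := h t (by omega) (by omega)
      rw [hupt] at this
      exact absurd this (by simp)
    have e2 : ind (fun z => zr n (l + 1) z ∧ z (n + L) = true) z = I z := by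
      by_cases h : zr n l z ∧ z (n + L) = true
      · rw [hI, gapR_ind1 (P := fun z => zr n l z ∧ z (n + L) = true) h]
        apply gapR_ind1
        refine ⟨?_, h.2⟩
        intro j hj1 hj2
        by_cases hjt : j = t
        · rw [hjt]; exact hzt
        · exact h.1 j hj1 (by omega)
      · rw [hI, gapR_ind0 (P := fun z => zr n l z ∧ z (n + L) = true) h]
        apply gapR_ind0
        rintro ⟨h2, h3⟩
        exact h ⟨fun j hj1 hj2 => h2 j hj1 (by omega), h3⟩
    rw [e1, e2]
    ring
  have hB0 : μ.E N I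
      = ∑ z ∈ (W N).filter (fun z => z t = false), (μ.p N z * I z + μ.p N (up z t true) * I z) := by
    unfold Fam.E
    rw [sum_split N t (by omega)]
    apply Finset.sum_congr rfl
    intro z hz
    have e1 : I (up z t true) = I z := by
      have hiff : (zr n l (up z t true) ∧ (up z t true) (n + L) = true) ↔
          (zr n l z ∧ z (n + L) = true) := by
        rw [hup z (n + L) (by omega)]
        constructor
        · rintro ⟨h2, h3⟩
          refine ⟨fun j hj1 hj2 => ?_, h3⟩
          have := h2 j hj1 hj2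
          rwa [hup z j (by omega)] at this
        · rintro ⟨h2, h3⟩
          refine ⟨fun j hj1 hj2 => ?_, h3⟩
          rw [hup z j (by omega)]
          exact h2 j hj1 hj2
      by_cases h : zr n l z ∧ z (n + L) = true
      · rw [hI, gapR_ind1 (P := fun z => zr n l z ∧ z (n + L) = true) h,
          gapR_ind1 (P := fun z => zr n l z ∧ z (n + L) = true) (hiff.2 h)]
      · rw [hI, gapR_ind0 (P := fun z => zr n l z ∧ z (n + L) = true) h,
          gapR_ind0 (P := fun z => zr n l z ∧ z (n + L) = true) (fun h' => h (hiff.1 h'))]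
    rw [e1]
  -- comparison
  have hcmp : q * (∑ z ∈ (W N).filter (fun z => z t = false), μ.p N z * I z)
      - (1 - q) * (∑ z ∈ (W N).filter (fun z => z t = false), μ.p N (up z t true) * I z)
      ≤ L * (1 / q) ^ L * ((L + 1) * δ) := by
    have hLE := LE_rightL q h0 h1 μ N t (L - l) (by omega)
    have hb1 : q * (∑ z ∈ (W N).filter (fun z => z t = false), μ.p N z * I z)
      - (1 - q) * (∑ z ∈ (W N).filter (fun z => z t = false), μ.p N (up z t true) * I z)
      ≤ ∑ z ∈ W N, ind (fun z => z t = false ∧ ∃ j, t < j ∧ j ≤ t + (L - l) ∧ z j = true) z *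
        |q * μ.p N z - (1 - q) * μ.p N (up z t true)| := by
      rw [Finset.mul_sum, Finset.mul_sum, ← Finset.sum_sub_distrib]
      calc _ ≤ ∑ z ∈ (W N).filter (fun z => z t = false),
            ind (fun z => z t = false ∧ ∃ j, t < j ∧ j ≤ t + (L - l) ∧ z j = true) z *
            |q * μ.p N z - (1 - q) * μ.p N (up z t true)| := by
            apply Finset.sum_le_sum
            intro z hz
            have hzt : z t = false := (Finset.mem_filter.1 hz).2
            by_cases h : zr n l z ∧ z (n + L) = true
            · have e1 : I z = 1 := gapR_ind1 (P := fun z => zr n l z ∧ z (n + L) = true) h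
              have e2 : ind (fun z => z t = false ∧ ∃ j, t < j ∧ j ≤ t + (L - l) ∧ z j = true) z
                  = 1 := by
                apply gapR_ind1
                exact ⟨hzt, n + L, by omega, by omega, h.2⟩
              rw [e1, e2]
              calc q * (μ.p N z * 1) - (1 - q) * (μ.p N (up z t true) * 1)
                  = q * μ.p N z - (1 - q) * μ.p N (up z t true) := by ring
                _ ≤ |q * μ.p N z - (1 - q) * μ.p N (up z t true)| := le_abs_self _
                _ = _ := by ring
            · have e1 : I z = 0 := gapR_ind0 (P := fun z => zr n l z ∧ z (n + L) = true) h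
              rw [e1]
              have := gapR_ind_nn
                (fun z => z t = false ∧ ∃ j, t < j ∧ j ≤ t + (L - l) ∧ z j = true) z
              have h3 := abs_nonneg (q * μ.p N z - (1 - q) * μ.p N (up z t true))
              have := mul_nonneg this h3
              linarith
        _ ≤ _ := by
            apply Finset.sum_le_sum_of_subset_of_nonneg (Finset.filter_subset _ _)
            intro z _ _
            exact mul_nonneg (gapR_ind_nn _ z) (abs_nonneg _)
    refine hb1.trans (hLE.trans ?_)
    have hq1 : (1 : ℝ) ≤ 1 / q := by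
      rw [le_div_iff₀ h0]; linarith
    have hLl : ((L - l : ℕ) : ℝ) ≤ (L : ℝ) := by exact_mod_cast Nat.sub_le L l
    have hsum : ∑ j ∈ Finset.Icc t (t + (L - l)), Db q μ N j ≤ ((L : ℝ) + 1) * δ := by
      calc ∑ j ∈ Finset.Icc t (t + (L - l)), Db q μ N j
          ≤ ∑ j ∈ Finset.Icc t (t + (L - l)), δ := by
            apply Finset.sum_le_sum
            intro j hj
            rw [Finset.mem_Icc] at hj
            exact hδ j (by omega) (by omega)
        _ = (((t + (L - l) + 1 - t : ℕ)) : ℝ) * δ := by
            rw [Finset.sum_const, Nat.card_Icc, nsmul_eq_mul]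
        _ ≤ ((L : ℝ) + 1) * δ := by
            gcongr
            have : t + (L - l) + 1 - t ≤ L + 1 := by omega
            exact_mod_cast this
    have hsum0 : 0 ≤ ∑ j ∈ Finset.Icc t (t + (L - l)), Db q μ N j :=
      Finset.sum_nonneg fun j _ => Db_nonneg q μ N j
    have hpow : (1 / q) ^ (L - l) ≤ (1 / q) ^ L := pow_le_pow_right₀ hq1 (Nat.sub_le L l)
    have hpow0 : 0 ≤ (1 / q) ^ (L - l) := by positivity
    calc ((L - l : ℕ) : ℝ) * (1 / q) ^ (L - l) * ∑ j ∈ Finset.Icc t (t + (L - l)), Db q μ N j
        ≤ (L : ℝ) * (1 / q) ^ L * ∑ j ∈ Finset.Icc t (t + (L - l)), Db q μ N j := by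
          gcongr
      _ ≤ (L : ℝ) * (1 / q) ^ L * (((L : ℝ) + 1) * δ) := by
          gcongr
  rw [hB1, hB0, Finset.sum_add_distrib]
  nlinarith [hcmp]

theorem gapR (q : ℝ) (h0 : 0 < q) (h1 : q < 1) (μ : Fam) (d : ℕ → ℝ)
    (hd : Tendsto d atTop (𝓝 0)) (hD : ∀ k N, k + 2 ≤ N → Db q μ N k ≤ d k) (L : ℕ) (ε : ℝ)
    (hε : 0 < ε) : ∃ n0 : ℕ, ∀ n ≥ n0,
      μ.E (n + L + 1) (ind (fun z => zr n L z ∧ z (n + L) = true)) ≤ (1 - q) ^ L + ε := by
  set K : ℝ := L * (L * (1 / q) ^ L * ((L : ℝ) + 1)) + 1 with hK
  have hKpos : 0 < K := by positivity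
  set δ : ℝ := ε / K with hδ
  have hδpos : 0 < δ := by positivity
  obtain ⟨n0, hn0⟩ := Filter.eventually_atTop.1 (hd.eventually (gt_mem_nhds hδpos))
  refine ⟨n0, fun n hn => ?_⟩
  have hDb : ∀ i, n ≤ i → i ≤ n + L → Db q μ (n + L + 2) i ≤ δ := by
    intro i hi1 hi2
    exact (hD i (n + L + 2) (by omega)).trans (hn0 i (by omega)).le
  set err : ℝ := L * (1 / q) ^ L * (((L : ℝ) + 1) * δ) with herr
  have herr0 : 0 ≤ err := by positivity
  have hind : ∀ l ≤ L, μ.E (n + L + 2) (ind (fun z => zr n l z ∧ z (n + L) = true))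
      ≤ (1 - q) ^ l + l * err := by
    intro l
    induction l with
    | zero =>
      intro _
      calc _ ≤ μ.E (n + L + 2) (fun _ => 1) := E_mono μ _ _ _ fun z _ => gapR_ind_le _ z
        _ = 1 := E_one μ _
        _ = _ := by simp
    | succ l ih =>
      intro hl
      have h2 := gapR_step q h0 h1 μ n L l (by omega) δ hδpos.le hDb
      have h3 := ih (by omega)
      have hq' : 0 ≤ 1 - q := by linarith
      calc _ ≤ (1 - q) * μ.E (n + L + 2) (ind (fun z => zr n l z ∧ z (n + L) = true)) + err := h2
        _ ≤ (1 - q) * ((1 - q) ^ l + l * err) + err := by gcongr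
        _ ≤ (1 - q) ^ (l + 1) + ((l + 1 : ℕ) : ℝ) * err := by
          push_cast
          have : 0 ≤ q * (l * err) := by positivity
          rw [pow_succ]
          nlinarith
  have hlift : μ.E (n + L + 2) (ind (fun z => zr n L z ∧ z (n + L) = true))
      = μ.E (n + L + 1) (ind (fun z => zr n L z ∧ z (n + L) = true)) := by
    apply E_lift μ (n + L + 1) (n + L + 2) (by omega)
    intro z w hzw
    have hiff : (zr n L z ∧ z (n + L) = true) ↔ (zr n L w ∧ w (n + L) = true) := by
      rw [hzw (n + L) (by omega)]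
      constructor
      · rintro ⟨h2, h3⟩
        exact ⟨fun j hj1 hj2 => (hzw j (by omega)) ▸ h2 j hj1 hj2, h3⟩
      · rintro ⟨h2, h3⟩
        exact ⟨fun j hj1 hj2 => (hzw j (by omega)).symm ▸ h2 j hj1 hj2, h3⟩
    by_cases h : zr n L z ∧ z (n + L) = true
    · rw [gapR_ind1 (P := fun z => zr n L z ∧ z (n + L) = true) h,
        gapR_ind1 (P := fun z => zr n L z ∧ z (n + L) = true) (hiff.1 h)]
    · rw [gapR_ind0 (P := fun z => zr n L z ∧ z (n + L) = true) h,
        gapR_ind0 (P := fun z => zr n L z ∧ z (n + L) = true) (fun h' => h (hiff.2 h'))]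
  rw [← hlift]
  refine (hind L le_rfl).trans ?_
  have hfin : (L : ℝ) * err ≤ ε := by
    have e1 : (L : ℝ) * err = (K - 1) * δ := by
      rw [herr, hK]; ring
    have e2 : K * δ = ε := by
      rw [hδ]; field_simp
    nlinarith
  linarith

end FAF
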