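import Pool.Agent.Helper769.FAF.Base
import Pool.Agent.Helper769.FAF.P_E_lift

set_option autoImplicit false
set_option linter.unusedSectionVars false

open Finset Filter Topology

noncomputable section

namespace FAF

theorem shift_gap_pos (P : Env → Prop) (z : Env) (h : P z) : ind P z = 1 := by
  unfold ind
  simp [h]

theorem shift_gap_neg (P : Env → Prop) (z : Env) (h : ¬ P z) : ind P z = 0 := by
  unfold ind
  simp [h]

theorem shift_gap_nonneg (P : Env → Prop) (z : Env) : 0 ≤ ind P z := by
  by_cases h : P z
  · rw [shift_gap_pos P z h]; norm_num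
  · rw [shift_gap_neg P z h]

theorem shift_gap_dep (n L : ℕ) :
    Dep (n + L + 1) (ind (fun z => z n = true ∧ zr (n + 1) L z)) := by
  intro z w h
  have e : (z n = true ∧ zr (n + 1) L z) ↔ (w n = true ∧ zr (n + 1) L w) := by
    rw [h n (by omega)]
    constructor
    · rintro ⟨a, b⟩
      refine ⟨a, fun j hj hj' => ?_⟩
      rw [← h j (by omega)]
      exact b j hj hj'
    · rintro ⟨a, b⟩
      refine ⟨a, fun j hj hj' => ?_⟩
      rw [h j (by omega)]
      exact b j hj hj'
  by_cases hz : z n = true ∧ zr (n + 1) L z
  · rw [shift_gap_pos (fun z => z n = true ∧ zr (n + 1) L z) z hz,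
      shift_gap_pos (fun z => z n = true ∧ zr (n + 1) L z) w (e.1 hz)]
  · rw [shift_gap_neg (fun z => z n = true ∧ zr (n + 1) L z) z hz,
      shift_gap_neg (fun z => z n = true ∧ zr (n + 1) L z) w (fun hw => hz (e.2 hw))]

/-- shifting the healthy block by one site changes little -/
theorem shift_gap (μ : Fam) (n L : ℕ) :
    |μ.E (n + L + 2) (ind (zr n (L + 1))) - μ.E (n + L + 2) (ind (zr (n + 1) (L + 1)))|
      ≤ μ.E (n + L + 1) (ind (fun z => z n = true ∧ zr (n + 1) L z))
        + μ.E (n + L + 2) (ind (fun z => zr (n + 1) L z ∧ z (n + 1 + L) = true)) := by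
  rw [← E_lift μ (n + L + 1) (n + L + 2) (by omega) _ (shift_gap_dep n L)]
  set A := ind (zr n (L + 1)) with hA
  set B := ind (zr (n + 1) (L + 1)) with hB
  set C := ind (fun z => z n = true ∧ zr (n + 1) L z) with hC
  set D := ind (fun z => zr (n + 1) L z ∧ z (n + 1 + L) = true) with hD
  have hCn : ∀ z, 0 ≤ C z := fun z => shift_gap_nonneg _ z
  have hDn : ∀ z, 0 ≤ D z := fun z => shift_gap_nonneg _ z
  have hAn : ∀ z, 0 ≤ A z := fun z => shift_gap_nonneg _ z
  have hBn : ∀ z, 0 ≤ B z := fun z => shift_gap_nonneg _ z
  have h1 : ∀ z ∈ W (n + L + 2), A z - B z ≤ C z + D z := by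
    intro z _
    by_cases ha : zr n (L + 1) z
    · by_cases hb : zr (n + 1) (L + 1) z
      · have e1 : A z = 1 := shift_gap_pos _ z ha
        have e2 : B z = 1 := shift_gap_pos _ z hb
        have := hCn z
        have := hDn z
        linarith
      · have e1 : A z = 1 := shift_gap_pos _ z ha
        have e2 : D z = 1 := by
          apply shift_gap_pos
          refine ⟨fun j hj hj' => ha j (by omega) (by omega), ?_⟩
          by_contra hf
          apply hb
          intro j hj hj'
          rcases Nat.lt_or_ge j (n + 1 + L) with h | h
          · exact ha j (by omega) (by omega)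
          · have : j = n + 1 + L := by omega
            rw [this]
            simpa using hf
        have := hCn z
        have := hBn z
        linarith
    · have e1 : A z = 0 := shift_gap_neg _ z ha
      have := hCn z
      have := hDn z
      have := hBn z
      linarith
  have h2 : ∀ z ∈ W (n + L + 2), B z - A z ≤ C z + D z := by
    intro z _
    by_cases hb : zr (n + 1) (L + 1) z
    · by_cases ha : zr n (L + 1) z
      · have e1 : A z = 1 := shift_gap_pos _ z ha
        have e2 : B z = 1 := shift_gap_pos _ z hb
        have := hCn z
        have := hDn z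
        linarith
      · have e1 : B z = 1 := shift_gap_pos _ z hb
        have e2 : C z = 1 := by
          apply shift_gap_pos
          refine ⟨?_, fun j hj hj' => hb j (by omega) (by omega)⟩
          by_contra hf
          apply ha
          intro j hj hj'
          rcases Nat.lt_or_ge n j with h | h
          · exact hb j (by omega) (by omega)
          · have : j = n := by omega
            rw [this]
            simpa using hf
        have := hDn z
        have := hAn z
        linarith
    · have e1 : B z = 0 := shift_gap_neg _ z hb
      have := hCn z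
      have := hDn z
      have := hAn z
      linarith
  have k1 := E_mono μ (n + L + 2) (fun z => A z - B z) (fun z => C z + D z) h1
  have k2 := E_mono μ (n + L + 2) (fun z => B z - A z) (fun z => C z + D z) h2
  rw [E_sub, E_add] at k1 k2
  rw [abs_le]
  constructor
  · linarith
  · linarith

end FAF
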