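import Pool.Agent.Helper769.FAF.Base
import Pool.Agent.Helper769.FAF.P_dual
import Pool.Agent.Helper769.FAF.P_pos
import Pool.Agent.Helper769.FAF.P_ident
import Pool.Agent.Helper769.FAF.P_Tb_le
import Pool.Agent.Helper769.FAF.P_Db_unif
import Pool.Agent.Helper769.FAF.P_gapL
import Pool.Agent.Helper769.FAF.P_gapR
import Pool.Agent.Helper769.FAF.P_F2
import Pool.Agent.Helper769.FAF.P_al_lower
import Pool.Agent.Helper769.FAF.P_al_upper
import Pool.Agent.Helper769.FAF.P_carre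
import Pool.Agent.Helper769.FAF.P_shift_gap
import Pool.Agent.Helper769.FAF.P_A_dep
import Pool.Agent.Helper769.FAF.P_E_one
import Pool.Agent.Helper769.FAF.P_E_lift
import Pool.Agent.Helper769.FAF.P_lf_dep

set_option autoImplicit false
set_option linter.unusedSectionVars false

open Finset Filter Topology

noncomputable section

namespace FAF

theorem small_prod_arith {q l v K M ρ δ ε η lq Tb Eal Eup e1 e2 e3 sg g2 F T : ℝ}
    (h0 : 0 < q) (h1 : q < 1) (hl : 0 < l) (hv : v ≤ 0) (hM : 0 ≤ M) (hρ : 0 < ρ) 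
    (hδ : δ ≤ ρ) (hlq : 0 ≤ lq)
    (hT : T = l * v + Tb - q * Eal + (1 - q) * Eup) (hTb : Tb ≤ K * ρ)
    (hal : l * e1 - (2 + l) * sg ≤ Eal) (hsg : sg ≤ ρ)
    (hup : Eup ≤ l * e2 + lq * g2 + 1 / (q * (1 - q)) * F) (hg2 : g2 ≤ δ) (hF : F ≤ ρ)
    (he13 : e3 - 2 * δ ≤ e1) (hΦ : -(8 * M * δ) + (v - ε) * e3 ≤ q * e3 - (1 - q) * e2)
    (he3 : 0 ≤ e3) (he3' : e3 ≤ 1) (hε : 0 ≤ ε) (hlε : l * ε ≤ η / 8)
    (hρη : (K + 8 * M * l + 2 * l + (2 + l) + lq + 1 / q) * ρ ≤ η / 2) (hη : 0 < η) : T ≤ η := by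
  have q1 : 0 < 1 - q := by linarith
  have a1 : q * (l * (e3 - 2 * δ) - (2 + l) * ρ) ≤ q * Eal := by
    apply mul_le_mul_of_nonneg_left _ h0.le
    have b1 : l * (e3 - 2 * δ) ≤ l * e1 := mul_le_mul_of_nonneg_left he13 hl.le
    have b2 : (2 + l) * sg ≤ (2 + l) * ρ := mul_le_mul_of_nonneg_left hsg (by linarith)
    linarith
  have a2 : (1 - q) * Eup ≤ (1 - q) * (l * e2) + lq * ρ + 1 / q * ρ := by
    have b1 : lq * g2 ≤ lq * ρ := mul_le_mul_of_nonneg_left (hg2.trans hδ) hlq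
    have b2 : 1 / (q * (1 - q)) * F ≤ 1 / (q * (1 - q)) * ρ := mul_le_mul_of_nonneg_left hF (by positivity)
    have b3 : (1 - q) * Eup ≤ (1 - q) * (l * e2 + lq * ρ + 1 / (q * (1 - q)) * ρ) :=
      mul_le_mul_of_nonneg_left (by linarith) q1.le
    have b4 : (1 - q) * (1 / (q * (1 - q)) * ρ) = 1 / q * ρ := by
      field_simp
    have b5 : (1 - q) * (lq * ρ) ≤ 1 * (lq * ρ) :=
      mul_le_mul_of_nonneg_right (by linarith) (by positivity)
    have b6 : (1 - q) * (l * e2 + lq * ρ + 1 / (q * (1 - q)) * ρ) =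
      (1 - q) * (l * e2) + (1 - q) * (lq * ρ) + (1 - q) * (1 / (q * (1 - q)) * ρ) := by ring
    rw [b6, b4] at b3
    linarith
  have a3 : l * (-(8 * M * δ) + (v - ε) * e3) ≤ l * (q * e3 - (1 - q) * e2) :=
    mul_le_mul_of_nonneg_left hΦ hl.le
  have a4 : l * (8 * M * δ) ≤ 8 * M * l * ρ := by
    have : l * (8 * M * δ) = 8 * M * l * δ := by ring
    rw [this]
    exact mul_le_mul_of_nonneg_left hδ (by positivity)
  have a5 : q * (l * (2 * δ)) ≤ 2 * l * ρ := by
    have c1 : q * (l * (2 * δ)) ≤ q * (l * (2 * ρ)) := by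
      apply mul_le_mul_of_nonneg_left _ h0.le
      apply mul_le_mul_of_nonneg_left _ hl.le
      linarith
    have c2 : q * (l * (2 * ρ)) ≤ 1 * (l * (2 * ρ)) := mul_le_mul_of_nonneg_right h1.le (by positivity)
    linarith
  have a6 : q * ((2 + l) * ρ) ≤ (2 + l) * ρ := by
    have c2 : q * ((2 + l) * ρ) ≤ 1 * ((2 + l) * ρ) := mul_le_mul_of_nonneg_right h1.le (by positivity)
    linarith
  have a7 : l * v * (1 - e3) ≤ 0 := by
    apply mul_nonpos_of_nonpos_of_nonneg
    · exact mul_nonpos_of_nonneg_of_nonpos hl.le hv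
    · linarith
  have a8 : l * ε * e3 ≤ l * ε * 1 := mul_le_mul_of_nonneg_left he3' (by positivity)
  have a9 : (K + 8 * M * l + 2 * l + (2 + l) + lq + 1 / q) * ρ =
    K * ρ + 8 * M * l * ρ + 2 * l * ρ + (2 + l) * ρ + lq * ρ + 1 / q * ρ := by ring
  rw [a9] at hρη
  have a10 : q * (l * (e3 - 2 * δ) - (2 + l) * ρ) = q * l * e3 - q * (l * (2 * δ)) - q * ((2 + l) * ρ) := by ring
  rw [a10] at a1
  have a11 : l * (-(8 * M * δ) + (v - ε) * e3) = - (l * (8 * M * δ)) + l * v * e3 - l * ε * e3 := by ring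
  rw [a11] at a3
  have a12 : l * (q * e3 - (1 - q) * e2) = q * l * e3 - (1 - q) * (l * e2) := by ring
  rw [a12] at a3
  have a13 : l * v * (1 - e3) = l * v - l * v * e3 := by ring
  rw [a13] at a7
  rw [hT]
  linarith

theorem small_prod_ind_nonneg (P : Env → Prop) (z : Env) : 0 ≤ ind P z := by
  unfold ind
  split_ifs <;> norm_num

theorem small_prod_ind_le_one (P : Env → Prop) (z : Env) : ind P z ≤ 1 := by
  unfold ind
  split_ifs <;> norm_num

theorem small_prod_dep_ind {n : ℕ} {P : Env → Prop} (h : ∀ z w : Env, (∀ i < n, z i = w i) → (P z ↔ P w)) :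
    Dep n (ind P) := by
  intro z w hzw
  unfold ind
  have := h z w hzw
  by_cases hp : P z
  · rw [if_pos hp, if_pos (this.1 hp)]
  · rw [if_neg hp, if_neg (fun h' => hp (this.2 h'))]

theorem small_prod_zr_dep {n s L : ℕ} (h : s + L ≤ n) (z w : Env) (hzw : ∀ i < n, z i = w i) :
    zr s L z ↔ zr s L w := by
  unfold zr
  constructor
  · intro hz j h1 h2
    rw [← hzw j (by omega)]
    exact hz j h1 h2
  · intro hz j h1 h2
    rw [hzw j (by omega)]
    exact hz j h1 h2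

theorem small_prod_bound {m : ℕ} {g : Env → ℝ} (hg : Dep m g) : ∃ M : ℝ, 0 ≤ M ∧ ∀ z, |g z| ≤ M := by
  refine ⟨∑ z ∈ W m, |g z|, Finset.sum_nonneg (fun _ _ => abs_nonneg _), fun z => ?_⟩
  have h1 : g z = g (fun k => if k < m then z k else false) := by
    apply hg
    intro i hi
    simp [hi]
  have h2 : (fun k => if k < m then z k else false) ∈ W m := by
    rw [mem_W]
    intro k hk
    have : ¬ k < m := by omega
    simp [this]
  rw [h1]
  exact Finset.single_le_sum (f := fun z => |g z|) (fun _ _ => abs_nonneg _) h2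

/-- key step: a minimising invariant family with nonpositive drift has no production -/
theorem small_prod (q : ℝ) (h0 : 0 < q) (h1 : q < 1) (μ : Fam) (hI : Inv q μ)
    (hmin : ∀ μ', Inv q μ' → μ.E 1 (phi q) ≤ μ'.E 1 (phi q)) (hv : μ.E 1 (phi q) ≤ 0)
    (η : ℝ) (hη : 0 < η) : ∃ n, 1 ≤ n ∧ Pf q μ n + ∑ k ∈ range n, Pb q μ (n + 1) k ≤ η := by
  have hp := pos q h0 h1 μ hI
  obtain ⟨d, hd, hD⟩ := Db_unif q h0 h1 μ hI hp
  set l : ℝ := - Real.log (1 - q) with hl
  have hlpos : 0 < l := by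
    rw [hl]
    have := Real.log_neg (by linarith : 0 < 1 - q) (by linarith : 1 - q < 1)
    linarith
  set v : ℝ := μ.E 1 (phi q) with hvdef
  set ε : ℝ := η / (8 * (l + 1)) with hε
  have hεpos : 0 < ε := by positivity
  have hcert : Cert q (v - ε) := by
    by_contra hc
    obtain ⟨μ', hI', hE'⟩ := dual q (v - ε) hc
    have := hmin μ' hI'
    linarith
  obtain ⟨m, g, c, hc, hg, hcert⟩ := hcert
  obtain ⟨M, hM0, hM⟩ := small_prod_bound hg
  set lq : ℝ := Real.log (1 / q) with hlqdef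
  have hlq : 0 ≤ lq := by
    rw [hlqdef]
    apply Real.log_nonneg
    rw [le_div_iff₀ h0]
    linarith
  set K : ℝ := 1 + Real.log (1 / q) + Real.log (1 / (1 - q)) with hKdef
  have hK : 0 ≤ K := by
    rw [hKdef]
    have h2 : 0 ≤ Real.log (1 / (1 - q)) := by
      apply Real.log_nonneg
      rw [le_div_iff₀ (by linarith)]
      linarith
    have h3 : 0 ≤ Real.log (1 / q) := hlq
    linarith
  set Cs : ℝ := K + 8 * M * l + 2 * l + (2 + l) + lq + 1 / q with hCs
  have hCspos : 0 < Cs := by positivity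
  set ρ : ℝ := min 1 (η / (2 * Cs)) with hρdef
  have hρ : 0 < ρ := lt_min one_pos (by positivity)
  have hρ1 : ρ ≤ 1 := min_le_left _ _
  have hρη : Cs * ρ ≤ η / 2 := by
    have : ρ ≤ η / (2 * Cs) := min_le_right _ _
    calc Cs * ρ ≤ Cs * (η / (2 * Cs)) := mul_le_mul_of_nonneg_left this hCspos.le
      _ = η / 2 := by field_simp
  set δ : ℝ := ρ ^ 2 with hδdef
  have hδpos : 0 < δ := by positivity
  have hδρ : δ ≤ ρ := by
    rw [hδdef, pow_two]
    exact mul_le_of_le_one_left hρ.le hρ1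
  obtain ⟨L', hL'⟩ := exists_pow_lt_of_lt_one (show (0 : ℝ) < δ / 2 by positivity) (show (1 - q) < 1 by linarith)
  have hL : (1 - q) ^ (L' + 1) ≤ δ / 2 := by
    rw [pow_succ]
    have : 0 ≤ (1 - q) ^ L' := pow_nonneg (by linarith) _
    nlinarith
  obtain ⟨n1, hn1⟩ := gapL q h0 h1 μ d hd hD L' (δ / 2) (by positivity)
  obtain ⟨n2, hn2⟩ := gapR q h0 h1 μ d hd hD L' (δ / 2) (by positivity)
  obtain ⟨n3, hn3⟩ := gapR q h0 h1 μ d hd hD (L' + 1) (δ / 2) (by positivity)
  obtain ⟨n4, hn4⟩ := F2 q h0 h1 μ d hd hD (L' + 1) ρ hρ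
  obtain ⟨n5, hn5⟩ := (eventually_atTop).1 (hd.eventually (ge_mem_nhds hδpos))
  set t : ℕ := m + 3 + n1 + n2 + n3 + n4 + n5 with ht
  refine ⟨t + 1 + L', by omega, ?_⟩
  have gL : ∀ n, t ≤ n → μ.E (n + L' + 1) (ind (fun z => z n = true ∧ zr (n + 1) L' z)) ≤ δ := by
    intro n hn
    have := hn1 n (by omega)
    linarith
  have gR : ∀ n, t ≤ n → μ.E (n + L' + 1) (ind (fun z => zr n L' z ∧ z (n + L') = true)) ≤ δ := by
    intro n hn
    have := hn2 n (by omega)
    linarith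
  have gR1 : ∀ n, t ≤ n → μ.E (n + (L' + 1) + 1) (ind (fun z => zr n (L' + 1) z ∧ z (n + (L' + 1)) = true)) ≤ δ := by
    intro n hn
    have := hn3 n (by omega)
    linarith
  -- terms
  have hT := ident q h0 h1 μ hI hp (t + 1 + L')
  have hTb := Tb_le q h0 h1 μ hp (t + 1 + L')
  have hDb : Db q μ (t + 1 + L' + 2) (t + 1 + L') ≤ δ := (hD _ _ le_rfl).trans (hn5 _ (by omega))
  have hsD : Real.sqrt (Db q μ (t + 1 + L' + 2) (t + 1 + L')) ≤ ρ := by
    rw [Real.sqrt_le_left hρ.le]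
    exact hDb
  have hTb' : Tb q μ (t + 1 + L') ≤ K * ρ := hTb.trans (mul_le_mul_of_nonneg_left hsD hK)
  have e1 : t + 1 + L' - (L' + 1) = t := by omega
  have e2 : t + 1 + L' + 1 - (L' + 1) = t + 1 := by omega
  have hal := al_lower q h0 h1 μ hp (t + 1 + L') (L' + 1) (by omega)
  rw [e1] at hal
  have hup := al_upper q h0 h1 μ hp (t + 1 + L') (L' + 1) (by omega)
  rw [e2] at hup
  have hF := hn4 (t + 1 + L' + 1) (by omega)
  rw [e2] at hF
  have e3 : t + (L' + 1) = t + 1 + L' := by omega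
  have hg1 := gR1 t le_rfl
  rw [e3] at hg1
  have hsg : Real.sqrt (μ.E (t + 1 + L' + 1) (ind (fun z => zr t (L' + 1) z ∧ z (t + 1 + L') = true))) ≤ ρ := by
    rw [Real.sqrt_le_left hρ.le]
    exact hg1
  have hg2 := gR1 (t + 1) (by omega)
  have e4 : t + 1 + (L' + 1) = t + 1 + L' + 1 := by omega
  rw [e4] at hg2
  -- shift
  have hsh := shift_gap μ t L'
  have e5 : t + L' + 2 = t + 1 + L' + 1 := by omega
  rw [e5] at hsh
  have hs1 := gL t le_rfl
  have hs2 := gR (t + 1) (by omega)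
  have hlift1 : μ.E (t + 1 + L' + 1) (ind (zr t (L' + 1))) = μ.E (t + 1 + L') (ind (zr t (L' + 1))) :=
    E_lift μ _ _ (by omega) _ (small_prod_dep_ind (fun z w h => small_prod_zr_dep (by omega) z w h))
  rw [hlift1] at hsh
  set E1 : ℝ := μ.E (t + 1 + L') (ind (zr t (L' + 1))) with hE1
  set E3 : ℝ := μ.E (t + 1 + L' + 1) (ind (zr (t + 1) (L' + 1))) with hE3
  have he13 : E3 - 2 * δ ≤ E1 := by
    have := (abs_le.1 hsh).1
    linarith
  have he3 : 0 ≤ E3 := by
    have := E_mono μ (t + 1 + L' + 1) (fun _ => 0 * 1) (ind (zr (t + 1) (L' + 1)))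
      (fun z _ => by simpa using small_prod_ind_nonneg _ z)
    rw [E_smul] at this
    simpa using this
  have he3' : E3 ≤ 1 := by
    have := E_mono μ (t + 1 + L' + 1) (ind (zr (t + 1) (L' + 1))) (fun _ => 1)
      (fun z _ => small_prod_ind_le_one _ z)
    rw [E_one] at this
    exact this
  -- carre
  have hca := carre q h0 h1 μ hI m (t + 1) L' (by omega) g hg M hM δ
    (fun n hn _ => gL n (by omega)) (fun n hn _ => gR n (by omega))
  have e6 : t + 1 + L' + 2 = t + 1 + L' + 1 + 1 := by omega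
  have hliftE3 : μ.E (t + 1 + L' + 2) (ind (zr (t + 1) (L' + 1))) = E3 :=
    E_lift μ _ _ (by omega) _ (small_prod_dep_ind (fun z w h => small_prod_zr_dep (by omega) z w h))
  set E2 : ℝ := μ.E (t + 1 + L' + 1) (ind (fun z => z 0 = true ∧ zr (t + 1) (L' + 1) z)) with hE2
  have hphi : μ.E (t + 1 + L' + 2) (fun z => phi q z * ind (zr (t + 1) (L' + 1)) z) =
      q * E3 - (1 - q) * E2 := by
    have hE2l : μ.E (t + 1 + L' + 2) (ind (fun z => z 0 = true ∧ zr (t + 1) (L' + 1) z)) = E2 := by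
      apply E_lift μ _ _ (by omega)
      apply small_prod_dep_ind
      intro z w h
      rw [small_prod_zr_dep (by omega) z w h, h 0 (by omega)]
    rw [← hliftE3, ← hE2l, ← E_smul, ← E_smul, ← E_sub]
    congr 1
    funext z
    unfold phi ind
    by_cases hz0 : z 0 = true <;> by_cases hz : zr (t + 1) (L' + 1) z <;> simp [hz0, hz]
  have hmono : μ.E (t + 1 + L' + 2) (fun z => A q m g z * ind (zr (t + 1) (L' + 1)) z) + (v - ε) * E3 ≤
      μ.E (t + 1 + L' + 2) (fun z => phi q z * ind (zr (t + 1) (L' + 1)) z) := by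
    rw [← hliftE3, ← E_smul, ← E_add]
    apply E_mono
    intro z _
    have h1 := hcert z
    have h2 := small_prod_ind_nonneg (zr (t + 1) (L' + 1)) z
    have h3 : A q m g z + (v - ε) ≤ phi q z := by linarith
    have := mul_le_mul_of_nonneg_right h3 h2
    linarith
  have hΦ : -(8 * M * δ) + (v - ε) * E3 ≤ q * E3 - (1 - q) * E2 := by
    rw [← hphi]
    have := (abs_le.1 hca).1
    linarith
  have hlε : l * ε ≤ η / 8 := by
    rw [hε]
    rw [mul_div_assoc', div_le_div_iff₀ (by positivity) (by norm_num)]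
    nlinarith
  have hal' : l * E1 - (2 + l) * Real.sqrt (μ.E (t + 1 + L' + 1) (ind (fun z => zr t (L' + 1) z ∧ z (t + 1 + L') = true))) ≤
      μ.E (t + 1 + L' + 1) (al q μ (t + 1 + L')) := by
    have : (2 : ℝ) + l = 2 - Real.log (1 - q) := by rw [hl]; ring
    rw [this]
    exact hal
  exact small_prod_arith (M := M) (ρ := ρ) (δ := δ) (ε := ε) (η := η) (lq := lq) (K := K) (e1 := E1) (e2 := E2) (e3 := E3)
    h0 h1 hlpos hv hM0 hρ hδρ hlq hT hTb' hal' hsg hup hg2 hF he13 hΦ he3 he3' hεpos.le hlε hρη hη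

end FAF
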