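import Pool.Agent.Helper769.FAF.Base
import Pool.Agent.Helper769.FAF.P_dual
import Pool.Agent.Helper769.FAF.P_minimizer
import Pool.Agent.Helper769.FAF.P_pos
import Pool.Agent.Helper769.FAF.P_small_prod
import Pool.Agent.Helper769.FAF.P_Pf_mono
import Pool.Agent.Helper769.FAF.P_Pb_mono
import Pool.Agent.Helper769.FAF.P_Pb_nonneg
import Pool.Agent.Helper769.FAF.P_Pf_nonneg
import Pool.Agent.Helper769.FAF.P_Ph_eq
import Pool.Agent.Helper769.FAF.P_Ph_nonneg
import Pool.Agent.Helper769.FAF.P_E_one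

set_option autoImplicit false
set_option linter.unusedSectionVars false

open Finset Filter Topology

noncomputable section

namespace FAF

theorem cert_le_zero {x : ℝ} (h : ∀ η : ℝ, 0 < η → x ≤ η) : x ≤ 0 :=
  le_of_forall_pos_le_add (fun η hη => by rw [zero_add]; exact h η hη)

theorem cert (q : ℝ) (h0 : 0 < q) (h1 : q < 1) : Cert q 0 := by
  by_contra hC
  obtain ⟨μ0, hI0, hE0⟩ := dual q 0 hC
  obtain ⟨μ, hI, hmin⟩ := minimizer q ⟨μ0, hI0⟩
  have hv : μ.E 1 (phi q) ≤ 0 := le_trans (hmin μ0 hI0) hE0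
  have hp := pos q h0 h1 μ hI
  have hq : 0 < 1 - q := by linarith
  have hmonoF : Monotone (Pf q μ) := monotone_nat_of_le_succ (fun n => Pf_mono q h0 h1 μ hp n)
  have hmonoB : ∀ m : ℕ, Pb q μ 2 0 ≤ Pb q μ (m + 2) 0 := by
    intro m
    induction m with
    | zero => exact le_refl _
    | succ m ih => exact le_trans ih (Pb_mono q h0 h1 μ hp (m + 2) 0 (by omega))
  have hboth : ∀ η : ℝ, 0 < η → Pf q μ 0 ≤ η ∧ Pb q μ 2 0 ≤ η := by
    intro η hη
    obtain ⟨n, hn, hle⟩ := small_prod q h0 h1 μ hI hmin hv η hη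
    obtain ⟨m, rfl⟩ : ∃ m, n = m + 1 := ⟨n - 1, by omega⟩
    have hs : Pb q μ (m + 1 + 1) 0 ≤ ∑ k ∈ range (m + 1), Pb q μ (m + 1 + 1) k :=
      Finset.single_le_sum (f := fun k => Pb q μ (m + 1 + 1) k)
        (fun k _ => Pb_nonneg q h0 h1 μ hp (m + 1 + 1) k) (Finset.mem_range.2 (by omega))
    have hF0 : Pf q μ 0 ≤ Pf q μ (m + 1) := hmonoF (by omega)
    have hFn := Pf_nonneg q h0 h1 μ hp (m + 1)
    have hB0 : Pb q μ 2 0 ≤ Pb q μ (m + 1 + 1) 0 := hmonoB m
    have hBn := Pb_nonneg q h0 h1 μ hp (m + 1 + 1) 0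
    constructor <;> linarith
  have hF : Pf q μ 0 ≤ 0 := cert_le_zero fun η hη => (hboth η hη).1
  have hB : Pb q μ 2 0 ≤ 0 := cert_le_zero fun η hη => (hboth η hη).2
  obtain ⟨z0, hz0⟩ : ∃ z0 : Env, z0 = fun _ => false := ⟨_, rfl⟩
  -- front
  have e1 : q * μ.p 0 z0 = (1 - q) * μ.p 1 (cons true z0) := by
    apply Ph_eq _ _ (mul_pos h0 (hp 0 z0)) (mul_pos hq (hp 1 _))
    unfold Pf at hF
    rw [W_zero, Finset.sum_singleton, ← hz0] at hF
    exact hF
  -- bulk
  have e2 : ∀ z ∈ (W 2).filter (fun z => z 0 = false),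
      q * μ.p 2 z = (1 - q) * μ.p 2 (up z 0 true) := by
    intro z hz
    apply Ph_eq _ _ (mul_pos h0 (hp 2 z)) (mul_pos hq (hp 2 _))
    unfold Pb at hB
    have hcr : ∀ z : Env, cr z 0 = 1 := fun z => by unfold cr; rw [if_pos (Or.inl rfl)]
    simp only [hcr, one_mul] at hB
    refine le_trans ?_ hB
    exact Finset.single_le_sum
      (f := fun z => Ph (q * μ.p 2 z) ((1 - q) * μ.p 2 (up z 0 true)))
      (fun z _ => Ph_nonneg _ _ (mul_pos h0 (hp 2 z)) (mul_pos hq (hp 2 _))) hz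
  have m0 : z0 ∈ (W 2).filter (fun z => z 0 = false) := by
    refine Finset.mem_filter.2 ⟨(mem_W 2 z0).2 fun k _ => by rw [hz0], by rw [hz0]⟩
  have m1 : up z0 1 true ∈ (W 2).filter (fun z => z 0 = false) := by
    refine Finset.mem_filter.2 ⟨(mem_W 2 _).2 fun k hk => ?_, ?_⟩
    · unfold up; rw [if_neg (by omega), hz0]
    · unfold up; rw [if_neg (by omega), hz0]
  have f0 := e2 z0 m0
  have f1 := e2 _ m1
  have c1 := μ.con 1 z0
  have c2 := μ.con 1 (up z0 0 true)
  have c0 := μ.con 0 z0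
  have d1 : μ.p 2 (up z0 1 false) = μ.p 2 z0 := by
    apply μ.dep 2
    intro i hi
    unfold up
    by_cases h : i = 1
    · rw [if_pos h, hz0]
    · rw [if_neg h]
  have d2 : μ.p 2 (up (up z0 0 true) 1 false) = μ.p 2 (up z0 0 true) := by
    apply μ.dep 2
    intro i hi
    unfold up
    by_cases h : i = 1
    · rw [if_pos h, if_neg (by omega), hz0]
    · rw [if_neg h]
  have d3 : μ.p 2 (up (up z0 0 true) 1 true) = μ.p 2 (up (up z0 1 true) 0 true) := by
    apply μ.dep 2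
    intro i hi
    unfold up
    by_cases h : i = 1
    · rw [if_pos h, if_neg (by omega), if_pos h]
    · by_cases h' : i = 0
      · rw [if_neg h, if_pos h', if_pos h']
      · omega
  have d4 : μ.p 1 (up z0 0 true) = μ.p 1 (cons true z0) := by
    apply μ.dep 1
    intro i hi
    unfold up cons
    have h : i = 0 := by omega
    rw [if_pos h, if_pos h]
  have d5 : μ.p 1 (up z0 0 false) = μ.p 1 z0 := by
    apply μ.dep 1
    intro i hi
    unfold up
    have h : i = 0 := by omega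
    rw [if_pos h, hz0]
  have o := μ.one z0
  rw [zero_add] at c0
  rw [d1] at c1
  rw [d2, d3] at c2
  rw [d5, d4] at c0
  have g1 : q * μ.p 1 z0 = (1 - q) * μ.p 1 (cons true z0) := by
    rw [← d4, c1, c2, mul_add, mul_add, f0, f1]
  rw [← e1] at g1
  have g2 : μ.p 1 z0 = μ.p 0 z0 := mul_left_cancel₀ h0.ne' g1
  have g3 := hp 1 (cons true z0)
  linarith

end FAF
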