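import Pool.Agent.Helper769.FAF.TDefs
import Pool.Agent.Helper769.FAF.Base
import Pool.Agent.Helper769.FAF.P_fi_spec
import Pool.Agent.Helper769.FAF.P_fi_eq
import Pool.Agent.Helper769.FAF.P_fi_le
import Pool.Agent.Helper769.FAF.P_fi_ex
import Pool.Agent.Helper769.FAF.P_fi_lt
import Pool.Agent.Helper769.FAF.P_U_step
import Pool.Agent.Helper769.FAF.P_U_front
import Pool.Agent.Helper769.FAF.P_U_win
import Pool.Agent.Helper769.FAF.P_U_far
import Pool.Agent.Helper769.FAF.P_UU_nonneg
import Pool.Agent.Helper769.FAF.P_UU_bounds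

set_option autoImplicit false
set_option linter.unusedSectionVars false

open Finset Filter Topology

noncomputable section

namespace FAF

/-- drift of the one-sided Lyapunov function -/
theorem core (q th c : ℝ) (h0 : 0 < q) (h1 : q < 1) (hth : 0 < th) (m : ℕ) (V : Env → ℝ)
    (hD : Drift q th c m V) {N : ℕ} {X : Finset ℤ} {e : ℤ → ℤ} (hE : Enum N X e) {S : Finset ℤ}
    (hS : S ⊆ X) (hne : S.Nonempty) (hi : 1 ≤ fi e S) (hN : fi e S + m + 2 ≤ N) :
    genE q N e (UU th V e) S ≤ -c * UU th V e S + 2 := by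
  obtain ⟨hV, hVl, hVu, hdr⟩ := hD
  obtain ⟨i, hi'⟩ : ∃ i : ℕ, fi e S = i + 1 := ⟨fi e S - 1, by omega⟩
  obtain ⟨r, hr⟩ : ∃ r : ℕ, N = ((i + 1) + 1 + m) + r := ⟨N - ((i + 1) + 1 + m), by omega⟩
  have hspec := fi_spec (fi_ex hE hS hne)
  have hnot : ∀ k : ℕ, k < i + 1 → e k ∉ S := fun k hk => hspec.2 k (by omega)
  set U : Finset ℤ → ℝ := UU th V e with hU
  set ζ : Env := env e S with hζ
  set E : ℝ := Real.exp (th * (i + 1)) with hEdef
  have hEpos : 0 < E := Real.exp_pos _
  have hUS : U S = E * V ζ := by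
    rw [hU]
    unfold UU
    rw [if_pos hne, hi']
    push_cast
    rfl
  have hUS0 : 0 ≤ U S := UU_nonneg th V hVl e S
  set T : ℕ → ℝ := fun k => ce e k S *
    (q * U (insert (e k) S) + (1 - q) * U (S.erase (e k)) - U S) with hT
  have hgen : genE q N e U S = ∑ k ∈ range N, T k := rfl
  -- (1)
  have hp1 : ∑ k ∈ range i, T k ≤ 2 := by
    rcases Nat.eq_zero_or_pos i with h | h
    · rw [h, Finset.sum_range_zero]
      norm_num
    · obtain ⟨i', rfl⟩ : ∃ i', i = i' + 1 := ⟨i - 1, by omega⟩
      rw [Finset.sum_range_succ']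
      have hz : ∀ k ∈ range i', T (k + 1) = 0 := by
        intro k hk
        rw [Finset.mem_range] at hk
        have h1 : ce e ((k + 1 : ℕ) : ℤ) S = 0 := by
          unfold ce
          rw [if_neg]
          rintro (h | h)
          · have h2 : ((k + 1 : ℕ) : ℤ) - 1 = (k : ℤ) := by push_cast; ring
            rw [h2] at h
            exact hnot k (by omega) h
          · have h2 : ((k + 1 : ℕ) : ℤ) + 1 = ((k + 2 : ℕ) : ℤ) := by push_cast; ring
            rw [h2] at h
            exact hnot (k + 2) (by omega) h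
        simp only [hT]
        rw [h1, zero_mul]
      rw [Finset.sum_eq_zero hz, zero_add]
      have h0S : e ((0 : ℕ) : ℤ) ∉ S := hnot 0 (by omega)
      simp only [hT]
      rw [Finset.erase_eq_of_notMem h0S]
      have hfi0 : fi e (insert (e ((0 : ℕ) : ℤ)) S) = 0 :=
        fi_eq 0 (Finset.mem_insert_self _ _) (fun k hk => absurd hk (Nat.not_lt_zero k))
      have hub := (UU_bounds th V hVl hVu e (insert (e ((0 : ℕ) : ℤ)) S)
        (Finset.insert_nonempty _ _)).2
      have he0 : Real.exp (th * ((0 : ℕ) : ℝ)) = 1 := by simp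
      rw [hfi0, he0, mul_one] at hub
      change U (insert (e ((0 : ℕ) : ℤ)) S) ≤ 2 at hub
      have hce : ce e ((0 : ℕ) : ℤ) S = 0 ∨ ce e ((0 : ℕ) : ℤ) S = 1 := by
        unfold ce
        split_ifs
        · exact Or.inr rfl
        · exact Or.inl rfl
      have hle : q * U (insert (e ((0 : ℕ) : ℤ)) S) + (1 - q) * U S - U S ≤ 2 := by
        have h3 : q * U (insert (e ((0 : ℕ) : ℤ)) S) ≤ q * 2 := mul_le_mul_of_nonneg_left hub h0.le
        nlinarith [mul_nonneg h0.le hUS0]
      rcases hce with h | h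
      · rw [h, zero_mul]
        norm_num
      · rw [h, one_mul]
        exact hle
  -- (2)
  have hp2 : T i = E * (q * (Real.exp (-th) * V (cons true ζ) - V ζ)) := by
    obtain ⟨ha, hb, hc⟩ := U_step hE hS hne th m V hV i hi' (by omega)
    simp only [hT]
    rw [ha, Finset.erase_eq_of_notMem hb]
    change U (insert (e i) S) = _ at hc
    rw [hc, hUS]
    have h2 : Real.exp (th * i) = E * Real.exp (-th) := by
      rw [hEdef, ← Real.exp_add]
      congr 1
      ring
    rw [h2]
    ring
  -- (3)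
  have hp3 : T (i + 1) = E * (if ζ 0 = true then (1 - q) * (Real.exp th * V (tl ζ) - V ζ) else 0) := by
    obtain ⟨ha, hb, hc⟩ := U_front hE hS hne th m V hV i hi' (by omega)
    have hcast : ((i + 1 : ℕ) : ℤ) = (i : ℤ) + 1 := by push_cast; ring
    simp only [hT]
    rw [hcast, hb, Finset.insert_eq_of_mem ha]
    by_cases hz : ζ 0 = true
    · have hc' := hc hz
      change U (S.erase (e (i + 1))) = _ at hc'
      rw [if_pos hz, if_pos hz, hc', hUS]
      have h2 : Real.exp (th * (i + 2)) = E * Real.exp th := by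
        rw [hEdef, ← Real.exp_add]
        congr 1
        ring
      rw [h2]
      ring
    · rw [if_neg hz, if_neg hz, zero_mul, mul_zero]
  -- (4)
  have hp4 : ∑ j ∈ range m, T ((i + 1) + 1 + j) =
      E * ∑ k ∈ range m, cr ζ k * (q * V (up ζ k true) + (1 - q) * V (up ζ k false) - V ζ) := by
    rw [Finset.mul_sum]
    apply Finset.sum_congr rfl
    intro j hj
    rw [Finset.mem_range] at hj
    obtain ⟨ha, hb, hc⟩ := U_win hE hS hne th m V hV (by omega) j hj
    have hcast : (((i + 1) + 1 + j : ℕ) : ℤ) = ((fi e S : ℕ) : ℤ) + 1 + j := by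
      rw [hi']
      push_cast
      ring
    simp only [hT]
    rw [hcast, ha]
    change U (insert (e (fi e S + 1 + j)) S) = _ at hb
    change U (S.erase (e (fi e S + 1 + j))) = _ at hc
    rw [hb, hc, hUS]
    have h2 : Real.exp (th * (fi e S : ℝ)) = E := by
      rw [hEdef, hi']
      push_cast
      rfl
    rw [h2]
    ring
  -- (5)
  have hp5 : ∑ j ∈ range r, T (((i + 1) + 1 + m) + j) = 0 := by
    apply Finset.sum_eq_zero
    intro j hj
    rw [Finset.mem_range] at hj
    obtain ⟨ha, hb⟩ := U_far hE hS hne th m V hV (((i + 1) + 1 + m) + j) (by omega) (by omega)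
    simp only [hT]
    change U (insert (e ((((i + 1) + 1 + m) + j : ℕ) : ℤ)) S) = U S at ha
    change U (S.erase (e ((((i + 1) + 1 + m) + j : ℕ) : ℤ))) = U S at hb
    rw [ha, hb]
    ring
  rw [hgen, hr, Finset.sum_range_add, Finset.sum_range_add, hp5, hp4, Finset.sum_range_succ,
    Finset.sum_range_succ, hp2, hp3, hUS]
  have hd := mul_le_mul_of_nonneg_left (hdr ζ) hEpos.le
  rw [mul_add, mul_add] at hd
  linarith

end FAF
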