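import Pool.Agent.Helper769.FAF.TDefs
import Pool.Agent.Helper769.FAF.Base

set_option autoImplicit false
set_option linter.unusedSectionVars false

open Finset Filter Topology

noncomputable section

namespace FAF

theorem dT_fi_aux (M : ℤ) (hM : 0 < M) (k : ℕ) (c : ℤ) : (((k : ℤ) + M * c) % M).toNat ≤ k := by
  rw [Int.add_mul_emod_self_left]
  lift M to ℕ using hM.le
  have h : (((k : ℤ) % (M : ℤ))).toNat = k % M := by
    rw [← Int.natCast_mod, Int.toNat_natCast]
  rw [h]
  exact Nat.mod_le _ _

theorem dT_fi (a b z : ℤ) (hz : z ∈ Icc a b) (k : ℕ) :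
    dT a b z (eR a b z k) ≤ k ∧ dT a b z (eL a b z k) ≤ k := by
  rw [Finset.mem_Icc] at hz
  have hM : 0 < b - a + 1 := by linarith [hz.1, hz.2]
  constructor
  · unfold dT
    apply (min_le_left _ _).trans
    have h := Int.emod_def (z - a + k) (b - a + 1)
    have h1 : eR a b z k - z = (k : ℤ) + (b - a + 1) * (-((z - a + k) / (b - a + 1))) := by
      unfold eR
      rw [h]
      ring
    rw [h1]
    exact dT_fi_aux _ hM k _
  · unfold dT
    apply (min_le_right _ _).trans
    have h := Int.emod_def (z - a - k) (b - a + 1)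
    have h1 : z - eL a b z k = (k : ℤ) + (b - a + 1) * ((z - a - k) / (b - a + 1)) := by
      unfold eL
      rw [h]
      ring
    rw [h1]
    exact dT_fi_aux _ hM k _

end FAF
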