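import Pool.Agent.Helper769.FAF.TDefs
import Pool.Agent.Helper769.FAF.Base

set_option autoImplicit false
set_option linter.unusedSectionVars false

open Finset Filter Topology

noncomputable section

namespace FAF

theorem drift_bdd (m : ℕ) (g : Env → ℝ) (hg : Dep m g) : ∃ G : ℝ, 0 ≤ G ∧ ∀ z, |g z| ≤ G := by
  classical
  let ext : (Fin m → Bool) → Env := fun w i => if h : i < m then w ⟨i, h⟩ else false
  refine ⟨∑ w : Fin m → Bool, |g (ext w)|, Finset.sum_nonneg (fun _ _ => abs_nonneg _), ?_⟩
  intro z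
  have h1 : g z = g (ext (fun i => z i)) := by
    apply hg
    intro i hi
    simp only [ext, dif_pos hi]
  rw [h1]
  exact Finset.single_le_sum (f := fun w : Fin m → Bool => |g (ext w)|) (fun _ _ => abs_nonneg _)
    (Finset.mem_univ (fun i : Fin m => z i))

theorem drift (q : ℝ) (h0 : 0 < q) (h1 : q < 1) (h : Cert q 0) :
    ∃ (th c : ℝ) (m : ℕ) (V : Env → ℝ), 0 < th ∧ 0 < c ∧ Drift q th c m V := by
  obtain ⟨m, g, c0, hc0, hdep, hA⟩ := h
  obtain ⟨G, hG0, hG⟩ := drift_bdd m g hdep
  obtain ⟨th, hth0, hth1, hthG, hthc⟩ : ∃ th : ℝ, 0 < th ∧ th ≤ 1 ∧ th * G ≤ 1 / 2 ∧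
      th * (2 * (1 + 2 * G)) ≤ c0 := by
    refine ⟨min 1 (min (1 / (2 * (G + 1))) (c0 / (2 * (1 + 2 * G)))), ?_, min_le_left _ _, ?_, ?_⟩
    · refine lt_min one_pos (lt_min ?_ ?_) <;> positivity
    · have h2 : min 1 (min (1 / (2 * (G + 1))) (c0 / (2 * (1 + 2 * G)))) ≤ 1 / (2 * (G + 1)) :=
        (min_le_right _ _).trans (min_le_left _ _)
      have h3 := mul_le_mul_of_nonneg_right h2 hG0
      refine h3.trans ?_
      rw [div_mul_eq_mul_div, div_le_div_iff₀ (by positivity) (by norm_num)]
      linarith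
    · have h2 : min 1 (min (1 / (2 * (G + 1))) (c0 / (2 * (1 + 2 * G)))) ≤ c0 / (2 * (1 + 2 * G)) :=
        (min_le_right _ _).trans (min_le_right _ _)
      exact (le_div_iff₀ (by positivity)).1 h2
  have hgl : ∀ z, -G ≤ g z := fun z => (abs_le.1 (hG z)).1
  have hgu : ∀ z, g z ≤ G := fun z => (abs_le.1 (hG z)).2
  have hV1 : ∀ z, 1 / 2 ≤ 1 + th * g z := by
    intro z
    have := mul_le_mul_of_nonneg_left (hgl z) hth0.le
    linarith
  have hV2 : ∀ z, 1 + th * g z ≤ 2 := by
    intro z
    have := mul_le_mul_of_nonneg_left (hgu z) hth0.le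
    linarith
  refine ⟨th, c0 * th / 4, m, fun z => 1 + th * g z, hth0, by positivity, ?_, hV1, hV2, ?_⟩
  · intro z w hzw
    show 1 + th * g z = 1 + th * g w
    rw [hdep z w hzw]
  intro z
  have hAz := hA z
  have hsum : ∑ k ∈ range m, cr z k * (q * (1 + th * g (up z k true)) + (1 - q) * (1 + th * g (up z k false))
      - (1 + th * g z)) = th * ∑ k ∈ range m, cr z k * (q * g (up z k true) + (1 - q) * g (up z k false) - g z) := by
    rw [Finset.mul_sum]
    apply Finset.sum_congr rfl
    intro k _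
    ring
  have hab1 : |-th| ≤ 1 := by rw [abs_neg, abs_of_pos hth0]; exact hth1
  have hab2 : |th| ≤ 1 := by rw [abs_of_pos hth0]; exact hth1
  have e1u := (abs_le.1 (Real.abs_exp_sub_one_sub_id_le hab1)).2
  have e1l := Real.add_one_le_exp (-th)
  have e2u := (abs_le.1 (Real.abs_exp_sub_one_sub_id_le hab2)).2
  have e2l := Real.add_one_le_exp th
  have e1n : Real.exp (-th) ≤ 1 := by
    rw [Real.exp_le_one_iff]; linarith
  set E1 := Real.exp (-th) with hE1
  set E2 := Real.exp th with hE2
  have hthsq : 0 ≤ th ^ 2 := sq_nonneg th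
  have hthsq1 : th ^ 2 ≤ th := by nlinarith
  -- first term
  have t1 : q * (E1 * (1 + th * g (cons true z)) - (1 + th * g z)) ≤
      th * (q * (g (cons true z) - g z)) - q * th + q * (th ^ 2 * (1 + G)) := by
    have h2 : (E1 - 1) * (th * g (cons true z)) ≤ th ^ 2 * G := by
      have h3 : |(E1 - 1) * (th * g (cons true z))| ≤ th * (th * G) := by
        rw [abs_mul, abs_mul, abs_of_pos hth0]
        have h4 : |E1 - 1| ≤ th := by
          rw [abs_le]; constructor <;> linarith
        exact mul_le_mul h4 (mul_le_mul_of_nonneg_left (hG _) hth0.le) (by positivity) hth0.le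
      have := le_of_abs_le h3
      nlinarith
    have h5 : E1 - 1 ≤ -th + th ^ 2 := by nlinarith
    have h6 : E1 * (1 + th * g (cons true z)) - (1 + th * g z) ≤
        th * (g (cons true z) - g z) - th + th ^ 2 * (1 + G) := by nlinarith
    have h7 := mul_le_mul_of_nonneg_left h6 h0.le
    linarith
  have hR : q * (E1 * (1 + th * g (cons true z)) - (1 + th * g z))
      + (if z 0 = true then (1 - q) * (E2 * (1 + th * g (tl z)) - (1 + th * g z)) else 0)
      + th * ∑ k ∈ range m, cr z k * (q * g (up z k true) + (1 - q) * g (up z k false) - g z) ≤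
      th * (A q m g z - phi q z) + th ^ 2 * (1 + 2 * G) := by
    unfold A phi
    by_cases hz : z 0 = true
    · rw [if_pos hz, if_pos hz, if_pos hz]
      have t2 : (1 - q) * (E2 * (1 + th * g (tl z)) - (1 + th * g z)) ≤
          th * ((1 - q) * (g (tl z) - g z)) + (1 - q) * th + (1 - q) * (th ^ 2 * (1 + 2 * G)) := by
        have h2 : (E2 - 1) * (th * g (tl z)) ≤ 2 * th ^ 2 * G := by
          have h3 : |(E2 - 1) * (th * g (tl z))| ≤ (2 * th) * (th * G) := by
            rw [abs_mul, abs_mul, abs_of_pos hth0]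
            have h4 : |E2 - 1| ≤ 2 * th := by
              rw [abs_le]; constructor <;> linarith
            exact mul_le_mul h4 (mul_le_mul_of_nonneg_left (hG _) hth0.le) (by positivity) (by positivity)
          have := le_of_abs_le h3
          nlinarith
        have h6 : E2 * (1 + th * g (tl z)) - (1 + th * g z) ≤
            th * (g (tl z) - g z) + th + th ^ 2 * (1 + 2 * G) := by nlinarith
        have h7 := mul_le_mul_of_nonneg_left h6 (by linarith : 0 ≤ 1 - q)
        linarith
      have h8 : q * (th ^ 2 * (1 + G)) ≤ q * (th ^ 2 * (1 + 2 * G)) := by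
        apply mul_le_mul_of_nonneg_left _ h0.le
        apply mul_le_mul_of_nonneg_left _ hthsq
        linarith
      nlinarith
    · rw [if_neg hz, if_neg hz, if_neg hz]
      have h8 : q * (th ^ 2 * (1 + G)) ≤ 1 * (th ^ 2 * (1 + 2 * G)) := by
        apply mul_le_mul h1.le _ (by positivity) zero_le_one
        apply mul_le_mul_of_nonneg_left _ hthsq
        linarith
      nlinarith
  rw [hsum]
  refine hR.trans ?_
  have h9 : th * (A q m g z - phi q z) ≤ th * (-c0) := mul_le_mul_of_nonneg_left (by linarith) hth0.le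
  have h10 : th ^ 2 * (1 + 2 * G) ≤ th * (c0 / 2) := by nlinarith
  have h11 : c0 * th / 4 * (1 + th * g z) ≤ c0 * th / 4 * 2 :=
    mul_le_mul_of_nonneg_left (hV2 z) (by positivity)
  linarith

end FAF
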