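import Pool.Agent.Helper769.FAF.TDefs
import Pool.Agent.Helper769.FAF.Base
import Pool.Agent.Helper769.FAF.P_enumR
import Pool.Agent.Helper769.FAF.P_enumL
import Pool.Agent.Helper769.FAF.P_e_flip
import Pool.Agent.Helper769.FAF.P_e_zero
import Pool.Agent.Helper769.FAF.P_fi_spec
import Pool.Agent.Helper769.FAF.P_fi_le
import Pool.Agent.Helper769.FAF.P_fi_lt
import Pool.Agent.Helper769.FAF.P_fi_ex

set_option autoImplicit false
set_option linter.unusedSectionVars false

open Finset Filter Topology

noncomputable section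

namespace FAF

theorem fi_add (a b z : ℤ) (hz : z ∈ Icc a b) (N : ℕ) (hN : (N : ℤ) = b - a + 1) {S : Finset ℤ}
    (hS : S ⊆ Icc a b) (hne : S.Nonempty) : fi (eL a b z) S + fi (eR a b z) S ≤ N := by
  have hz' := Finset.mem_Icc.1 hz
  have hN0 : 0 < N := by omega
  have hR := enumR a b z N hN hN0
  have hj := (fi_spec (fi_ex hR hS hne)).1
  have hjN := fi_lt hR hS hne
  generalize fi (eR a b z) S = j at hj hjN
  have h1 : eL a b z ((N - j : ℕ) : ℤ) = eR a b z j := by
    rw [e_flip, hR.per]
    refine ⟨-1, ?_⟩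
    push_cast [Nat.cast_sub hjN.le]
    ring
  have h2 : fi (eL a b z) S ≤ N - j := fi_le (N - j) (by rw [h1]; exact hj)
  omega

end FAF
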