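import Pool.Agent.Helper769.FAF.TDefs
import Pool.Agent.Helper769.FAF.Base
import Pool.Agent.Helper769.FAF.P_fi_le

set_option autoImplicit false
set_option linter.unusedSectionVars false

open Finset Filter Topology

noncomputable section

namespace FAF

theorem fi_dT (a b z : ℤ) (hz : z ∈ Icc a b) {S : Finset ℤ} (hS : S ⊆ Icc a b) (x : ℤ) (hx : x ∈ S) :
    fi (eL a b z) S ≤ dT a b z x ∨ fi (eR a b z) S ≤ dT a b z x := by
  have hz' := mem_Icc.1 hz
  have hx' := mem_Icc.1 (hS hx)
  have hM : 0 < b - a + 1 := by linarith [hz'.1, hz'.2]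
  have hmod : (x - a) % (b - a + 1) = x - a :=
    Int.emod_eq_of_lt (by linarith [hx'.1]) (by linarith [hx'.2])
  have n1 : 0 ≤ (x - z) % (b - a + 1) := Int.emod_nonneg _ hM.ne'
  have n2 : 0 ≤ (z - x) % (b - a + 1) := Int.emod_nonneg _ hM.ne'
  rcases min_choice ((x - z) % (b - a + 1)).toNat ((z - x) % (b - a + 1)).toNat with h | h
  · right
    have hd : dT a b z x = ((x - z) % (b - a + 1)).toNat := h
    rw [hd]
    refine fi_le _ ?_
    have e : eR a b z (((x - z) % (b - a + 1)).toNat : ℤ) = x := by
      unfold eR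
      rw [Int.toNat_of_nonneg n1, Int.add_emod_emod]
      have : z - a + (x - z) = x - a := by ring
      rw [this, hmod]
      ring
    rw [e]; exact hx
  · left
    have hd : dT a b z x = ((z - x) % (b - a + 1)).toNat := h
    rw [hd]
    refine fi_le _ ?_
    have e : eL a b z (((z - x) % (b - a + 1)).toNat : ℤ) = x := by
      unfold eL
      rw [Int.toNat_of_nonneg n2, Int.sub_emod, Int.emod_emod, ← Int.sub_emod]
      have : z - a - (z - x) = x - a := by ring
      rw [this, hmod]
      ring
    rw [e]; exact hx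

end FAF
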