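import Pool.Agent.Helper769.FAF.TDefs
import Pool.Agent.Helper769.FAF.Base

set_option autoImplicit false
set_option linter.unusedSectionVars false

open Finset Filter Topology

noncomputable section

namespace FAF

theorem gen_min (q : ℝ) (h0 : 0 < q) (h1 : q < 1) (a b : ℤ) (F G : Finset ℤ → ℝ) (S : Finset ℤ)
    (h : F S ≤ G S) : genT q a b (fun T => min (F T) (G T)) S ≤ genT q a b F S := by
  unfold genT
  apply Finset.sum_le_sum
  intro x _
  apply mul_le_mul_of_nonneg_left
  · have e1 : min (F S) (G S) = F S := min_eq_left h
    have e2 : min (F (insert x S)) (G (insert x S)) ≤ F (insert x S) := min_le_left _ _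
    have e3 : min (F (S.erase x)) (G (S.erase x)) ≤ F (S.erase x) := min_le_left _ _
    have e4 : q * min (F (insert x S)) (G (insert x S)) ≤ q * F (insert x S) :=
      mul_le_mul_of_nonneg_left e2 h0.le
    have e5 : (1 - q) * min (F (S.erase x)) (G (S.erase x)) ≤ (1 - q) * F (S.erase x) :=
      mul_le_mul_of_nonneg_left e3 (by linarith)
    simp only []
    linarith
  · unfold cstT
    split_ifs <;> norm_num

end FAF
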