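import Pool.Agent.Helper769.FAF.TDefs
import Pool.Agent.Helper769.FAF.Base
import Pool.Agent.Helper769.FAF.P_drift
import Pool.Agent.Helper769.FAF.P_enumR
import Pool.Agent.Helper769.FAF.P_enumL
import Pool.Agent.Helper769.FAF.P_genR
import Pool.Agent.Helper769.FAF.P_genL
import Pool.Agent.Helper769.FAF.P_e_zero
import Pool.Agent.Helper769.FAF.P_fi_spec
import Pool.Agent.Helper769.FAF.P_fi_le
import Pool.Agent.Helper769.FAF.P_fi_ex
import Pool.Agent.Helper769.FAF.P_fi_lt
import Pool.Agent.Helper769.FAF.P_fi_add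
import Pool.Agent.Helper769.FAF.P_UU_nonneg
import Pool.Agent.Helper769.FAF.P_UU_bounds
import Pool.Agent.Helper769.FAF.P_core
import Pool.Agent.Helper769.FAF.P_gen_min
import Pool.Agent.Helper769.FAF.P_bdry
import Pool.Agent.Helper769.FAF.P_dT_fi
import Pool.Agent.Helper769.FAF.P_fi_dT
import Pool.Agent.Helper769.FAF.P_cert

set_option autoImplicit false
set_option linter.unusedSectionVars false

open Finset Filter Topology

noncomputable section

namespace FAF

theorem pers_log (th : ℝ) (hth : 0 < th) (K : ℕ) (hK : Real.log 4 / th ≤ K) (i j : ℕ)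
    (h : Real.exp (th * i) ≤ 4 * Real.exp (th * j)) : i ≤ j + K := by
  have h4 : (4 : ℝ) = Real.exp (Real.log 4) := (Real.exp_log (by norm_num)).symm
  rw [h4, ← Real.exp_add, Real.exp_le_exp] at h
  have h2 : Real.log 4 ≤ K * th := by rwa [div_le_iff₀ hth] at hK
  have h3 : th * (i : ℝ) ≤ th * ((j : ℝ) + K) := by linarith
  have h5 := le_of_mul_le_mul_left h3 hth
  exact_mod_cast h5

theorem pers_side (q th c : ℝ) (h0 : 0 < q) (h1 : q < 1) (hth : 0 < th) (m : ℕ) (V : Env → ℝ)
    (hD : Drift q th c m V) {N : ℕ} {X : Finset ℤ} {e e' : ℤ → ℤ} (hE : Enum N X e) {S : Finset ℤ}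
    (hS : S ⊆ X) (hne : S.Nonempty) (hi : 1 ≤ fi e S) (K : ℕ) (hK : Real.log 4 / th ≤ K)
    (hadd : fi e S + fi e' S ≤ N) (hN : K + 2 * m + 4 ≤ N) (hle : UU th V e S ≤ UU th V e' S) :
    genE q N e (UU th V e) S ≤ -c * UU th V e S + 2 := by
  apply core q th c h0 h1 hth m V hD hE hS hne hi
  have b1 := (UU_bounds th V hD.2.1 hD.2.2.1 e S hne).1
  have b2 := (UU_bounds th V hD.2.1 hD.2.2.1 e' S hne).2
  have h2 := pers_log th hth K hK (fi e S) (fi e' S) (by linarith)
  omega

/-- PERSISTENCE: exponential Lyapunov function for the distance from `z` to the infected set -/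
theorem pers (q : ℝ) (h0 : 0 < q) (h1 : q < 1) :
    ∃ (th c C : ℝ) (N0 : ℤ), 0 < th ∧ 0 < c ∧ 0 < C ∧ 0 < N0 ∧ ∀ a b : ℤ, N0 ≤ b - a →
      ∀ z ∈ Icc a b, ∃ V : Finset ℤ → ℝ, V ∅ = 0 ∧ ∀ S ⊆ Icc a b, S.Nonempty →
        (∃ x ∈ S, Real.exp (th * dT a b z x) ≤ 2 * V S) ∧
        (∀ x ∈ S, V S ≤ 2 * Real.exp (th * dT a b z x)) ∧
        genT q a b V S ≤ -c * V S + C := by
  obtain ⟨th, c, m, V, hth, hc, hD⟩ := drift q h0 h1 (cert q h0 h1)
  obtain ⟨K, hK⟩ := exists_nat_ge (Real.log 4 / th)
  have hexp : 0 < Real.exp th := Real.exp_pos th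
  refine ⟨th, c, (2 * m + 1) * (2 * Real.exp th) + 2 + 2 * c, 2 * m + 5 + K, hth, hc, by positivity,
    by positivity, ?_⟩
  intro a b hab z hz
  have hN : (((b - a + 1).toNat : ℕ) : ℤ) = b - a + 1 := Int.toNat_of_nonneg (by omega)
  set N := (b - a + 1).toNat with hNdef
  have hN0 : 0 < N := by omega
  have hNK : K + 2 * m + 4 ≤ N := by omega
  have hEL := enumL a b z N hN hN0
  have hER := enumR a b z N hN hN0
  obtain ⟨hz1, hz2⟩ := e_zero a b z hz
  refine ⟨WW th V a b z, ?_, ?_⟩
  · simp [WW, UU]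
  intro S hS hne
  have bL := UU_bounds th V hD.2.1 hD.2.2.1 (eL a b z) S hne
  have bR := UU_bounds th V hD.2.1 hD.2.2.1 (eR a b z) S hne
  have hWL : WW th V a b z S ≤ UU th V (eL a b z) S := min_le_left _ _
  have hWR : WW th V a b z S ≤ UU th V (eR a b z) S := min_le_right _ _
  have hmono : ∀ k l : ℕ, k ≤ l → Real.exp (th * k) ≤ Real.exp (th * l) := by
    intro k l hkl
    apply Real.exp_le_exp.mpr
    apply mul_le_mul_of_nonneg_left _ hth.le
    exact_mod_cast hkl
  have sL := fi_spec (fi_ex hEL hS hne)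
  have sR := fi_spec (fi_ex hER hS hne)
  refine ⟨?_, ?_, ?_⟩
  · rcases min_choice (UU th V (eL a b z) S) (UU th V (eR a b z) S) with h | h
    · refine ⟨_, sL.1, ?_⟩
      show _ ≤ 2 * min (UU th V (eL a b z) S) (UU th V (eR a b z) S)
      rw [h]
      exact (hmono _ _ (dT_fi a b z hz _).2).trans bL.1
    · refine ⟨_, sR.1, ?_⟩
      show _ ≤ 2 * min (UU th V (eL a b z) S) (UU th V (eR a b z) S)
      rw [h]
      exact (hmono _ _ (dT_fi a b z hz _).1).trans bR.1
  · intro x hx
    rcases fi_dT a b z hz hS x hx with h | h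
    · linarith [hmono _ _ h]
    · linarith [hmono _ _ h]
  · by_cases hzS : z ∈ S
    · have h3 := bdry q th c h0 h1 hth m V hD a b z hz (by omega) hS hzS
      have h4 : fi (eL a b z) S ≤ 0 := fi_le 0 (by
        show eL a b z ((0 : ℕ) : ℤ) ∈ S
        rw [Nat.cast_zero, hz2]
        exact hzS)
      have h5 : fi (eL a b z) S = 0 := by omega
      have h6 := bL.2
      rw [h5, Nat.cast_zero, mul_zero, Real.exp_zero] at h6
      have h7 : c * WW th V a b z S ≤ c * 2 := mul_le_mul_of_nonneg_left (by linarith) hc.le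
      linarith
    · have hiL : 1 ≤ fi (eL a b z) S := by
        by_contra hcon
        have h5 : fi (eL a b z) S = 0 := by omega
        have h6 := sL.1
        rw [h5, Nat.cast_zero, hz2] at h6
        exact hzS h6
      have hiR : 1 ≤ fi (eR a b z) S := by
        by_contra hcon
        have h5 : fi (eR a b z) S = 0 := by omega
        have h6 := sR.1
        rw [h5, Nat.cast_zero, hz1] at h6
        exact hzS h6
      have hadd := fi_add a b z hz N hN hS hne
      have hC : 0 ≤ (2 * (m : ℝ) + 1) * (2 * Real.exp th) := by positivity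
      rcases le_total (UU th V (eL a b z) S) (UU th V (eR a b z) S) with h | h
      · have h3 := gen_min q h0 h1 a b (UU th V (eL a b z)) (UU th V (eR a b z)) S h
        have h4 : genT q a b (WW th V a b z) S ≤ genT q a b (UU th V (eL a b z)) S := h3
        rw [genL q a b z hz N hN (UU th V (eL a b z)) S] at h4
        have h5 := pers_side q th c h0 h1 hth m V hD hEL hS hne hiL K hK hadd hNK h
        have h6 : WW th V a b z S = UU th V (eL a b z) S := min_eq_left h
        rw [h6]
        linarith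
      · have h3 := gen_min q h0 h1 a b (UU th V (eR a b z)) (UU th V (eL a b z)) S h
        have h7 : WW th V a b z = fun T => min (UU th V (eR a b z) T) (UU th V (eL a b z) T) := by
          funext T
          exact min_comm _ _
        rw [← h7] at h3
        rw [genR q a b z hz N hN (UU th V (eR a b z)) S] at h3
        have h5 := pers_side q th c h0 h1 hth m V hD hER hS hne hiR K hK (by omega) hNK h
        have h6 : WW th V a b z S = UU th V (eR a b z) S := min_eq_right h
        rw [h6]
        linarith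

end FAF
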