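import Pool.Agent.Helper769.FAF.Defs

open Finset

noncomputable section

namespace FAF

/-! ## The circle `Icc a b` with `a` and `b` adjacent -/

/-- left neighbour on the circle -/
def pr (a b x : ℤ) : ℤ := if x = a then b else x - 1
/-- right neighbour on the circle -/
def sc (a b x : ℤ) : ℤ := if x = b then a else x + 1

/-- constraint at `x` on the circle -/
def cstT (a b x : ℤ) (S : Finset ℤ) : ℝ := if pr a b x ∈ S ∨ sc a b x ∈ S then 1 else 0

/-- generator of FA-1f on the circle (`S` = set of infected sites) -/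
def genT (q : ℝ) (a b : ℤ) (F : Finset ℤ → ℝ) (S : Finset ℤ) : ℝ :=
  ∑ x ∈ Icc a b, cstT a b x S * (q * F (insert x S) + (1 - q) * F (S.erase x) - F S)

/-- distance on the circle -/
def dT (a b z x : ℤ) : ℕ := min ((x - z) % (b - a + 1)).toNat ((z - x) % (b - a + 1)).toNat

/-- `e k` is the site `k` steps away from `z = e 0` -/
structure Enum (N : ℕ) (X : Finset ℤ) (e : ℤ → ℤ) : Prop where
  per : ∀ k l : ℤ, e k = e l ↔ (N : ℤ) ∣ k - l
  mem : ∀ k, e k ∈ X
  surj : ∀ x ∈ X, ∃ k : ℕ, k < N ∧ e k = x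

/-- constraint at `e k` -/
def ce (e : ℤ → ℤ) (k : ℤ) (S : Finset ℤ) : ℝ := if e (k - 1) ∈ S ∨ e (k + 1) ∈ S then 1 else 0

/-- generator through an enumeration -/
def genE (q : ℝ) (N : ℕ) (e : ℤ → ℤ) (F : Finset ℤ → ℝ) (S : Finset ℤ) : ℝ :=
  ∑ k ∈ range N, ce e k S * (q * F (insert (e k) S) + (1 - q) * F (S.erase (e k)) - F S)

/-- steps to the right of `z` -/
def eR (a b z k : ℤ) : ℤ := a + (z - a + k) % (b - a + 1)
/-- steps to the left of `z` -/
def eL (a b z k : ℤ) : ℤ := a + (z - a - k) % (b - a + 1)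

/-- number of steps to the first infected site -/
def fi (e : ℤ → ℤ) (S : Finset ℤ) : ℕ := by
  classical exact if h : ∃ k : ℕ, e k ∈ S then Nat.find h else 0

/-- the environment behind the first infected site -/
def env (e : ℤ → ℤ) (S : Finset ℤ) : Env := fun j => decide (e (fi e S + 1 + j) ∈ S)

/-- one-sided Lyapunov function -/
def UU (th : ℝ) (V : Env → ℝ) (e : ℤ → ℤ) (S : Finset ℤ) : ℝ :=
  if S.Nonempty then Real.exp (th * fi e S) * V (env e S) else 0

/-- two-sided Lyapunov function -/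
def WW (th : ℝ) (V : Env → ℝ) (a b z : ℤ) (S : Finset ℤ) : ℝ :=
  min (UU th V (eL a b z) S) (UU th V (eR a b z) S)

/-- exponential drift condition for the process seen from the front -/
def Drift (q th c : ℝ) (m : ℕ) (V : Env → ℝ) : Prop :=
  Dep m V ∧ (∀ z, 1 / 2 ≤ V z) ∧ (∀ z, V z ≤ 2) ∧ ∀ z,
    q * (Real.exp (-th) * V (cons true z) - V z)
      + (if z 0 = true then (1 - q) * (Real.exp th * V (tl z) - V z) else 0)
      + ∑ k ∈ range m, cr z k * (q * V (up z k true) + (1 - q) * V (up z k false) - V z)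
    ≤ -c * V z

end FAF
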